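import Pool.Agent.STZ.Fejer
import Pool.Agent.STZ.Arcs
import Pool.Agent.STZ.DivMom

/-!
# STE/Fej2: bilinear forms of Fejér kernels for two sets, majorant of the arcs

`Shat S k = ∫_S e^{2 π i k t} dt` (STZ/Fejer).

PROOF. `fej_form2`: as `STZ.fej_form`: `fej L x = (1/L) ∑_{p} eX (p.1 - p.2) x` (`fej_eq`), `sum_eX_div`;
`∫_S ∫_{S'} eX k (t - s) = Shat S k * conj (Shat S' k)`, absolute values; the number of pairs
`(p.1, p.2)` with difference `k` is at most `L`, and `|k| ≤ L`.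
`arc_le`: `u ∈ arcs 1 Q ρ`: `1 ≤ c ≤ Q`, `|c u + d| ≤ ρ`, so `|u + d/c| ≤ ρ/c`. `L_c = ⌊c/(2ρ)⌋ ≥ 1`
(`ρ ≤ 1/2`), `ρ/c ≤ 1/(2 L_c)`. With `d = -k c + j`, `0 ≤ j < c`: `|u + j/c - k| ≤ 1/(2 L_c)`, so
`fej L_c (u + j/c) ≥ L_c/3` (`fej_lower`); all other terms are `≥ 0`.
`arc_form`: integrate `arc_le` with `fej_form2` (`q = c`, `L = L_c`): `(3/L_c) c ≤ 12 ρ` because
`L_c ≥ c/(4ρ)`, and `L_c ≤ X`; exchange the sums over `c` and `k`.
-/

open MeasureTheory Complex STZ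
open scoped Real

namespace STE

theorem fej_form2 (L q : ℕ) (hL : 1 ≤ L) (hq : 1 ≤ q) (S S' : Set ℝ) (hS : MeasurableSet S)
    (hS' : MeasurableSet S') (hS1 : S ⊆ Set.Icc 0 1) (hS1' : S' ⊆ Set.Icc 0 1) :
    ∫ t in S, ∫ s in S', ∑ i ∈ Finset.range q, fej L (t - s + (i : ℝ) / q) ≤
      q * ∑ k ∈ (Finset.Icc (-(L : ℤ)) L).filter (fun k => (q : ℤ) ∣ k), ‖Shat S k‖ * ‖Shat S' k‖ := by
  have hL0 : (0 : ℝ) < L := by exact_mod_cast hL
  have hfin : IsFiniteMeasure (volume.restrict S) := by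
    constructor
    rw [Measure.restrict_apply_univ]
    exact (measure_mono hS1).trans_lt (by simp)
  have hfin' : IsFiniteMeasure (volume.restrict S') := by
    constructor
    rw [Measure.restrict_apply_univ]
    exact (measure_mono hS1').trans_lt (by simp)
  set P := Finset.range L ×ˢ Finset.range L with hP
  set cc : ℤ → ℂ := fun k => if (q : ℤ) ∣ k then (q : ℂ) else 0 with hcc
  have hint : ∀ k : ℤ, Integrable (fun x => eX k x) (volume.restrict S) := fun k =>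
    Integrable.of_bound (eX_continuous k).aestronglyMeasurable 1
      (Filter.Eventually.of_forall fun x => (eX_norm k x).le)
  have hintc : ∀ k : ℤ, Integrable (fun x => (starRingEnd ℂ) (eX k x)) (volume.restrict S') :=
    fun k => Integrable.of_bound
      (Complex.continuous_conj.comp (eX_continuous k)).aestronglyMeasurable 1
      (Filter.Eventually.of_forall fun x => by rw [Complex.norm_conj]; exact (eX_norm k x).le)
  -- the integrand
  have h1 : ∀ t s : ℝ, ((∑ i ∈ Finset.range q, fej L (t - s + (i : ℝ) / q) : ℝ) : ℂ) =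
      ∑ p ∈ P, (1 / (L : ℂ)) * cc ((p.1 : ℤ) - p.2) * eX ((p.1 : ℤ) - p.2) t *
        (starRingEnd ℂ) (eX ((p.1 : ℤ) - p.2) s) := by
    intro t s
    rw [ofReal_sum]
    simp only [fej_eq]
    rw [← Finset.mul_sum, Finset.sum_comm, Finset.mul_sum]
    refine Finset.sum_congr rfl fun p _ => ?_
    have h2 : ∀ i ∈ Finset.range q, eX ((p.1 : ℤ) - p.2) (t - s + (i : ℝ) / q) =
        eX ((p.1 : ℤ) - p.2) t * (starRingEnd ℂ) (eX ((p.1 : ℤ) - p.2) s) *
          eX ((p.1 : ℤ) - p.2) ((i : ℝ) / q) := by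
      intro i _
      generalize ((p.1 : ℤ) - p.2) = m
      rw [eX_add, show t - s = t + -s from sub_eq_add_neg _ _, eX_add, eX_conj]
    rw [Finset.sum_congr rfl h2, ← Finset.mul_sum, sum_eX_div q hq]
    simp only [hcc]
    ring
  -- the double integral
  have h3 : ((∫ t in S, ∫ s in S', ∑ i ∈ Finset.range q, fej L (t - s + (i : ℝ) / q) : ℝ) : ℂ) =
      ∑ p ∈ P, (1 / (L : ℂ)) * cc ((p.1 : ℤ) - p.2) *
        (Shat S ((p.1 : ℤ) - p.2) * (starRingEnd ℂ) (Shat S' ((p.1 : ℤ) - p.2))) := by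
    rw [← integral_complex_ofReal]
    have h4 : ∀ t : ℝ, ((∫ s in S', ∑ i ∈ Finset.range q, fej L (t - s + (i : ℝ) / q) : ℝ) : ℂ) =
        ∑ p ∈ P, (1 / (L : ℂ)) * cc ((p.1 : ℤ) - p.2) *
          (starRingEnd ℂ) (Shat S' ((p.1 : ℤ) - p.2)) * eX ((p.1 : ℤ) - p.2) t := by
      intro t
      rw [← integral_complex_ofReal]
      simp only [h1]
      rw [integral_finsetSum _ fun p _ => (hintc _).const_mul _]
      refine Finset.sum_congr rfl fun p _ => ?_
      rw [integral_const_mul, integral_conj]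
      change _ * (starRingEnd ℂ) (Shat S' ((p.1 : ℤ) - p.2)) = _
      ring
    simp only [h4]
    rw [integral_finsetSum _ fun p _ => (hint _).const_mul _]
    refine Finset.sum_congr rfl fun p _ => ?_
    rw [integral_const_mul]
    change _ * Shat S ((p.1 : ℤ) - p.2) = _
    ring
  -- back to the reals
  set F : ℤ → ℝ := fun k => if (q : ℤ) ∣ k then ‖Shat S k‖ * ‖Shat S' k‖ else 0 with hF
  have hF0 : ∀ k, 0 ≤ F k := by
    intro k
    simp only [hF]
    split_ifs <;> positivity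
  have h5 : ∫ t in S, ∫ s in S', ∑ i ∈ Finset.range q, fej L (t - s + (i : ℝ) / q) ≤
      (q / L : ℝ) * ∑ p ∈ P, F ((p.1 : ℤ) - p.2) := by
    calc ∫ t in S, ∫ s in S', ∑ i ∈ Finset.range q, fej L (t - s + (i : ℝ) / q)
        ≤ |∫ t in S, ∫ s in S', ∑ i ∈ Finset.range q, fej L (t - s + (i : ℝ) / q)| := le_abs_self _
      _ = ‖((∫ t in S, ∫ s in S', ∑ i ∈ Finset.range q, fej L (t - s + (i : ℝ) / q) : ℝ) : ℂ)‖ := by
          rw [Complex.norm_real, Real.norm_eq_abs]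
      _ ≤ ∑ p ∈ P, ‖(1 / (L : ℂ)) * cc ((p.1 : ℤ) - p.2) *
        (Shat S ((p.1 : ℤ) - p.2) * (starRingEnd ℂ) (Shat S' ((p.1 : ℤ) - p.2)))‖ := by
          rw [h3]; exact norm_sum_le _ _
      _ = (q / L : ℝ) * ∑ p ∈ P, F ((p.1 : ℤ) - p.2) := by
          rw [Finset.mul_sum]
          refine Finset.sum_congr rfl fun p _ => ?_
          rw [norm_mul, norm_mul, norm_mul, Complex.norm_conj]
          simp only [hcc, hF]
          split_ifs
          · simp only [norm_div, norm_one, Complex.norm_natCast]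
            ring
          · simp
  refine h5.trans ?_
  have h6 : ∑ p ∈ P, F ((p.1 : ℤ) - p.2) ≤ L * ∑ k ∈ Finset.Icc (-(L : ℤ)) L, F k := by
    rw [hP, Finset.sum_product]
    calc ∑ j ∈ Finset.range L, ∑ j' ∈ Finset.range L, F ((j : ℤ) - j')
        ≤ ∑ _j ∈ Finset.range L, ∑ k ∈ Finset.Icc (-(L : ℤ)) L, F k := by
          refine Finset.sum_le_sum fun j hj => ?_
          rw [Finset.mem_range] at hj
          have hinj : Set.InjOn (fun j' : ℕ => (j : ℤ) - j') (Finset.range L) := by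
            intro x _ y _ hxy
            simp only at hxy
            omega
          rw [← Finset.sum_image (f := F) hinj]
          refine Finset.sum_le_sum_of_subset_of_nonneg ?_ fun k _ _ => hF0 k
          intro k hk
          rw [Finset.mem_image] at hk
          obtain ⟨j', hj', rfl⟩ := hk
          rw [Finset.mem_range] at hj'
          rw [Finset.mem_Icc]
          omega
      _ = L * ∑ k ∈ Finset.Icc (-(L : ℤ)) L, F k := by
          rw [Finset.sum_const, Finset.card_range, nsmul_eq_mul]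
  have h7 : ∑ k ∈ Finset.Icc (-(L : ℤ)) L, F k =
      ∑ k ∈ (Finset.Icc (-(L : ℤ)) L).filter (fun k => (q : ℤ) ∣ k), ‖Shat S k‖ * ‖Shat S' k‖ := by
    rw [Finset.sum_filter]
  rw [← h7]
  calc (q / L : ℝ) * ∑ p ∈ P, F ((p.1 : ℤ) - p.2)
      ≤ (q / L : ℝ) * (L * ∑ k ∈ Finset.Icc (-(L : ℤ)) L, F k) :=
        mul_le_mul_of_nonneg_left h6 (by positivity)
    _ = _ := by field_simp

/-- the length `⌊c/(2ρ)⌋` -/
noncomputable def Lc (ρ : ℝ) (c : ℕ) : ℕ := ⌊(c : ℝ) / (2 * ρ)⌋₊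

private lemma Lc_pos (ρ : ℝ) (hρ : 0 < ρ) (hρ1 : ρ ≤ 1 / 2) (c : ℕ) (hc : 1 ≤ c) : 1 ≤ Lc ρ c := by
  unfold Lc
  rw [Nat.one_le_floor_iff, le_div_iff₀ (by positivity)]
  have : (1 : ℝ) ≤ c := by exact_mod_cast hc
  linarith

private lemma Lc_le (ρ : ℝ) (hρ : 0 < ρ) (c : ℕ) : (Lc ρ c : ℝ) ≤ (c : ℝ) / (2 * ρ) := by
  unfold Lc
  exact Nat.floor_le (by positivity)

private lemma Lc_ge (ρ : ℝ) (hρ : 0 < ρ) (hρ1 : ρ ≤ 1 / 2) (c : ℕ) (hc : 1 ≤ c) :
    (c : ℝ) / (4 * ρ) ≤ (Lc ρ c : ℝ) := by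
  have h1 : (1 : ℝ) ≤ (Lc ρ c : ℝ) := by exact_mod_cast Lc_pos ρ hρ hρ1 c hc
  have h2 : (c : ℝ) / (2 * ρ) < (Lc ρ c : ℝ) + 1 := by
    unfold Lc
    exact Nat.lt_floor_add_one _
  have h3 : (c : ℝ) / (4 * ρ) = (c : ℝ) / (2 * ρ) / 2 := by
    field_simp
    ring
  rw [h3]
  linarith

theorem arc_le (Q : ℕ) (hQ : 1 ≤ Q) (ρ : ℝ) (hρ : 0 < ρ) (hρ1 : ρ ≤ 1 / 2) (u : ℝ)
    (hu : u ∈ arcs 1 Q ρ) :
    1 ≤ ∑ c ∈ Finset.Icc 1 Q, (3 / (Lc ρ c : ℝ)) *
      ∑ j ∈ Finset.range c, fej (Lc ρ c) (u + (j : ℝ) / c) := by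
  obtain ⟨c, d, hc1, hcQ, hcd⟩ := hu
  obtain ⟨c', rfl⟩ : ∃ c' : ℕ, c = c' := ⟨c.toNat, by omega⟩
  have hc1' : 1 ≤ c' := by exact_mod_cast hc1
  have hcQ' : c' ≤ Q := by exact_mod_cast hcQ
  have hc0 : (0 : ℝ) < c' := by exact_mod_cast hc1'
  have hL := Lc_pos ρ hρ hρ1 c' hc1'
  have hL0 : (0 : ℝ) < (Lc ρ c' : ℝ) := by exact_mod_cast hL
  have hmem : c' ∈ Finset.Icc 1 Q := Finset.mem_Icc.2 ⟨hc1', hcQ'⟩
  have hterm : 1 ≤ (3 / (Lc ρ c' : ℝ)) *
      ∑ j ∈ Finset.range c', fej (Lc ρ c') (u + (j : ℝ) / c') := by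
    set j : ℕ := (d % (c' : ℤ)).toNat with hj
    have hcz : (0 : ℤ) < c' := by exact_mod_cast hc1'
    have hj0 : 0 ≤ d % (c' : ℤ) := Int.emod_nonneg _ (by omega)
    have hj1 : d % (c' : ℤ) < c' := Int.emod_lt_of_pos _ hcz
    have hjz : (j : ℤ) = d % (c' : ℤ) := by rw [hj]; omega
    have hjm : j ∈ Finset.range c' := by
      rw [Finset.mem_range]; omega
    have hd : (d : ℝ) = c' * ((d / (c' : ℤ) : ℤ) : ℝ) + j := by
      have := Int.mul_ediv_add_emod d (c' : ℤ)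
      rw [← hjz] at this
      exact_mod_cast this.symm
    have hdist : |u + (j : ℝ) / c' - ((-(d / (c' : ℤ)) : ℤ) : ℝ)| ≤ 1 / (2 * (Lc ρ c' : ℝ)) := by
      have h1 : u + (j : ℝ) / c' - ((-(d / (c' : ℤ)) : ℤ) : ℝ)
          = ((c' : ℝ) * (1 * u) + d) / c' := by
        rw [hd]
        push_cast
        field_simp
        ring
      rw [h1, abs_div, abs_of_pos hc0, div_le_div_iff₀ hc0 (by positivity)]
      have h2 := Lc_le ρ hρ c'
      rw [le_div_iff₀ (by positivity)] at h2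
      have h3 : |(c' : ℝ) * (1 * u) + d| ≤ ρ := by exact_mod_cast hcd
      calc |(c' : ℝ) * (1 * u) + d| * (2 * (Lc ρ c' : ℝ)) ≤ ρ * (2 * (Lc ρ c' : ℝ)) := by gcongr
        _ = (Lc ρ c' : ℝ) * (2 * ρ) := by ring
        _ ≤ c' := h2
        _ = 1 * c' := by ring
    have hlow := fej_lower (Lc ρ c') hL (u + (j : ℝ) / c') (-(d / (c' : ℤ))) hdist
    have hsum : (Lc ρ c' : ℝ) / 3 ≤ ∑ j ∈ Finset.range c', fej (Lc ρ c') (u + (j : ℝ) / c') :=
      hlow.trans (Finset.single_le_sum (f := fun j : ℕ => fej (Lc ρ c') (u + (j : ℝ) / c'))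
        (fun i _ => fej_nonneg _ _) hjm)
    calc (1 : ℝ) = (3 / (Lc ρ c' : ℝ)) * ((Lc ρ c' : ℝ) / 3) := by field_simp
      _ ≤ _ := mul_le_mul_of_nonneg_left hsum (by positivity)
  refine hterm.trans (Finset.single_le_sum (f := fun c : ℕ => (3 / (Lc ρ c : ℝ)) *
      ∑ j ∈ Finset.range c, fej (Lc ρ c) (u + (j : ℝ) / c)) (fun c _ => ?_) hmem)
  have : 0 ≤ ∑ j ∈ Finset.range c, fej (Lc ρ c) (u + (j : ℝ) / c) :=
    Finset.sum_nonneg fun i _ => fej_nonneg _ _
  positivity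

private lemma fej_le (L : ℕ) (t : ℝ) : fej L t ≤ L := by
  unfold fej
  rcases Nat.eq_zero_or_pos L with rfl | hL
  · simp
  have hL0 : (0 : ℝ) < L := by exact_mod_cast hL
  have h1 : ‖∑ j ∈ Finset.range L, cexp (2 * π * I * ((j : ℝ) * t : ℝ))‖ ≤ L := by
    refine (norm_sum_le _ _).trans ?_
    have : ∀ j ∈ Finset.range L, ‖cexp (2 * π * I * ((j : ℝ) * t : ℝ))‖ = 1 := by
      intro j _
      have := eX_norm (j : ℤ) t
      unfold eX at this
      exact_mod_cast this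
    rw [Finset.sum_congr rfl this]
    simp
  calc 1 / (L : ℝ) * ‖∑ j ∈ Finset.range L, cexp (2 * π * I * ((j : ℝ) * t : ℝ))‖ ^ 2
      ≤ 1 / (L : ℝ) * (L : ℝ) ^ 2 := by gcongr
    _ = (L : ℝ) := by field_simp

private lemma int_inner (S' : Set ℝ) [IsFiniteMeasure (volume.restrict S')] (g : ℝ → ℝ)
    (hg : Measurable g) (B : ℝ) (hB : ∀ x, |g x| ≤ B) (t : ℝ) :
    Integrable (fun s => g (t - s)) (volume.restrict S') :=
  Integrable.of_bound (hg.comp (measurable_const.sub measurable_id)).aestronglyMeasurable B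
    (Filter.Eventually.of_forall fun x => by rw [Real.norm_eq_abs]; exact hB _)

private lemma int_outer (S S' : Set ℝ) [IsFiniteMeasure (volume.restrict S)]
    [IsFiniteMeasure (volume.restrict S')] (g : ℝ → ℝ)
    (hg : Measurable g) (B : ℝ) (hB : ∀ x, |g x| ≤ B) :
    Integrable (fun t => ∫ s in S', g (t - s)) (volume.restrict S) := by
  refine Integrable.of_bound ?_ (B * (volume.restrict S').real Set.univ)
    (Filter.Eventually.of_forall fun x => ?_)
  · have hm : StronglyMeasurable (Function.uncurry fun t s : ℝ => g (t - s)) := by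
      apply Measurable.stronglyMeasurable
      exact hg.comp (measurable_fst.sub measurable_snd)
    exact (hm.integral_prod_right (ν := volume.restrict S')).aestronglyMeasurable
  · refine norm_integral_le_of_norm_le_const (Filter.Eventually.of_forall fun y => ?_)
    rw [Real.norm_eq_abs]; exact hB _

private lemma int_mono2 (S S' : Set ℝ) [IsFiniteMeasure (volume.restrict S)]
    [IsFiniteMeasure (volume.restrict S')] (g h : ℝ → ℝ)
    (hg : Measurable g) (hh : Measurable h) (B : ℝ) (hB : ∀ x, |g x| ≤ B) (hB' : ∀ x, |h x| ≤ B)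
    (hgh : ∀ x, g x ≤ h x) :
    ∫ t in S, ∫ s in S', g (t - s) ≤ ∫ t in S, ∫ s in S', h (t - s) := by
  refine integral_mono (int_outer S S' g hg B hB) (int_outer S S' h hh B hB') fun t => ?_
  exact integral_mono (int_inner S' g hg B hB t) (int_inner S' h hh B hB' t) fun s => hgh _

theorem arc_form (Q : ℕ) (hQ : 1 ≤ Q) (ρ : ℝ) (hρ : 0 < ρ) (hρ1 : ρ ≤ 1 / 2) (X : ℕ)
    (hX : (Q : ℝ) / (2 * ρ) ≤ X) (S S' : Set ℝ) (hS : MeasurableSet S)
    (hS' : MeasurableSet S') (hS1 : S ⊆ Set.Icc 0 1) (hS1' : S' ⊆ Set.Icc 0 1) :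
    ∫ t in S, ∫ s in S', (arcs 1 Q ρ).indicator (fun _ => (1 : ℝ)) (t - s) ≤
      12 * ρ * ∑ k ∈ Finset.Icc (-(X : ℤ)) X, (dQ Q k.natAbs : ℝ) * (‖Shat S k‖ * ‖Shat S' k‖) := by
  have hfin : IsFiniteMeasure (volume.restrict S) := by
    constructor
    rw [Measure.restrict_apply_univ]
    exact (measure_mono hS1).trans_lt (by simp)
  have hfin' : IsFiniteMeasure (volume.restrict S') := by
    constructor
    rw [Measure.restrict_apply_univ]
    exact (measure_mono hS1').trans_lt (by simp)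
  -- the majorant
  set h : ℕ → ℝ → ℝ := fun c x => ∑ j ∈ Finset.range c, fej (Lc ρ c) (x + (j : ℝ) / c) with hh
  have hhm : ∀ c, Measurable (h c) := by
    intro c
    refine Finset.measurable_sum _ fun j _ => ?_
    exact (fej_continuous _).measurable.comp (measurable_id.add_const _)
  have hh0 : ∀ c x, 0 ≤ h c x := fun c x => Finset.sum_nonneg fun j _ => fej_nonneg _ _
  have hhB : ∀ c x, |h c x| ≤ c * (Lc ρ c : ℝ) := by
    intro c x
    rw [abs_of_nonneg (hh0 c x)]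
    calc h c x ≤ ∑ _j ∈ Finset.range c, (Lc ρ c : ℝ) := Finset.sum_le_sum fun j _ => fej_le _ _
      _ = _ := by simp
  set H : ℝ → ℝ := fun x => ∑ c ∈ Finset.Icc 1 Q, (3 / (Lc ρ c : ℝ)) * h c x with hH
  have hHm : Measurable H := by
    refine Finset.measurable_sum _ fun c _ => ?_
    exact (hhm c).const_mul _
  have hH0 : ∀ x, 0 ≤ H x := fun x => Finset.sum_nonneg fun c _ => by
    have := hh0 c x
    positivity
  set B : ℝ := 1 + ∑ c ∈ Finset.Icc 1 Q, (3 / (Lc ρ c : ℝ)) * (c * (Lc ρ c : ℝ)) with hB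
  have hB1 : 0 ≤ ∑ c ∈ Finset.Icc 1 Q, (3 / (Lc ρ c : ℝ)) * (c * (Lc ρ c : ℝ)) :=
    Finset.sum_nonneg fun c _ => by positivity
  have hHB : ∀ x, |H x| ≤ B := by
    intro x
    rw [abs_of_nonneg (hH0 x)]
    have : H x ≤ ∑ c ∈ Finset.Icc 1 Q, (3 / (Lc ρ c : ℝ)) * (c * (Lc ρ c : ℝ)) := by
      refine Finset.sum_le_sum fun c _ => ?_
      exact mul_le_mul_of_nonneg_left ((le_abs_self _).trans (hhB c x)) (by positivity)
    linarith
  classical
  have hind : ∀ x, |(arcs 1 Q ρ).indicator (fun _ => (1 : ℝ)) x| ≤ B := by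
    intro x
    rw [Set.indicator_apply]
    split_ifs
    · rw [abs_one]; linarith
    · rw [abs_zero]; linarith
  have hle : ∀ x, (arcs 1 Q ρ).indicator (fun _ => (1 : ℝ)) x ≤ H x := by
    intro x
    rw [Set.indicator_apply]
    split_ifs with hx
    · exact arc_le Q hQ ρ hρ hρ1 x hx
    · exact hH0 x
  have hmono := int_mono2 S S' _ H
    (measurable_const.indicator (measurableSet_arcs 1 Q ρ)) hHm B hind hHB hle
  refine hmono.trans ?_
  -- expand the integral of the majorant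
  have hexp : ∫ t in S, ∫ s in S', H (t - s) =
      ∑ c ∈ Finset.Icc 1 Q, (3 / (Lc ρ c : ℝ)) * ∫ t in S, ∫ s in S', h c (t - s) := by
    have h1 : ∀ t : ℝ, ∫ s in S', H (t - s) =
        ∑ c ∈ Finset.Icc 1 Q, (3 / (Lc ρ c : ℝ)) * ∫ s in S', h c (t - s) := by
      intro t
      simp only [hH]
      rw [integral_finsetSum _ fun c _ =>
        (int_inner S' (h c) (hhm c) _ (hhB c) t).const_mul _]
      refine Finset.sum_congr rfl fun c _ => ?_
      rw [integral_const_mul]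
    simp only [h1]
    rw [integral_finsetSum _ fun c _ =>
      (int_outer S S' (h c) (hhm c) _ (hhB c)).const_mul _]
    refine Finset.sum_congr rfl fun c _ => ?_
    rw [integral_const_mul]
  rw [hexp]
  set w : ℤ → ℝ := fun k => ‖Shat S k‖ * ‖Shat S' k‖ with hw
  have hw0 : ∀ k, 0 ≤ w k := fun k => by positivity
  have hc : ∀ c ∈ Finset.Icc 1 Q, (3 / (Lc ρ c : ℝ)) * ∫ t in S, ∫ s in S', h c (t - s) ≤
      12 * ρ * ∑ k ∈ Finset.Icc (-(X : ℤ)) X, if (c : ℤ) ∣ k then w k else 0 := by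
    intro c hc
    rw [Finset.mem_Icc] at hc
    have hc0 : (0 : ℝ) < c := by exact_mod_cast hc.1
    have hL := Lc_pos ρ hρ hρ1 c hc.1
    have hL0 : (0 : ℝ) < (Lc ρ c : ℝ) := by exact_mod_cast hL
    have h1 := fej_form2 (Lc ρ c) c hL hc.1 S S' hS hS' hS1 hS1'
    have h2 : ∑ k ∈ (Finset.Icc (-(Lc ρ c : ℤ)) (Lc ρ c)).filter (fun k => (c : ℤ) ∣ k), w k ≤
        ∑ k ∈ Finset.Icc (-(X : ℤ)) X, if (c : ℤ) ∣ k then w k else 0 := by
      rw [← Finset.sum_filter]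
      refine Finset.sum_le_sum_of_subset_of_nonneg ?_ fun k _ _ => hw0 k
      have hLX : Lc ρ c ≤ X := by
        have h3 := Lc_le ρ hρ c
        have h4 : (c : ℝ) / (2 * ρ) ≤ (Q : ℝ) / (2 * ρ) := by
          have : (c : ℝ) ≤ Q := by exact_mod_cast hc.2
          gcongr
        have h5 : (Lc ρ c : ℝ) ≤ X := by linarith
        exact_mod_cast h5
      intro k hk
      rw [Finset.mem_filter, Finset.mem_Icc] at hk ⊢
      omega
    have h3 : (3 / (Lc ρ c : ℝ)) * c ≤ 12 * ρ := by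
      have h4 := Lc_ge ρ hρ hρ1 c hc.1
      rw [div_le_iff₀ (by positivity)] at h4
      rw [div_mul_eq_mul_div, div_le_iff₀ hL0]
      nlinarith
    calc (3 / (Lc ρ c : ℝ)) * ∫ t in S, ∫ s in S', h c (t - s)
        ≤ (3 / (Lc ρ c : ℝ)) * (c * ∑ k ∈ (Finset.Icc (-(Lc ρ c : ℤ)) (Lc ρ c)).filter
            (fun k => (c : ℤ) ∣ k), w k) := mul_le_mul_of_nonneg_left h1 (by positivity)
      _ = ((3 / (Lc ρ c : ℝ)) * c) * ∑ k ∈ (Finset.Icc (-(Lc ρ c : ℤ)) (Lc ρ c)).filter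
            (fun k => (c : ℤ) ∣ k), w k := by ring
      _ ≤ (12 * ρ) * ∑ k ∈ (Finset.Icc (-(Lc ρ c : ℤ)) (Lc ρ c)).filter
            (fun k => (c : ℤ) ∣ k), w k :=
          mul_le_mul_of_nonneg_right h3 (Finset.sum_nonneg fun k _ => hw0 k)
      _ ≤ _ := mul_le_mul_of_nonneg_left h2 (by positivity)
  refine (Finset.sum_le_sum hc).trans ?_
  rw [← Finset.mul_sum, Finset.sum_comm]
  refine mul_le_mul_of_nonneg_left (Finset.sum_le_sum fun k _ => ?_) (by positivity)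
  rw [← Finset.sum_filter, Finset.sum_const, nsmul_eq_mul]
  have hcard : ((Finset.Icc 1 Q).filter (fun c : ℕ => (c : ℤ) ∣ k)).card = dQ Q k.natAbs := by
    unfold dQ
    congr 1
    ext c
    simp only [Finset.mem_filter, and_congr_right_iff]
    intro _
    exact Int.natCast_dvd
  rw [hcard]

end STE
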