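import Pool.Agent.STC.TorusDefs
import Pool.Agent.STZ.RKDefs

/-!
# STE/FixedTime: the duality bound

`X = (ℝ/ℤ)^r`. Let `s : Finset ℤ`, `w : ℤ → ℝ`, `0 ≤ w ≤ C1`, `1 ≤ w k` for `|k| ≤ N`, phases
`om k = ∑ a_j k_j²`, and `P t ≥ 0` with `‖∑_{k∈s} w k e^{-i t a_j k²} fourier k x‖ ≤ P_j t`.

PROOF of `duality`. Let `u(t,x) = ∑_{k∈s0} b_k e^{-i t om k} chr k x`,
`E = {(t,x) : t ∈ [0,T0], ‖u‖ > y}`, `E_t` its section, `μ_t = vol E_t`, `h = 1_E u/‖u‖`. Then
`y |E| ≤ ∫∫ u conj h = ∑_{k ∈ s0} b_k conj (H k)`, `H k = ∫_t ∫_x h e^{i t om k} conj (chr k x)`, so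
`y²|E|² ≤ S ∑_{k∈s0} ‖H k‖² ≤ S ∑_{k ∈ piFinset s} W k ‖H k‖²`, `W k = ∏ w (k_j)` (`W ≥ 1` on `s0`), and
`∑ W k ‖H k‖² = ∫_t ∫_s ∑_k W k e^{-i(t-s) om k}... ĥ_s(k) conj ĥ_t(k)` with
`ĥ_t(k) = ∫_x h(t,x) conj (chr k x)`. For fixed `t, s`:
(i) `|∑_k W k e^{..} ĥ_s(k) conj ĥ_t(k)| = |∫∫ h(s,x') conj h(t,x) K(t-s, x-x') dx dx'| ≤
∏_j P_j(t-s) μ_t μ_s` (the kernel `K` is the product of the one-dimensional kernels,
`Finset.prod_univ_sum`);
(ii) `≤ C1^r (∑ ‖ĥ_s(k)‖²)^{1/2} (∑ ‖ĥ_t(k)‖²)^{1/2} ≤ C1^r (μ_s μ_t)^{1/2}` (Bessel for the orthonormal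
system `chr k` in `L²(X)`).
The integrand at `(t,s)` is at most the minimum of (i) and (ii) (times may enter as `t - s` or `s - t`;
`P_j` bounds the kernel at all times and `P_j` is assumed even or take `P_j(t-s)`).
-/

open MeasureTheory Complex
open scoped Real ComplexConjugate

namespace STE

open STC

local instance ft_prob : IsProbabilityMeasure (volume : Measure UnitAddCircle) :=
  ⟨UnitAddCircle.measure_univ⟩

private lemma ft_fn (n : ℤ) (x : UnitAddCircle) : ‖(fourier n x : ℂ)‖ = 1 := by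
  rw [fourier_apply]
  exact Circle.norm_coe _

private lemma ft_fsub (n : ℤ) (x y : UnitAddCircle) :
    (fourier n (x - y) : ℂ) = fourier n x * conj (fourier n y : ℂ) := by
  rw [fourier_apply, fourier_apply, fourier_apply, zsmul_sub, sub_eq_add_neg,
    AddCircle.toCircle_add, AddCircle.toCircle_neg, Circle.coe_mul, Circle.coe_inv_eq_conj]

private lemma ft_cont {r : ℕ} (k : Fin r → ℤ) : Continuous (chr k) := by
  unfold chr
  fun_prop

private lemma ft_norm {r : ℕ} (k : Fin r → ℤ) (x : Fin r → UnitAddCircle) : ‖chr k x‖ = 1 := by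
  unfold chr
  rw [norm_prod]
  exact Finset.prod_eq_one fun j _ => ft_fn _ _

private lemma ft_sub {r : ℕ} (k : Fin r → ℤ) (x y : Fin r → UnitAddCircle) :
    chr k (x - y) = chr k x * conj (chr k y) := by
  unfold chr
  rw [map_prod, ← Finset.prod_mul_distrib]
  exact Finset.prod_congr rfl fun j _ => ft_fsub _ _ _

private lemma ft_int0 (n : ℤ) (hn : n ≠ 0) : ∫ x : UnitAddCircle, (fourier n x : ℂ) = 0 := by
  have h := fun x => fourier_add_half_inv_index (T := (1 : ℝ)) hn one_pos x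
  exact integral_eq_zero_of_add_right_eq_neg (μ := (volume : Measure UnitAddCircle)) h

private lemma ft_orth1 (m n : ℤ) :
    ∫ x : UnitAddCircle, (fourier m x : ℂ) * conj (fourier n x : ℂ) = if m = n then 1 else 0 := by
  have h1 : ∀ x : UnitAddCircle, (fourier m x : ℂ) * conj (fourier n x : ℂ) =
      (fourier (m + -n) x : ℂ) := by
    intro x
    rw [fourier_add, fourier_neg]
  simp only [h1]
  split_ifs with h
  · subst h
    simp
  · exact ft_int0 _ (by omega)

private lemma ft_orth {r : ℕ} (k l : Fin r → ℤ) :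
    ∫ x : Fin r → UnitAddCircle, chr k x * conj (chr l x) = if k = l then 1 else 0 := by
  have h1 : ∀ x : Fin r → UnitAddCircle, chr k x * conj (chr l x) =
      ∏ j, ((fourier (k j) (x j) : ℂ) * conj (fourier (l j) (x j) : ℂ)) := by
    intro x
    unfold chr
    rw [map_prod, Finset.prod_mul_distrib]
  simp only [h1]
  rw [integral_fintype_prod_volume_eq_prod
    (fun j (y : UnitAddCircle) => (fourier (k j) y : ℂ) * conj (fourier (l j) y : ℂ))]
  simp only [ft_orth1]
  split_ifs with h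
  · subst h
    simp
  · have : ∃ j, k j ≠ l j := by
      by_contra hcon
      push Not at hcon
      exact h (funext hcon)
    obtain ⟨j, hj⟩ := this
    exact Finset.prod_eq_zero (Finset.mem_univ j) (if_neg hj)

private lemma ft_int_of_bdd {r : ℕ} (g : (Fin r → UnitAddCircle) → ℂ) (hg : Measurable g) (B : ℝ)
    (hB : ∀ x, ‖g x‖ ≤ B) : Integrable g := by
  exact Integrable.of_bound hg.aestronglyMeasurable B (Filter.Eventually.of_forall hB)

/-- Bessel -/
private lemma ft_bessel {r : ℕ} (g : (Fin r → UnitAddCircle) → ℂ) (hg : Measurable g)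
    (hB : ∀ x, ‖g x‖ ≤ 1) (S : Finset (Fin r → ℤ)) :
    ∑ k ∈ S, ‖∫ x, g x * conj (chr k x)‖ ^ 2 ≤ ∫ x, ‖g x‖ ^ 2 := by
  classical
  set c : (Fin r → ℤ) → ℂ := fun k => ∫ x, g x * conj (chr k x) with hc
  set u : (Fin r → UnitAddCircle) → ℂ := fun x => ∑ k ∈ S, c k * chr k x with hu
  have hcm : ∀ k : Fin r → ℤ, Measurable (chr k) := fun k => (ft_cont k).measurable
  have hconj : ∀ k : Fin r → ℤ, Measurable fun x => conj (chr k x) := fun k =>
    (Complex.continuous_conj.comp (ft_cont k)).measurable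
  have hgc : Measurable fun x => conj (g x) := Complex.continuous_conj.measurable.comp hg
  have i1 : Integrable fun x => g x * conj (g x) :=
    ft_int_of_bdd _ (hg.mul hgc) 1 fun x => by
      rw [norm_mul, Complex.norm_conj]
      have := hB x
      nlinarith [norm_nonneg (g x)]
  have i2 : ∀ k, Integrable fun x => g x * conj (chr k x) := fun k =>
    ft_int_of_bdd _ (hg.mul (hconj k)) 1 fun x => by
      rw [norm_mul, Complex.norm_conj, ft_norm, mul_one]; exact hB x
  have i3 : ∀ k, Integrable fun x => chr k x * conj (g x) := fun k =>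
    ft_int_of_bdd _ ((hcm k).mul hgc) 1 fun x => by
      rw [norm_mul, Complex.norm_conj, ft_norm, one_mul]; exact hB x
  have i4 : ∀ k l : Fin r → ℤ, Integrable fun x => chr k x * conj (chr l x) := fun k l =>
    ft_int_of_bdd _ ((hcm k).mul (hconj l)) 1 fun x => by
      rw [norm_mul, Complex.norm_conj, ft_norm, ft_norm, mul_one]
  have hc3 : ∀ k, ∫ x, chr k x * conj (g x) = conj (c k) := by
    intro k
    rw [hc]
    simp only
    rw [← integral_conj]
    refine integral_congr_ae (Filter.Eventually.of_forall fun x => ?_)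
    simp only [map_mul, Complex.conj_conj]
    ring
  have hexp : ∀ x, (g x - u x) * conj (g x - u x) =
      g x * conj (g x) - ∑ k ∈ S, conj (c k) * (g x * conj (chr k x))
        - ∑ k ∈ S, c k * (chr k x * conj (g x))
        + ∑ k ∈ S, ∑ l ∈ S, c k * conj (c l) * (chr k x * conj (chr l x)) := by
    intro x
    have h1 : g x * conj (u x) = ∑ k ∈ S, conj (c k) * (g x * conj (chr k x)) := by
      simp only [hu, map_sum, map_mul, Finset.mul_sum]
      exact Finset.sum_congr rfl fun k _ => by ring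
    have h2 : u x * conj (g x) = ∑ k ∈ S, c k * (chr k x * conj (g x)) := by
      simp only [hu, Finset.sum_mul]
      exact Finset.sum_congr rfl fun k _ => by ring
    have h3 : u x * conj (u x) =
        ∑ k ∈ S, ∑ l ∈ S, c k * conj (c l) * (chr k x * conj (chr l x)) := by
      simp only [hu, map_sum, map_mul, Finset.sum_mul_sum]
      exact Finset.sum_congr rfl fun k _ => Finset.sum_congr rfl fun l _ => by ring
    rw [← h1, ← h2, ← h3, map_sub]
    ring
  have hI : ∫ x, (g x - u x) * conj (g x - u x) =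
      (∫ x, g x * conj (g x)) - ∑ k ∈ S, ((‖c k‖ ^ 2 : ℝ) : ℂ) := by
    simp only [hexp]
    rw [integral_add, integral_sub, integral_sub, integral_finsetSum, integral_finsetSum,
      integral_finsetSum]
    · have e1 : ∑ k ∈ S, ∫ x, conj (c k) * (g x * conj (chr k x)) =
          ∑ k ∈ S, ((‖c k‖ ^ 2 : ℝ) : ℂ) := by
        refine Finset.sum_congr rfl fun k _ => ?_
        rw [integral_const_mul]
        change conj (c k) * c k = _
        rw [mul_comm, Complex.mul_conj']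
        push_cast; rfl
      have e2 : ∑ k ∈ S, ∫ x, c k * (chr k x * conj (g x)) =
          ∑ k ∈ S, ((‖c k‖ ^ 2 : ℝ) : ℂ) := by
        refine Finset.sum_congr rfl fun k _ => ?_
        rw [integral_const_mul, hc3, Complex.mul_conj']
        push_cast; rfl
      have e3 : ∑ k ∈ S, ∫ x, ∑ l ∈ S, c k * conj (c l) * (chr k x * conj (chr l x)) =
          ∑ k ∈ S, ((‖c k‖ ^ 2 : ℝ) : ℂ) := by
        refine Finset.sum_congr rfl fun k hk => ?_
        rw [integral_finsetSum]
        · simp only [integral_const_mul, ft_orth]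
          rw [Finset.sum_eq_single k]
          · rw [if_pos rfl, mul_one, Complex.mul_conj']
            push_cast; rfl
          · intro l _ hl
            rw [if_neg (Ne.symm hl), mul_zero]
          · intro h; exact absurd hk h
        · intro l _
          exact (i4 k l).const_mul _
      rw [e1, e2, e3]
      ring
    · intro k _
      exact integrable_finsetSum _ fun l _ => (i4 k l).const_mul _
    · intro k _
      exact (i3 k).const_mul _
    · intro k _
      exact (i2 k).const_mul _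
    · exact i1
    · exact integrable_finsetSum _ fun k _ => (i2 k).const_mul _
    · exact i1.sub (integrable_finsetSum _ fun k _ => (i2 k).const_mul _)
    · exact integrable_finsetSum _ fun k _ => (i3 k).const_mul _
    · exact (i1.sub (integrable_finsetSum _ fun k _ => (i2 k).const_mul _)).sub
        (integrable_finsetSum _ fun k _ => (i3 k).const_mul _)
    · exact integrable_finsetSum _ fun k _ => integrable_finsetSum _ fun l _ =>
        (i4 k l).const_mul _
  have hre : ∀ z : ℂ, z * conj z = ((‖z‖ ^ 2 : ℝ) : ℂ) := by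
    intro z
    rw [Complex.mul_conj']
    push_cast; rfl
  simp only [hre] at hI
  rw [integral_complex_ofReal, integral_complex_ofReal, ← Complex.ofReal_sum,
    ← Complex.ofReal_sub] at hI
  have hI' := Complex.ofReal_injective hI
  have hnn : 0 ≤ ∫ x, ‖g x - u x‖ ^ 2 := integral_nonneg fun x => by positivity
  rw [hI'] at hnn
  linarith


private noncomputable def ftu {r : ℕ} (s0 : Finset (Fin r → ℤ)) (b : (Fin r → ℤ) → ℂ)
    (om : (Fin r → ℤ) → ℝ) (t : ℝ) (x : Fin r → UnitAddCircle) : ℂ :=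
  ∑ k ∈ s0, b k * cexp (-((t * om k : ℝ) : ℂ) * I) * chr k x

private lemma ftu_cont {r : ℕ} (s0 : Finset (Fin r → ℤ)) (b : (Fin r → ℤ) → ℂ)
    (om : (Fin r → ℤ) → ℝ) :
    Continuous (Function.uncurry (ftu s0 b om)) := by
  unfold ftu Function.uncurry
  refine continuous_finsetSum _ fun k _ => ?_
  have h1 : Continuous fun p : ℝ × (Fin r → UnitAddCircle) => chr k p.2 :=
    (ft_cont k).comp continuous_snd
  fun_prop

private lemma ftE_meas {r : ℕ} (s0 : Finset (Fin r → ℤ)) (b : (Fin r → ℤ) → ℂ)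
    (om : (Fin r → ℤ) → ℝ) (y : ℝ) :
    MeasurableSet {p : ℝ × (Fin r → UnitAddCircle) | y < ‖ftu s0 b om p.1 p.2‖} :=
  (isOpen_lt continuous_const (ftu_cont s0 b om).norm).measurableSet

/-- the measure of the section at time `t` of the level set -/
noncomputable def secV {r : ℕ} (s0 : Finset (Fin r → ℤ)) (b : (Fin r → ℤ) → ℂ) (om : (Fin r → ℤ) → ℝ)
    (y t : ℝ) : ℝ :=
  (volume : Measure (Fin r → UnitAddCircle)).real
    {x | y < ‖∑ k ∈ s0, b k * cexp (-((t * om k : ℝ) : ℂ) * I) * chr k x‖}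

theorem secV_measurable {r : ℕ} (s0 : Finset (Fin r → ℤ)) (b : (Fin r → ℤ) → ℂ)
    (om : (Fin r → ℤ) → ℝ) (y : ℝ) : Measurable (secV s0 b om y) := by
  have h := measurable_measure_prodMk_left (ν := (volume : Measure (Fin r → UnitAddCircle)))
    (ftE_meas s0 b om y)
  exact h.ennreal_toReal

private lemma secV_nonneg {r : ℕ} (s0 : Finset (Fin r → ℤ)) (b : (Fin r → ℤ) → ℂ)
    (om : (Fin r → ℤ) → ℝ) (y t : ℝ) : 0 ≤ secV s0 b om y t := measureReal_nonneg

private lemma secV_le {r : ℕ} (s0 : Finset (Fin r → ℤ)) (b : (Fin r → ℤ) → ℂ)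
    (om : (Fin r → ℤ) → ℝ) (y t : ℝ) : secV s0 b om y t ≤ 1 := measureReal_le_one

/-- the normalised function on the level set -/
private noncomputable def fth {r : ℕ} (s0 : Finset (Fin r → ℤ)) (b : (Fin r → ℤ) → ℂ)
    (om : (Fin r → ℤ) → ℝ) (y t : ℝ) (x : Fin r → UnitAddCircle) : ℂ :=
  {p : ℝ × (Fin r → UnitAddCircle) | y < ‖ftu s0 b om p.1 p.2‖}.indicator
    (fun p => ftu s0 b om p.1 p.2 / (‖ftu s0 b om p.1 p.2‖ : ℂ)) (t, x)

private lemma fth_meas {r : ℕ} (s0 : Finset (Fin r → ℤ)) (b : (Fin r → ℤ) → ℂ)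
    (om : (Fin r → ℤ) → ℝ) (y : ℝ) :
    Measurable (Function.uncurry (fth s0 b om y)) := by
  have h := (ftu_cont s0 b om).measurable
  have h2 : Measurable fun p : ℝ × (Fin r → UnitAddCircle) =>
      ftu s0 b om p.1 p.2 / (‖ftu s0 b om p.1 p.2‖ : ℂ) :=
    h.div (Complex.continuous_ofReal.measurable.comp h.norm)
  exact h2.indicator (ftE_meas s0 b om y)

private lemma fth_norm {r : ℕ} (s0 : Finset (Fin r → ℤ)) (b : (Fin r → ℤ) → ℂ)
    (om : (Fin r → ℤ) → ℝ) (y : ℝ) (hy : 0 < y) (t : ℝ) (x : Fin r → UnitAddCircle) :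
    ‖fth s0 b om y t x‖ = {x | y < ‖ftu s0 b om t x‖}.indicator (fun _ => (1 : ℝ)) x := by
  classical
  unfold fth
  by_cases h : y < ‖ftu s0 b om t x‖
  · rw [Set.indicator_of_mem (by exact h), Set.indicator_of_mem (by exact h)]
    rw [norm_div, Complex.norm_real, norm_norm, div_self]
    linarith
  · rw [Set.indicator_of_notMem (by exact h), Set.indicator_of_notMem (by exact h), norm_zero]

private lemma fth_norm_le {r : ℕ} (s0 : Finset (Fin r → ℤ)) (b : (Fin r → ℤ) → ℂ)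
    (om : (Fin r → ℤ) → ℝ) (y : ℝ) (hy : 0 < y) (t : ℝ) (x : Fin r → UnitAddCircle) :
    ‖fth s0 b om y t x‖ ≤ 1 := by
  rw [fth_norm s0 b om y hy]
  exact Set.indicator_le_self' (fun _ _ => zero_le_one) x

private lemma ftsec_meas {r : ℕ} (s0 : Finset (Fin r → ℤ)) (b : (Fin r → ℤ) → ℂ)
    (om : (Fin r → ℤ) → ℝ) (y t : ℝ) :
    MeasurableSet {x : Fin r → UnitAddCircle | y < ‖ftu s0 b om t x‖} :=
  (isOpen_lt continuous_const
    ((ftu_cont s0 b om).uncurry_left t).norm).measurableSet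

private lemma fth_int_norm {r : ℕ} (s0 : Finset (Fin r → ℤ)) (b : (Fin r → ℤ) → ℂ)
    (om : (Fin r → ℤ) → ℝ) (y : ℝ) (hy : 0 < y) (t : ℝ) :
    ∫ x, ‖fth s0 b om y t x‖ = secV s0 b om y t := by
  simp only [fth_norm s0 b om y hy]
  rw [integral_indicator (ftsec_meas s0 b om y t), setIntegral_const, smul_eq_mul, mul_one]
  rfl

private lemma fth_int_sq {r : ℕ} (s0 : Finset (Fin r → ℤ)) (b : (Fin r → ℤ) → ℂ)
    (om : (Fin r → ℤ) → ℝ) (y : ℝ) (hy : 0 < y) (t : ℝ) :
    ∫ x, ‖fth s0 b om y t x‖ ^ 2 = secV s0 b om y t := by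
  have h : ∀ x, ‖fth s0 b om y t x‖ ^ 2 = ‖fth s0 b om y t x‖ := by
    intro x
    classical
    rw [fth_norm s0 b om y hy, Set.indicator_apply]
    split_ifs <;> norm_num
  simp only [h]
  exact fth_int_norm s0 b om y hy t

/-- the Fourier coefficients -/
private noncomputable def fthat {r : ℕ} (s0 : Finset (Fin r → ℤ)) (b : (Fin r → ℤ) → ℂ)
    (om : (Fin r → ℤ) → ℝ) (y t : ℝ) (k : Fin r → ℤ) : ℂ :=
  ∫ x, fth s0 b om y t x * conj (chr k x)

private lemma fthat_meas {r : ℕ} (s0 : Finset (Fin r → ℤ)) (b : (Fin r → ℤ) → ℂ)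
    (om : (Fin r → ℤ) → ℝ) (y : ℝ) (k : Fin r → ℤ) :
    StronglyMeasurable fun t => fthat s0 b om y t k := by
  unfold fthat
  refine StronglyMeasurable.integral_prod_right (f := fun t x => fth s0 b om y t x * conj (chr k x)) ?_
  apply Measurable.stronglyMeasurable
  refine (fth_meas s0 b om y).mul ?_
  exact (Complex.continuous_conj.comp ((ft_cont k).comp continuous_snd)).measurable

private lemma fthm_sec {r : ℕ} (s0 : Finset (Fin r → ℤ)) (b : (Fin r → ℤ) → ℂ)
    (om : (Fin r → ℤ) → ℝ) (y t : ℝ) : Measurable (fth s0 b om y t) :=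
  (fth_meas s0 b om y).of_uncurry_left

private lemma fthat_bessel {r : ℕ} (s0 : Finset (Fin r → ℤ)) (b : (Fin r → ℤ) → ℂ)
    (om : (Fin r → ℤ) → ℝ) (y : ℝ) (hy : 0 < y) (t : ℝ) (S : Finset (Fin r → ℤ)) :
    ∑ k ∈ S, ‖fthat s0 b om y t k‖ ^ 2 ≤ secV s0 b om y t := by
  refine (ft_bessel _ (fthm_sec s0 b om y t) (fth_norm_le s0 b om y hy t) S).trans ?_
  rw [fth_int_sq s0 b om y hy]

private lemma fthat_norm {r : ℕ} (s0 : Finset (Fin r → ℤ)) (b : (Fin r → ℤ) → ℂ)
    (om : (Fin r → ℤ) → ℝ) (y : ℝ) (hy : 0 < y) (t : ℝ) (k : Fin r → ℤ) :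
    ‖fthat s0 b om y t k‖ ≤ 1 := by
  have h := fthat_bessel s0 b om y hy t {k}
  rw [Finset.sum_singleton] at h
  have h2 := secV_le s0 b om y t
  nlinarith [norm_nonneg (fthat s0 b om y t k)]

/-- the lower bound -/
private lemma ft_lower {r : ℕ} (s0 : Finset (Fin r → ℤ)) (b : (Fin r → ℤ) → ℂ)
    (om : (Fin r → ℤ) → ℝ) (y : ℝ) (hy : 0 < y) (t : ℝ) :
    y * secV s0 b om y t ≤
      (∑ k ∈ s0, b k * conj (cexp (((t * om k : ℝ) : ℂ) * I) * fthat s0 b om y t k)).re := by
  have hcont : Continuous (ftu s0 b om t) := (ftu_cont s0 b om).uncurry_left t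
  have hub : ∃ B : ℝ, ∀ x, ‖ftu s0 b om t x‖ ≤ B := by
    refine ⟨∑ k ∈ s0, ‖b k‖, fun x => ?_⟩
    unfold ftu
    refine (norm_sum_le _ _).trans (Finset.sum_le_sum fun k _ => ?_)
    rw [norm_mul, norm_mul, ft_norm, mul_one]
    have : ‖cexp (-((t * om k : ℝ) : ℂ) * I)‖ = 1 := by
      rw [show (-((t * om k : ℝ) : ℂ) * I) = ((-(t * om k) : ℝ) : ℂ) * I by push_cast; ring]
      exact Complex.norm_exp_ofReal_mul_I _
    rw [this, mul_one]
  obtain ⟨B, hB⟩ := hub
  have hhm := fthm_sec s0 b om y t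
  have hhc : Measurable fun x => conj (fth s0 b om y t x) :=
    Complex.continuous_conj.measurable.comp hhm
  have hmain : ∫ x, ftu s0 b om t x * conj (fth s0 b om y t x) =
      ∑ k ∈ s0, b k * conj (cexp (((t * om k : ℝ) : ℂ) * I) * fthat s0 b om y t k) := by
    have h1 : ∀ x, ftu s0 b om t x * conj (fth s0 b om y t x) =
        ∑ k ∈ s0, (b k * cexp (-((t * om k : ℝ) : ℂ) * I)) *
          conj (fth s0 b om y t x * conj (chr k x)) := by
      intro x
      unfold ftu
      rw [Finset.sum_mul]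
      refine Finset.sum_congr rfl fun k _ => ?_
      rw [map_mul, Complex.conj_conj]
      ring
    simp only [h1]
    rw [integral_finsetSum]
    · refine Finset.sum_congr rfl fun k _ => ?_
      rw [integral_const_mul, integral_conj, map_mul, ← Complex.exp_conj]
      simp only [map_mul, Complex.conj_ofReal, Complex.conj_I]
      change _ * conj (fthat s0 b om y t k) = _
      rw [show (-((t * om k : ℝ) : ℂ) * I) = ((t * om k : ℝ) : ℂ) * -I by ring]
      ring
    · intro k _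
      refine Integrable.const_mul ?_ _
      refine ft_int_of_bdd _ ?_ 1 fun x => ?_
      · exact Complex.continuous_conj.measurable.comp (hhm.mul
          (Complex.continuous_conj.comp (ft_cont k)).measurable)
      · rw [Complex.norm_conj, norm_mul, Complex.norm_conj, ft_norm, mul_one]
        exact fth_norm_le s0 b om y hy t x
  rw [← hmain]
  have hptw : ∀ x, ftu s0 b om t x * conj (fth s0 b om y t x) =
      ((‖ftu s0 b om t x‖ * ‖fth s0 b om y t x‖ : ℝ) : ℂ) := by
    intro x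
    by_cases h : y < ‖ftu s0 b om t x‖
    · have h0 : ‖ftu s0 b om t x‖ ≠ 0 := by linarith
      have h1 : fth s0 b om y t x = ftu s0 b om t x / (‖ftu s0 b om t x‖ : ℂ) := by
        unfold fth
        rw [Set.indicator_of_mem (by exact h)]
      rw [fth_norm s0 b om y hy, Set.indicator_of_mem (by exact h), mul_one, h1, map_div₀,
        Complex.conj_ofReal, mul_div_assoc', Complex.mul_conj']
      have h2 : ((‖ftu s0 b om t x‖ : ℝ) : ℂ) ≠ 0 := by exact_mod_cast h0
      field_simp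
    · have h1 : fth s0 b om y t x = 0 := by
        unfold fth
        rw [Set.indicator_of_notMem (by exact h)]
      rw [h1]
      simp
  simp only [hptw]
  rw [integral_complex_ofReal, Complex.ofReal_re, ← fth_int_norm s0 b om y hy, ← integral_const_mul]
  refine integral_mono ?_ ?_ fun x => ?_
  · exact (Integrable.of_bound hhm.norm.aestronglyMeasurable 1 (Filter.Eventually.of_forall fun x => by
      rw [norm_norm]; exact fth_norm_le s0 b om y hy t x)).const_mul _
  · refine Integrable.of_bound (hcont.measurable.norm.mul hhm.norm).aestronglyMeasurable B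
      (Filter.Eventually.of_forall fun x => ?_)
    rw [norm_mul, norm_norm, norm_norm]
    have h1 := fth_norm_le s0 b om y hy t x
    have h2 := hB x
    nlinarith [norm_nonneg (ftu s0 b om t x), norm_nonneg (fth s0 b om y t x)]
  · simp only
    by_cases h : y < ‖ftu s0 b om t x‖
    · exact mul_le_mul_of_nonneg_right h.le (norm_nonneg _)
    · have h1 : fth s0 b om y t x = 0 := by
        unfold fth
        rw [Set.indicator_of_notMem (by exact h)]
      rw [h1]
      simp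

/-- the kernel is a product -/
private lemma ft_kernel {r : ℕ} (a : Fin r → ℝ) (s : Finset ℤ) (w : ℤ → ℝ) (t : ℝ)
    (z : Fin r → UnitAddCircle) :
    ∑ k ∈ Fintype.piFinset (fun _ : Fin r => s), (((∏ j, w (k j)) : ℝ) : ℂ) *
      cexp (-((t * (∑ j, a j * (k j : ℝ) ^ 2) : ℝ) : ℂ) * I) * chr k z =
    ∏ j, ∑ m ∈ s, (w m : ℂ) * cexp (-((t * (a j * (m : ℝ) ^ 2) : ℝ) : ℂ) * I) * fourier m (z j) := by
  rw [Finset.prod_univ_sum]
  refine Finset.sum_congr rfl fun k _ => ?_
  unfold chr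
  rw [Finset.prod_mul_distrib, Finset.prod_mul_distrib]
  congr 1
  rw [← Complex.exp_sum]
  push_cast
  congr 2
  rw [← Finset.sum_mul, Finset.sum_neg_distrib, Finset.mul_sum]


/-- the rotated coefficient -/
private noncomputable def ftf {r : ℕ} (s0 : Finset (Fin r → ℤ)) (b : (Fin r → ℤ) → ℂ)
    (om : (Fin r → ℤ) → ℝ) (y : ℝ) (k : Fin r → ℤ) (t : ℝ) : ℂ :=
  cexp (((t * om k : ℝ) : ℂ) * I) * fthat s0 b om y t k

private lemma ft_e1 (x : ℝ) : ‖cexp ((x : ℂ) * I)‖ = 1 := Complex.norm_exp_ofReal_mul_I _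

private lemma ftf_norm_eq {r : ℕ} (s0 : Finset (Fin r → ℤ)) (b : (Fin r → ℤ) → ℂ)
    (om : (Fin r → ℤ) → ℝ) (y : ℝ) (k : Fin r → ℤ) (t : ℝ) :
    ‖ftf s0 b om y k t‖ = ‖fthat s0 b om y t k‖ := by
  unfold ftf
  rw [norm_mul, ft_e1, one_mul]

private lemma ftf_meas {r : ℕ} (s0 : Finset (Fin r → ℤ)) (b : (Fin r → ℤ) → ℂ)
    (om : (Fin r → ℤ) → ℝ) (y : ℝ) (k : Fin r → ℤ) : Measurable (ftf s0 b om y k) := by
  unfold ftf
  refine Measurable.mul ?_ (fthat_meas s0 b om y k).measurable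
  have : Continuous fun t : ℝ => cexp (((t * om k : ℝ) : ℂ) * I) := by fun_prop
  exact this.measurable

/-- the quadratic form -/
private noncomputable def ftG {r : ℕ} (s0 : Finset (Fin r → ℤ)) (b : (Fin r → ℤ) → ℂ)
    (om : (Fin r → ℤ) → ℝ) (y : ℝ) (s : Finset ℤ) (w : ℤ → ℝ) (t t' : ℝ) : ℂ :=
  ∑ k ∈ Fintype.piFinset (fun _ : Fin r => s), (((∏ j, w (k j)) : ℝ) : ℂ) *
    (ftf s0 b om y k t * conj (ftf s0 b om y k t'))

private lemma ftG_one {r : ℕ} (a : Fin r → ℝ) (s : Finset ℤ) (w : ℤ → ℝ) (P : Fin r → ℝ → ℝ)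
    (hP : ∀ j t (x : UnitAddCircle), ‖∑ k ∈ s, (w k : ℂ) *
      cexp (-((t * (a j * (k : ℝ) ^ 2) : ℝ) : ℂ) * I) * fourier k x‖ ≤ P j t)
    (s0 : Finset (Fin r → ℤ)) (b : (Fin r → ℤ) → ℂ) (y : ℝ) (hy : 0 < y) (t t' : ℝ) :
    ‖ftG s0 b (fun k => ∑ j, a j * (k j : ℝ) ^ 2) y s w t t'‖ ≤
      (∏ j, P j (t - t')) * (secV s0 b (fun k => ∑ j, a j * (k j : ℝ) ^ 2) y t *
        secV s0 b (fun k => ∑ j, a j * (k j : ℝ) ^ 2) y t') := by
  set om : (Fin r → ℤ) → ℝ := fun k => ∑ j, a j * (k j : ℝ) ^ 2 with hom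
  set h := fth s0 b om y with hh
  have hhm : ∀ t, Measurable (h t) := fun t => fthm_sec s0 b om y t
  have hh1 : ∀ t x, ‖h t x‖ ≤ 1 := fun t x => fth_norm_le s0 b om y hy t x
  set K : (Fin r → UnitAddCircle) → ℂ := fun z =>
    ∑ k ∈ Fintype.piFinset (fun _ : Fin r => s), (((∏ j, w (k j)) : ℝ) : ℂ) *
      cexp (-(((t - t') * om k : ℝ) : ℂ) * I) * chr k z with hK
  have hKn : ∀ z, ‖K z‖ ≤ ∏ j, P j (t - t') := by
    intro z
    rw [hK]
    simp only [hom]
    rw [ft_kernel a s w (t - t') z, norm_prod]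
    exact Finset.prod_le_prod (fun j _ => norm_nonneg _) fun j _ => hP j _ _
  have hP0 : 0 ≤ ∏ j, P j (t - t') := (norm_nonneg _).trans (hKn 0)
  have hrepr : ftG s0 b om y s w t t' =
      ∫ x, ∫ x', h t x * conj (h t' x') * conj (K (x - x')) := by
    have hconjm : ∀ k : Fin r → ℤ, Measurable fun x => conj (chr k x) := fun k =>
      (Complex.continuous_conj.comp (ft_cont k)).measurable
    have hc' : Measurable fun x => conj (h t' x) := Complex.continuous_conj.measurable.comp (hhm t')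
    have j1 : ∀ k : Fin r → ℤ, Integrable fun x => h t x * conj (chr k x) := fun k =>
      ft_int_of_bdd _ ((hhm t).mul (hconjm k)) 1 fun x => by
        rw [norm_mul, Complex.norm_conj, ft_norm, mul_one]; exact hh1 t x
    have j2 : ∀ k : Fin r → ℤ, Integrable fun x => conj (h t' x) * chr k x := fun k =>
      ft_int_of_bdd _ (hc'.mul (ft_cont k).measurable) 1 fun x => by
        rw [norm_mul, Complex.norm_conj, ft_norm, mul_one]; exact hh1 t' x
    have hptw : ∀ x x', h t x * conj (h t' x') * conj (K (x - x')) =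
        ∑ k ∈ Fintype.piFinset (fun _ : Fin r => s), ((((∏ j, w (k j)) : ℝ) : ℂ) *
          cexp ((((t - t') * om k : ℝ) : ℂ) * I) * (h t x * conj (chr k x))) *
            (conj (h t' x') * chr k x') := by
      intro x x'
      rw [hK]
      simp only [map_sum, map_mul, Complex.conj_ofReal, Finset.mul_sum]
      refine Finset.sum_congr rfl fun k _ => ?_
      rw [ft_sub, ← Complex.exp_conj]
      simp only [map_mul, map_neg, Complex.conj_ofReal, Complex.conj_I, Complex.conj_conj]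
      rw [show (-(((t - t') * om k : ℝ) : ℂ) * -I) = ((((t - t') * om k : ℝ) : ℂ) * I) by ring]
      ring
    simp only [hptw]
    have h1 : ∀ x, ∫ x', ∑ k ∈ Fintype.piFinset (fun _ : Fin r => s), ((((∏ j, w (k j)) : ℝ) : ℂ) *
          cexp ((((t - t') * om k : ℝ) : ℂ) * I) * (h t x * conj (chr k x))) *
            (conj (h t' x') * chr k x') =
        ∑ k ∈ Fintype.piFinset (fun _ : Fin r => s), ((((∏ j, w (k j)) : ℝ) : ℂ) *
          cexp ((((t - t') * om k : ℝ) : ℂ) * I) * (∫ x', conj (h t' x') * chr k x')) *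
            (h t x * conj (chr k x)) := by
      intro x
      rw [integral_finsetSum _ fun k _ => (j2 k).const_mul _]
      refine Finset.sum_congr rfl fun k _ => ?_
      rw [integral_const_mul]
      ring
    simp only [h1]
    rw [integral_finsetSum _ fun k _ => (j1 k).const_mul _]
    unfold ftG
    refine Finset.sum_congr rfl fun k _ => ?_
    rw [integral_const_mul]
    have h2 : ∫ x', conj (h t' x') * chr k x' = conj (fthat s0 b om y t' k) := by
      unfold fthat
      rw [← integral_conj]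
      refine integral_congr_ae (Filter.Eventually.of_forall fun x => ?_)
      simp only [map_mul, Complex.conj_conj]
      rfl
    rw [h2]
    change _ = _ * fthat s0 b om y t k
    unfold ftf
    rw [map_mul, ← Complex.exp_conj]
    simp only [map_mul, Complex.conj_ofReal, Complex.conj_I]
    have h3 : cexp ((((t - t') * om k : ℝ) : ℂ) * I) =
        cexp (((t * om k : ℝ) : ℂ) * I) * cexp (((t' * om k : ℝ) : ℂ) * -I) := by
      rw [← Complex.exp_add]
      congr 1
      push_cast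
      ring
    rw [h3]
    ring
  rw [hrepr]
  set Pr : ℝ := ∏ j, P j (t - t') with hPr
  have k1 : ∀ x, ‖∫ x', h t x * conj (h t' x') * conj (K (x - x'))‖ ≤
      Pr * secV s0 b om y t' * ‖h t x‖ := by
    intro x
    have hi : Integrable fun x' => (Pr * ‖h t x‖) * ‖h t' x'‖ :=
      (Integrable.of_bound (hhm t').norm.aestronglyMeasurable 1
        (Filter.Eventually.of_forall fun x' => by rw [norm_norm]; exact hh1 t' x')).const_mul _
    calc ‖∫ x', h t x * conj (h t' x') * conj (K (x - x'))‖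
        ≤ ∫ x', (Pr * ‖h t x‖) * ‖h t' x'‖ := by
          refine norm_integral_le_of_norm_le hi (Filter.Eventually.of_forall fun x' => ?_)
          rw [norm_mul, norm_mul, Complex.norm_conj, Complex.norm_conj]
          have h1 := hKn (x - x')
          calc ‖h t x‖ * ‖h t' x'‖ * ‖K (x - x')‖ ≤ ‖h t x‖ * ‖h t' x'‖ * Pr := by gcongr
            _ = _ := by ring
      _ = _ := by
          rw [integral_const_mul, hh, fth_int_norm s0 b om y hy]
          ring
  have hi2 : Integrable fun x => Pr * secV s0 b om y t' * ‖h t x‖ :=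
    (Integrable.of_bound (hhm t).norm.aestronglyMeasurable 1
      (Filter.Eventually.of_forall fun x' => by rw [norm_norm]; exact hh1 t x')).const_mul _
  calc ‖∫ x, ∫ x', h t x * conj (h t' x') * conj (K (x - x'))‖
      ≤ ∫ x, Pr * secV s0 b om y t' * ‖h t x‖ :=
        norm_integral_le_of_norm_le hi2 (Filter.Eventually.of_forall k1)
    _ = _ := by
        rw [integral_const_mul, hh, fth_int_norm s0 b om y hy]
        ring

private lemma ftG_two {r : ℕ} (om : (Fin r → ℤ) → ℝ) (C1 : ℝ) (hC1 : 1 ≤ C1) (s : Finset ℤ)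
    (w : ℤ → ℝ) (hw : ∀ k, 0 ≤ w k ∧ w k ≤ C1)
    (s0 : Finset (Fin r → ℤ)) (b : (Fin r → ℤ) → ℂ) (y : ℝ) (hy : 0 < y) (t t' : ℝ) :
    ‖ftG s0 b om y s w t t'‖ ≤ C1 ^ r * (secV s0 b om y t * secV s0 b om y t') ^ (1 / 2 : ℝ) := by
  set S := Fintype.piFinset (fun _ : Fin r => s) with hS
  have h1 : ‖ftG s0 b om y s w t t'‖ ≤
      C1 ^ r * ∑ k ∈ S, ‖fthat s0 b om y t k‖ * ‖fthat s0 b om y t' k‖ := by
    unfold ftG
    rw [Finset.mul_sum]
    refine (norm_sum_le _ _).trans (Finset.sum_le_sum fun k _ => ?_)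
    rw [norm_mul, norm_mul, Complex.norm_conj, ftf_norm_eq, ftf_norm_eq, Complex.norm_real,
      Real.norm_eq_abs, abs_of_nonneg (Finset.prod_nonneg fun j _ => (hw _).1)]
    refine mul_le_mul_of_nonneg_right ?_ (by positivity)
    calc ∏ j, w (k j) ≤ ∏ _j : Fin r, C1 :=
          Finset.prod_le_prod (fun j _ => (hw _).1) fun j _ => (hw _).2
      _ = C1 ^ r := by simp
  refine h1.trans (mul_le_mul_of_nonneg_left ?_ (by positivity))
  have h2 : (∑ k ∈ S, ‖fthat s0 b om y t k‖ * ‖fthat s0 b om y t' k‖) ^ 2 ≤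
      secV s0 b om y t * secV s0 b om y t' := by
    calc (∑ k ∈ S, ‖fthat s0 b om y t k‖ * ‖fthat s0 b om y t' k‖) ^ 2
        ≤ (∑ k ∈ S, ‖fthat s0 b om y t k‖ ^ 2) * ∑ k ∈ S, ‖fthat s0 b om y t' k‖ ^ 2 :=
          Finset.sum_mul_sq_le_sq_mul_sq _ _ _
      _ ≤ _ := mul_le_mul (fthat_bessel s0 b om y hy t S) (fthat_bessel s0 b om y hy t' S)
          (Finset.sum_nonneg fun k _ => by positivity) (secV_nonneg s0 b om y t)
  have h3 : 0 ≤ ∑ k ∈ S, ‖fthat s0 b om y t k‖ * ‖fthat s0 b om y t' k‖ :=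
    Finset.sum_nonneg fun k _ => by positivity
  rw [← Real.sqrt_eq_rpow]
  exact Real.le_sqrt_of_sq_le h2

theorem duality {r : ℕ} (a : Fin r → ℝ) (N : ℕ) (C1 : ℝ) (hC1 : 1 ≤ C1) (s : Finset ℤ) (w : ℤ → ℝ)
    (hs : ∀ k : ℤ, |(k : ℝ)| ≤ N → k ∈ s) (hw : ∀ k, 0 ≤ w k ∧ w k ≤ C1)
    (hw1 : ∀ k : ℤ, |(k : ℝ)| ≤ N → 1 ≤ w k) (P : Fin r → ℝ → ℝ) (hPm : ∀ j, Measurable (P j))
    (hP : ∀ j t (x : UnitAddCircle), ‖∑ k ∈ s, (w k : ℂ) *
      cexp (-((t * (a j * (k : ℝ) ^ 2) : ℝ) : ℂ) * I) * fourier k x‖ ≤ P j t)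
    (hPb : ∃ B : ℝ, ∀ j t, P j t ≤ B)
    (T0 : ℝ) (hT0 : 0 < T0) (s0 : Finset (Fin r → ℤ)) (hs0 : ∀ k ∈ s0, ∀ j, |(k j : ℝ)| ≤ N)
    (b : (Fin r → ℤ) → ℂ) (y : ℝ) (hy : 0 < y) :
    y ^ 2 * (∫ t in Set.Icc (0 : ℝ) T0, secV s0 b (fun k => ∑ j, a j * (k j : ℝ) ^ 2) y t) ^ 2 ≤
      (∑ k ∈ s0, ‖b k‖ ^ 2) * ∫ t in Set.Icc (0 : ℝ) T0, ∫ t' in Set.Icc (0 : ℝ) T0,
        min ((∏ j, P j (t - t')) *
            (secV s0 b (fun k => ∑ j, a j * (k j : ℝ) ^ 2) y t *
              secV s0 b (fun k => ∑ j, a j * (k j : ℝ) ^ 2) y t'))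
          (C1 ^ r * (secV s0 b (fun k => ∑ j, a j * (k j : ℝ) ^ 2) y t *
              secV s0 b (fun k => ∑ j, a j * (k j : ℝ) ^ 2) y t') ^ (1 / 2 : ℝ)) := by
  set om : (Fin r → ℤ) → ℝ := fun k => ∑ j, a j * (k j : ℝ) ^ 2 with hom
  set ν : Measure ℝ := volume.restrict (Set.Icc (0 : ℝ) T0) with hν
  have hfin : IsFiniteMeasure ν := by
    constructor
    rw [hν, Measure.restrict_apply_univ]
    simp
  set μ : ℝ → ℝ := secV s0 b om y with hμ
  have hμm : Measurable μ := secV_measurable s0 b om y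
  have hμ0 : ∀ t, 0 ≤ μ t := secV_nonneg s0 b om y
  have hμ1 : ∀ t, μ t ≤ 1 := secV_le s0 b om y
  set M : ℝ → ℝ → ℝ := fun t t' => min ((∏ j, P j (t - t')) * (μ t * μ t'))
    (C1 ^ r * (μ t * μ t') ^ (1 / 2 : ℝ)) with hM
  have hMm : Measurable (Function.uncurry M) := by
    have a1 : Measurable fun p : ℝ × ℝ => μ p.1 * μ p.2 :=
      (hμm.comp measurable_fst).mul (hμm.comp measurable_snd)
    have a2 : Measurable fun p : ℝ × ℝ => ∏ j, P j (p.1 - p.2) :=
      Finset.measurable_prod _ fun j _ => (hPm j).comp (measurable_fst.sub measurable_snd)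
    exact (a2.mul a1).min ((a1.pow_const _).const_mul _)
  have hP0 : ∀ j t, 0 ≤ P j t := fun j t => (norm_nonneg _).trans (hP j t 0)
  have hM0 : ∀ t t', 0 ≤ M t t' := by
    intro t t'
    refine le_min ?_ ?_
    · exact mul_nonneg (Finset.prod_nonneg fun j _ => hP0 _ _) (mul_nonneg (hμ0 _) (hμ0 _))
    · have := mul_nonneg (hμ0 t) (hμ0 t')
      positivity
  have hMB : ∀ t t', M t t' ≤ C1 ^ r := by
    intro t t'
    refine (min_le_right _ _).trans ?_
    have h1 : μ t * μ t' ≤ 1 := by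
      have := mul_le_mul (hμ1 t) (hμ1 t') (hμ0 t') zero_le_one
      linarith
    have h2 : (μ t * μ t') ^ (1 / 2 : ℝ) ≤ 1 :=
      Real.rpow_le_one (mul_nonneg (hμ0 t) (hμ0 t')) h1 (by norm_num)
    have h3 : 0 < C1 ^ r := by positivity
    nlinarith
  have hMi : ∀ t, Integrable (M t) ν := fun t =>
    Integrable.of_bound hMm.of_uncurry_left.aestronglyMeasurable (C1 ^ r)
      (Filter.Eventually.of_forall fun t' => by
        rw [Real.norm_eq_abs, abs_of_nonneg (hM0 _ _)]; exact hMB _ _)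
  have hMi2 : Integrable (fun t => ∫ t', M t t' ∂ν) ν := by
    refine Integrable.of_bound
      (hMm.stronglyMeasurable.integral_prod_right (ν := ν)).aestronglyMeasurable
      (C1 ^ r * ν.real Set.univ) (Filter.Eventually.of_forall fun t => ?_)
    refine norm_integral_le_of_norm_le_const (Filter.Eventually.of_forall fun t' => ?_)
    rw [Real.norm_eq_abs, abs_of_nonneg (hM0 _ _)]
    exact hMB _ _
  -- the coefficients
  set f : (Fin r → ℤ) → ℝ → ℂ := ftf s0 b om y with hf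
  have hfi : ∀ k, Integrable (f k) ν := fun k =>
    Integrable.of_bound (ftf_meas s0 b om y k).aestronglyMeasurable 1
      (Filter.Eventually.of_forall fun t => by
        rw [hf, ftf_norm_eq]; exact fthat_norm s0 b om y hy t k)
  have hfci : ∀ k, Integrable (fun t => conj (f k t)) ν := fun k =>
    Integrable.of_bound
      (Complex.continuous_conj.measurable.comp (ftf_meas s0 b om y k)).aestronglyMeasurable 1
      (Filter.Eventually.of_forall fun t => by
        rw [Complex.norm_conj, hf, ftf_norm_eq]; exact fthat_norm s0 b om y hy t k)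
  set H : (Fin r → ℤ) → ℂ := fun k => ∫ t, f k t ∂ν with hH
  -- step 1
  have s1 : y * ∫ t, μ t ∂ν ≤ ‖∑ k ∈ s0, b k * conj (H k)‖ := by
    have e1 : ∫ t, (∑ k ∈ s0, b k * conj (f k t)) ∂ν = ∑ k ∈ s0, b k * conj (H k) := by
      rw [integral_finsetSum _ fun k _ => (hfci k).const_mul _]
      refine Finset.sum_congr rfl fun k _ => ?_
      rw [integral_const_mul, integral_conj]
    have hsi : Integrable (fun t => ∑ k ∈ s0, b k * conj (f k t)) ν :=
      integrable_finsetSum _ fun k _ => (hfci k).const_mul _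
    rw [← e1]
    calc y * ∫ t, μ t ∂ν = ∫ t, y * μ t ∂ν := (integral_const_mul _ _).symm
      _ ≤ ∫ t, (∑ k ∈ s0, b k * conj (f k t)).re ∂ν := by
          refine integral_mono ?_ ?_ fun t => ?_
          · exact (Integrable.of_bound hμm.aestronglyMeasurable 1
              (Filter.Eventually.of_forall fun t => by
                rw [Real.norm_eq_abs, abs_of_nonneg (hμ0 t)]; exact hμ1 t)).const_mul _
          · exact hsi.re
          · exact ft_lower s0 b om y hy t
      _ = (∫ t, (∑ k ∈ s0, b k * conj (f k t)) ∂ν).re := by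
          have := integral_re (𝕜 := ℂ) hsi
          exact this
      _ ≤ ‖∫ t, (∑ k ∈ s0, b k * conj (f k t)) ∂ν‖ := Complex.re_le_norm _
  have s1' : 0 ≤ y * ∫ t, μ t ∂ν := mul_nonneg hy.le (integral_nonneg hμ0)
  -- step 2
  have s2 : ‖∑ k ∈ s0, b k * conj (H k)‖ ^ 2 ≤ (∑ k ∈ s0, ‖b k‖ ^ 2) * ∑ k ∈ s0, ‖H k‖ ^ 2 := by
    have e1 : ‖∑ k ∈ s0, b k * conj (H k)‖ ≤ ∑ k ∈ s0, ‖b k‖ * ‖H k‖ := by
      refine (norm_sum_le _ _).trans (le_of_eq (Finset.sum_congr rfl fun k _ => ?_))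
      rw [norm_mul, Complex.norm_conj]
    calc ‖∑ k ∈ s0, b k * conj (H k)‖ ^ 2 ≤ (∑ k ∈ s0, ‖b k‖ * ‖H k‖) ^ 2 := by gcongr
      _ ≤ _ := Finset.sum_mul_sq_le_sq_mul_sq _ _ _
  -- step 3
  set S := Fintype.piFinset (fun _ : Fin r => s) with hS
  have s3 : ∑ k ∈ s0, ‖H k‖ ^ 2 ≤ ∑ k ∈ S, (∏ j, w (k j)) * ‖H k‖ ^ 2 := by
    have hsub : s0 ⊆ S := by
      intro k hk
      rw [hS, Fintype.mem_piFinset]
      exact fun j => hs _ (hs0 k hk j)
    calc ∑ k ∈ s0, ‖H k‖ ^ 2 ≤ ∑ k ∈ s0, (∏ j, w (k j)) * ‖H k‖ ^ 2 := by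
          refine Finset.sum_le_sum fun k hk => ?_
          have h1 : 1 ≤ ∏ j, w (k j) := by
            calc (1 : ℝ) = ∏ _j : Fin r, (1 : ℝ) := by simp
              _ ≤ ∏ j, w (k j) := Finset.prod_le_prod (fun _ _ => zero_le_one)
                  fun j _ => hw1 _ (hs0 k hk j)
          nlinarith [sq_nonneg ‖H k‖]
      _ ≤ _ := Finset.sum_le_sum_of_subset_of_nonneg hsub fun k _ _ =>
          mul_nonneg (Finset.prod_nonneg fun j _ => (hw _).1) (by positivity)
  -- step 4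
  have s4 : ((∑ k ∈ S, (∏ j, w (k j)) * ‖H k‖ ^ 2 : ℝ) : ℂ) =
      ∫ t, ∫ t', ftG s0 b om y s w t t' ∂ν ∂ν := by
    have e1 : ∀ t, ∫ t', ftG s0 b om y s w t t' ∂ν =
        ∑ k ∈ S, ((((∏ j, w (k j)) : ℝ) : ℂ) * conj (H k)) * f k t := by
      intro t
      unfold ftG
      rw [integral_finsetSum _ fun k _ => ((hfci k).const_mul _).const_mul _]
      refine Finset.sum_congr rfl fun k _ => ?_
      rw [integral_const_mul, integral_const_mul, integral_conj]
      ring
    simp only [e1]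
    rw [integral_finsetSum _ fun k _ => (hfi k).const_mul _]
    push_cast
    refine Finset.sum_congr rfl fun k _ => ?_
    rw [integral_const_mul]
    change _ = _ * H k
    rw [mul_assoc, mul_comm (conj (H k)), Complex.mul_conj']
  have s5 : ∑ k ∈ S, (∏ j, w (k j)) * ‖H k‖ ^ 2 ≤ ∫ t, ∫ t', M t t' ∂ν ∂ν := by
    have e1 : ∀ t, ‖∫ t', ftG s0 b om y s w t t' ∂ν‖ ≤ ∫ t', M t t' ∂ν := by
      intro t
      refine norm_integral_le_of_norm_le (hMi t) (Filter.Eventually.of_forall fun t' => ?_)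
      exact le_min (ftG_one a s w P hP s0 b y hy t t') (ftG_two om C1 hC1 s w hw s0 b y hy t t')
    have e2 : ‖∫ t, ∫ t', ftG s0 b om y s w t t' ∂ν ∂ν‖ ≤ ∫ t, ∫ t', M t t' ∂ν ∂ν :=
      norm_integral_le_of_norm_le hMi2 (Filter.Eventually.of_forall e1)
    rw [← s4, Complex.norm_real, Real.norm_eq_abs] at e2
    exact (le_abs_self _).trans e2
  calc y ^ 2 * (∫ t, μ t ∂ν) ^ 2 = (y * ∫ t, μ t ∂ν) ^ 2 := by ring
    _ ≤ ‖∑ k ∈ s0, b k * conj (H k)‖ ^ 2 := by gcongr
    _ ≤ (∑ k ∈ s0, ‖b k‖ ^ 2) * ∑ k ∈ s0, ‖H k‖ ^ 2 := s2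
    _ ≤ (∑ k ∈ s0, ‖b k‖ ^ 2) * ∫ t, ∫ t', M t t' ∂ν ∂ν :=
        mul_le_mul_of_nonneg_left (s3.trans s5) (Finset.sum_nonneg fun k _ => by positivity)

end STE
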