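import Pool.Agent.STE.Seq

/-!
# STE/Interp: real interpolation between `L¹` and `L²` for a bilinear form given on sets

PROOF. Let `q' = q/(q-1)`, `F` measurable, `0 ≤ F ≤ 1`, `F = 0` outside of `[0,1]`, `Y = ∫ F^{q'}`. For
`m : ℕ` let `F_m = F 1{F ≥ 2^{-m}}`; `∫∫ F F W ≤ ∫∫ F_m F_m W + 2 · 2^{-m}`. For `-m ≤ a ≤ 0` let
`S_a = {t ∈ [0,1] : 2^a ≤ F t < 2^{a+1}}`, so `F_m ≤ ∑_a 2^{a+1} 1_{S_a}` and
`∫∫ F_m F_m W ≤ ∑_{a,b} 2^{a+b+2} ∫_{S_a} ∫_{S_b} W`. Insert the hypothesis. With `x_a = 2^{a q'} |S_a|`,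
`∑ x_a ≤ Y`:
* first term: `4 α (∑ 2^a |S_a|)² ≤ 4 α (∫ F)²`;
* `2^{a+b} A |S_a||S_b| = A 2^{-(a+b)(q'-1)} x_a x_b` and
  `2^{a+b} B (|S_a||S_b|)^{1/2} = B 2^{(a+b)(1-q'/2)} (x_a x_b)^{1/2}`: `antidiag`; `2 - 2/q = 2/q'`.
Let `m → ∞`.
-/

open MeasureTheory

namespace STE

/-- The level sets of `F` in `[0,1]`. -/
private def lev (F : ℝ → ℝ) (a : ℤ) : Set ℝ :=
  {t | t ∈ Set.Icc (0 : ℝ) 1 ∧ (2 : ℝ) ^ a ≤ F t ∧ F t < (2 : ℝ) ^ (a + 1)}

private lemma lev_meas {F : ℝ → ℝ} (hF : Measurable F) (a : ℤ) : MeasurableSet (lev F a) := by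
  have h1 : MeasurableSet {t : ℝ | (2 : ℝ) ^ a ≤ F t} := measurableSet_le measurable_const hF
  have h2 : MeasurableSet {t : ℝ | F t < (2 : ℝ) ^ (a + 1)} := measurableSet_lt hF measurable_const
  exact measurableSet_Icc.inter (h1.inter h2)

private lemma lev_sub (F : ℝ → ℝ) (a : ℤ) : lev F a ⊆ Set.Icc 0 1 := fun _ h => h.1

private lemma lev_disj (F : ℝ → ℝ) {a b : ℤ} (h : a ≠ b) : Disjoint (lev F a) (lev F b) := by
  rw [Set.disjoint_left]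
  rintro t ⟨-, h1, h2⟩ ⟨-, h3, h4⟩
  rcases lt_or_gt_of_ne h with hab | hab
  · have : (2 : ℝ) ^ (a + 1) ≤ (2 : ℝ) ^ b := zpow_le_zpow_right₀ one_le_two (by omega)
    linarith
  · have : (2 : ℝ) ^ (b + 1) ≤ (2 : ℝ) ^ a := zpow_le_zpow_right₀ one_le_two (by omega)
    linarith

private lemma lev_fin (F : ℝ → ℝ) (a : ℤ) : volume (lev F a) ≠ ⊤ := by
  refine ne_top_of_le_ne_top ?_ (measure_mono (lev_sub F a))
  simp

private lemma lev_ex {F : ℝ → ℝ} {t : ℝ} (ht : t ∈ Set.Icc (0 : ℝ) 1) (h1 : F t ≤ 1) (m : ℕ)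
    (h2 : (2 : ℝ) ^ (-(m : ℤ)) ≤ F t) : ∃ a ∈ Finset.Icc (-(m : ℤ)) 0, t ∈ lev F a := by
  have h0 : 0 < F t := lt_of_lt_of_le (by positivity) h2
  obtain ⟨n, hn1, hn2⟩ := exists_mem_Ico_zpow h0 one_lt_two
  refine ⟨n, ?_, ht, hn1, hn2⟩
  rw [Finset.mem_Icc]
  constructor
  · have h3 : (2 : ℝ) ^ (-(m : ℤ)) < (2 : ℝ) ^ (n + 1) := lt_of_le_of_lt h2 hn2
    have := (zpow_lt_zpow_iff_right₀ one_lt_two).1 h3
    omega
  · by_contra hn
    have h3 : (2 : ℝ) ^ (1 : ℤ) ≤ (2 : ℝ) ^ n := zpow_le_zpow_right₀ one_le_two (by omega)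
    rw [zpow_one] at h3
    linarith

private lemma lev_sum {F : ℝ → ℝ} (hF : Measurable F) (s : Finset ℤ) (c : ℤ → ℝ) (ψ : ℝ → ℝ)
    (hψ : IntegrableOn ψ (Set.Icc 0 1)) (hψ0 : ∀ t, 0 ≤ ψ t) (hc : ∀ a, ∀ t ∈ lev F a, c a ≤ ψ t) :
    ∑ a ∈ s, c a * volume.real (lev F a) ≤ ∫ t in Set.Icc (0 : ℝ) 1, ψ t := by
  have h1 : ∀ a ∈ s, c a * volume.real (lev F a) ≤ ∫ t in lev F a, ψ t := by
    intro a _
    have h2 : ∫ _ in lev F a, c a = c a * volume.real (lev F a) := by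
      rw [setIntegral_const, smul_eq_mul, mul_comm]
    rw [← h2]
    refine setIntegral_mono_on ?_ (hψ.mono_set (lev_sub F a)) (lev_meas hF a) (hc a)
    exact integrableOn_const (lev_fin F a)
  refine (Finset.sum_le_sum h1).trans ?_
  rw [← integral_biUnion_finset s (fun a _ => lev_meas hF a)
    (fun a _ b _ hab => lev_disj F hab) (fun a _ => hψ.mono_set (lev_sub F a))]
  refine setIntegral_mono_set hψ (Filter.Eventually.of_forall hψ0) ?_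
  refine Filter.Eventually.of_forall ?_
  exact Set.iUnion₂_subset fun a _ => lev_sub F a

private lemma interp_step {W : ℝ → ℝ → ℝ} (hW : Measurable (Function.uncurry W))
    (hW1 : ∀ t s, 0 ≤ W t s ∧ W t s ≤ 1) {F : ℝ → ℝ} (hF : Measurable F)
    (hF1 : ∀ t, 0 ≤ F t ∧ F t ≤ 1) (m : ℕ) :
    ∫ t in Set.Icc (0 : ℝ) 1, ∫ s in Set.Icc (0 : ℝ) 1, F t * F s * W t s ≤
      2 * (2 : ℝ) ^ (-(m : ℤ)) +
        ∑ a ∈ Finset.Icc (-(m : ℤ)) 0, ∑ b ∈ Finset.Icc (-(m : ℤ)) 0,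
          4 * ((2 : ℝ) ^ a * (2 : ℝ) ^ b) * ∫ t in lev F a, ∫ s in lev F b, W t s := by
  set s₀ := Finset.Icc (-(m : ℤ)) 0 with hs₀
  have hI : volume (Set.Icc (0 : ℝ) 1) ≠ ⊤ := by simp
  have hIm : MeasurableSet (Set.Icc (0 : ℝ) 1 ×ˢ Set.Icc (0 : ℝ) 1) :=
    measurableSet_Icc.prod measurableSet_Icc
  have hIf : (volume.prod volume : Measure (ℝ × ℝ)) (Set.Icc (0 : ℝ) 1 ×ˢ Set.Icc (0 : ℝ) 1) ≠ ⊤ := by
    rw [Measure.prod_prod]
    simp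
  have hWi : ∀ S : Set (ℝ × ℝ), S ⊆ Set.Icc (0 : ℝ) 1 ×ˢ Set.Icc (0 : ℝ) 1 →
      IntegrableOn (Function.uncurry W) S (volume.prod volume) := by
    intro S hS
    refine IntegrableOn.mono_set ?_ hS
    refine Measure.integrableOn_of_bounded (M := 1) hIf hW.aestronglyMeasurable ?_
    refine Filter.Eventually.of_forall fun z => ?_
    rw [Real.norm_eq_abs]
    change |W z.1 z.2| ≤ 1
    rw [abs_of_nonneg (hW1 z.1 z.2).1]
    exact (hW1 z.1 z.2).2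
  have hG : Measurable fun z : ℝ × ℝ => F z.1 * F z.2 * Function.uncurry W z :=
    ((hF.comp measurable_fst).mul (hF.comp measurable_snd)).mul hW
  have hGi : IntegrableOn (fun z : ℝ × ℝ => F z.1 * F z.2 * Function.uncurry W z)
      (Set.Icc (0 : ℝ) 1 ×ˢ Set.Icc (0 : ℝ) 1) (volume.prod volume) := by
    refine Measure.integrableOn_of_bounded (M := 1) hIf hG.aestronglyMeasurable ?_
    refine Filter.Eventually.of_forall fun z => ?_
    have h1 := hF1 z.1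
    have h2 := hF1 z.2
    have h3 := hW1 z.1 z.2
    have h4 : 0 ≤ F z.1 * F z.2 := mul_nonneg h1.1 h2.1
    have h5 : F z.1 * F z.2 ≤ 1 := mul_le_one₀ h1.2 h2.1 h2.2
    rw [Real.norm_eq_abs]
    change |F z.1 * F z.2 * W z.1 z.2| ≤ 1
    rw [abs_of_nonneg (mul_nonneg h4 h3.1)]
    exact mul_le_one₀ h5 h3.1 h3.2
  have e1 : ∫ t in Set.Icc (0 : ℝ) 1, ∫ s in Set.Icc (0 : ℝ) 1, F t * F s * W t s =
      ∫ z in Set.Icc (0 : ℝ) 1 ×ˢ Set.Icc (0 : ℝ) 1, F z.1 * F z.2 * Function.uncurry W z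
        ∂(volume.prod volume) := (setIntegral_prod _ hGi).symm
  have e2 : ∀ a b : ℤ, ∫ t in lev F a, ∫ s in lev F b, W t s =
      ∫ z in Set.Icc (0 : ℝ) 1 ×ˢ Set.Icc (0 : ℝ) 1,
        (lev F a ×ˢ lev F b).indicator (Function.uncurry W) z ∂(volume.prod volume) := by
    intro a b
    have hsub : lev F a ×ˢ lev F b ⊆ Set.Icc (0 : ℝ) 1 ×ˢ Set.Icc (0 : ℝ) 1 :=
      Set.prod_mono (lev_sub F a) (lev_sub F b)
    rw [setIntegral_indicator ((lev_meas hF a).prod (lev_meas hF b)),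
      Set.inter_eq_self_of_subset_right hsub, setIntegral_prod _ (hWi _ hsub)]
    rfl
  have hind : ∀ a b : ℤ, IntegrableOn ((lev F a ×ˢ lev F b).indicator (Function.uncurry W))
      (Set.Icc (0 : ℝ) 1 ×ˢ Set.Icc (0 : ℝ) 1) (volume.prod volume) := fun a b =>
    (hWi _ Set.Subset.rfl).indicator ((lev_meas hF a).prod (lev_meas hF b))
  have e3 : ∑ a ∈ s₀, ∑ b ∈ s₀,
      4 * ((2 : ℝ) ^ a * (2 : ℝ) ^ b) * ∫ t in lev F a, ∫ s in lev F b, W t s =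
      ∫ z in Set.Icc (0 : ℝ) 1 ×ˢ Set.Icc (0 : ℝ) 1, ∑ a ∈ s₀, ∑ b ∈ s₀,
        4 * ((2 : ℝ) ^ a * (2 : ℝ) ^ b) *
          (lev F a ×ˢ lev F b).indicator (Function.uncurry W) z ∂(volume.prod volume) := by
    rw [integral_finsetSum _ fun a _ => integrable_finsetSum _ fun b _ =>
      (hind a b).integrable.const_mul _]
    refine Finset.sum_congr rfl fun a _ => ?_
    rw [integral_finsetSum _ fun b _ => (hind a b).integrable.const_mul _]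
    refine Finset.sum_congr rfl fun b _ => ?_
    rw [integral_const_mul, e2]
  have e4 : 2 * (2 : ℝ) ^ (-(m : ℤ)) = ∫ _ in Set.Icc (0 : ℝ) 1 ×ˢ Set.Icc (0 : ℝ) 1,
      2 * (2 : ℝ) ^ (-(m : ℤ)) ∂(volume.prod volume : Measure (ℝ × ℝ)) := by
    rw [setIntegral_const, measureReal_def, Measure.prod_prod]
    simp
  have hci : IntegrableOn (fun _ : ℝ × ℝ => 2 * (2 : ℝ) ^ (-(m : ℤ)))
      (Set.Icc (0 : ℝ) 1 ×ˢ Set.Icc (0 : ℝ) 1) (volume.prod volume) :=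
    integrableOn_const hIf
  have hsi : IntegrableOn (fun z : ℝ × ℝ => ∑ a ∈ s₀, ∑ b ∈ s₀,
      4 * ((2 : ℝ) ^ a * (2 : ℝ) ^ b) *
        (lev F a ×ˢ lev F b).indicator (Function.uncurry W) z)
      (Set.Icc (0 : ℝ) 1 ×ˢ Set.Icc (0 : ℝ) 1) (volume.prod volume) :=
    integrable_finsetSum _ fun a _ => integrable_finsetSum _ fun b _ =>
      (hind a b).integrable.const_mul _
  rw [e1, e3, e4, ← integral_add hci hsi]
  refine setIntegral_mono_on hGi (hci.add hsi) hIm ?_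
  rintro ⟨t, s⟩ ⟨ht, hs⟩
  have hp : 0 < (2 : ℝ) ^ (-(m : ℤ)) := by positivity
  have ht1 := hF1 t
  have hs1 := hF1 s
  have hw := hW1 t s
  have hnn : ∀ a ∈ s₀, ∀ b ∈ s₀, 0 ≤ 4 * ((2 : ℝ) ^ a * (2 : ℝ) ^ b) *
      (lev F a ×ˢ lev F b).indicator (Function.uncurry W) (t, s) := by
    intro a _ b _
    refine mul_nonneg (by positivity) (Set.indicator_nonneg (fun z _ => (hW1 z.1 z.2).1) _)
  have hsum : 0 ≤ ∑ a ∈ s₀, ∑ b ∈ s₀, 4 * ((2 : ℝ) ^ a * (2 : ℝ) ^ b) *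
      (lev F a ×ˢ lev F b).indicator (Function.uncurry W) (t, s) :=
    Finset.sum_nonneg fun a ha => Finset.sum_nonneg fun b hb => hnn a ha b hb
  change F t * F s * W t s ≤ 2 * (2 : ℝ) ^ (-(m : ℤ)) + _
  by_cases h1 : (2 : ℝ) ^ (-(m : ℤ)) ≤ F t
  · by_cases h2 : (2 : ℝ) ^ (-(m : ℤ)) ≤ F s
    · obtain ⟨a, ha, hta⟩ := lev_ex ht ht1.2 m h1
      obtain ⟨b, hb, hsb⟩ := lev_ex hs hs1.2 m h2
      have h3 : 4 * ((2 : ℝ) ^ a * (2 : ℝ) ^ b) *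
          (lev F a ×ˢ lev F b).indicator (Function.uncurry W) (t, s) ≤
          ∑ a ∈ s₀, ∑ b ∈ s₀, 4 * ((2 : ℝ) ^ a * (2 : ℝ) ^ b) *
            (lev F a ×ˢ lev F b).indicator (Function.uncurry W) (t, s) := by
        refine le_trans ?_ (Finset.single_le_sum (f := fun a => ∑ b ∈ s₀,
          4 * ((2 : ℝ) ^ a * (2 : ℝ) ^ b) *
            (lev F a ×ˢ lev F b).indicator (Function.uncurry W) (t, s))
          (fun a ha => Finset.sum_nonneg fun b hb => hnn a ha b hb) ha)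
        exact Finset.single_le_sum (f := fun b => 4 * ((2 : ℝ) ^ a * (2 : ℝ) ^ b) *
            (lev F a ×ˢ lev F b).indicator (Function.uncurry W) (t, s))
          (fun b hb => hnn a ha b hb) hb
      have h4 : (lev F a ×ˢ lev F b).indicator (Function.uncurry W) (t, s) = W t s :=
        Set.indicator_of_mem (Set.mk_mem_prod hta hsb) _
      rw [h4] at h3
      have h5 : F t * F s ≤ 4 * ((2 : ℝ) ^ a * (2 : ℝ) ^ b) := by
        have h6 : F t ≤ 2 * (2 : ℝ) ^ a := by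
          have := hta.2.2
          rw [zpow_add_one₀ two_ne_zero] at this
          linarith
        have h7 : F s ≤ 2 * (2 : ℝ) ^ b := by
          have := hsb.2.2
          rw [zpow_add_one₀ two_ne_zero] at this
          linarith
        calc F t * F s ≤ (2 * (2 : ℝ) ^ a) * (2 * (2 : ℝ) ^ b) :=
              mul_le_mul h6 h7 hs1.1 (by positivity)
          _ = 4 * ((2 : ℝ) ^ a * (2 : ℝ) ^ b) := by ring
      have h6 : F t * F s * W t s ≤ 4 * ((2 : ℝ) ^ a * (2 : ℝ) ^ b) * W t s :=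
        mul_le_mul_of_nonneg_right h5 hw.1
      linarith
    · have h3 : F t * F s * W t s ≤ 1 * (2 : ℝ) ^ (-(m : ℤ)) * 1 :=
        mul_le_mul (mul_le_mul ht1.2 (not_le.1 h2).le hs1.1 zero_le_one) hw.2 hw.1 (by positivity)
      linarith
  · have h3 : F t * F s * W t s ≤ (2 : ℝ) ^ (-(m : ℤ)) * 1 * 1 :=
      mul_le_mul (mul_le_mul (not_le.1 h1).le hs1.2 hs1.1 hp.le) hw.2 hw.1 (by positivity)
    linarith

/-- The two terms of the minimum in terms of `x a = 2 ^ (a q') |S a|`. -/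
private lemma interp_min (q' A B va vb : ℝ) (ha : 0 ≤ va) (hb : 0 ≤ vb) (a b : ℤ) :
    (2 : ℝ) ^ a * (2 : ℝ) ^ b * min (A * (va * vb)) (B * (va * vb) ^ (1 / 2 : ℝ)) =
      min (A * (2 : ℝ) ^ (-(((a : ℝ) + b) * (q' - 1))) *
          (((2 : ℝ) ^ ((a : ℝ) * q') * va) * ((2 : ℝ) ^ ((b : ℝ) * q') * vb)))
        (B * (2 : ℝ) ^ (((a : ℝ) + b) * (1 - q' / 2)) *
          (((2 : ℝ) ^ ((a : ℝ) * q') * va) * ((2 : ℝ) ^ ((b : ℝ) * q') * vb)) ^ (1 / 2 : ℝ)) := by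
  rw [mul_min_of_nonneg _ _ (by positivity)]
  have h2 : (2 : ℝ) ^ a * (2 : ℝ) ^ b = (2 : ℝ) ^ ((a : ℝ) + b) := by
    rw [Real.rpow_add two_pos, Real.rpow_intCast, Real.rpow_intCast]
  have h3 : (2 : ℝ) ^ ((a : ℝ) * q') * (2 : ℝ) ^ ((b : ℝ) * q') =
      (2 : ℝ) ^ (((a : ℝ) + b) * q') := by
    rw [← Real.rpow_add two_pos]
    congr 1
    ring
  have e1 : ((2 : ℝ) ^ ((a : ℝ) * q') * va) * ((2 : ℝ) ^ ((b : ℝ) * q') * vb) =
      (2 : ℝ) ^ (((a : ℝ) + b) * q') * (va * vb) := by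
    rw [← h3]
    ring
  rw [h2, e1]
  congr 1
  · have h4 : (2 : ℝ) ^ (-(((a : ℝ) + b) * (q' - 1))) * (2 : ℝ) ^ (((a : ℝ) + b) * q') =
        (2 : ℝ) ^ ((a : ℝ) + b) := by
      rw [← Real.rpow_add two_pos]
      congr 1
      ring
    rw [← h4]
    ring
  · rw [Real.mul_rpow (by positivity) (mul_nonneg ha hb), ← Real.rpow_mul zero_le_two]
    have h4 : (2 : ℝ) ^ (((a : ℝ) + b) * (1 - q' / 2)) * (2 : ℝ) ^ (((a : ℝ) + b) * q' * (1 / 2)) =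
        (2 : ℝ) ^ ((a : ℝ) + b) := by
      rw [← Real.rpow_add two_pos]
      congr 1
      ring
    rw [← h4]
    ring

private lemma interp_pow {F : ℝ → ℝ} (hF : Measurable F) (hF1 : ∀ t, 0 ≤ F t ∧ F t ≤ 1) {q' : ℝ}
    (hq' : 0 ≤ q') (s : Finset ℤ) :
    ∑ a ∈ s, (2 : ℝ) ^ ((a : ℝ) * q') * volume.real (lev F a) ≤
      ∫ t in Set.Icc (0 : ℝ) 1, F t ^ q' := by
  refine lev_sum hF s (fun a => (2 : ℝ) ^ ((a : ℝ) * q')) (fun t => F t ^ q') ?_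
    (fun t => Real.rpow_nonneg (hF1 t).1 _) ?_
  · refine Measure.integrableOn_of_bounded (M := 1) (by simp)
      (hF.pow_const q').aestronglyMeasurable ?_
    refine Filter.Eventually.of_forall fun t => ?_
    rw [Real.norm_eq_abs, abs_of_nonneg (Real.rpow_nonneg (hF1 t).1 _)]
    exact Real.rpow_le_one (hF1 t).1 (hF1 t).2 hq'
  · intro a t ht
    rw [Real.rpow_mul zero_le_two, Real.rpow_intCast]
    exact Real.rpow_le_rpow (by positivity) ht.2.1 hq'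

theorem interp {q : ℝ} (hq : 2 < q) : ∃ C : ℝ, 0 < C ∧ ∀ (W : ℝ → ℝ → ℝ),
    Measurable (Function.uncurry W) → (∀ t s, 0 ≤ W t s ∧ W t s ≤ 1) →
    ∀ α A B A' B' : ℝ, 0 ≤ α → 0 ≤ A → 0 ≤ B → 0 ≤ A' → 0 ≤ B' →
    (∀ S S' : Set ℝ, MeasurableSet S → MeasurableSet S' → S ⊆ Set.Icc 0 1 → S' ⊆ Set.Icc 0 1 →
      ∫ t in S, ∫ s in S', W t s ≤ α * (volume.real S * volume.real S') +
        min (A * (volume.real S * volume.real S'))
          (B * (volume.real S * volume.real S') ^ (1 / 2 : ℝ)) +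
        min (A' * (volume.real S * volume.real S'))
          (B' * (volume.real S * volume.real S') ^ (1 / 2 : ℝ))) →
    ∀ F : ℝ → ℝ, Measurable F → (∀ t, 0 ≤ F t ∧ F t ≤ 1) →
    ∫ t in Set.Icc (0 : ℝ) 1, ∫ s in Set.Icc (0 : ℝ) 1, F t * F s * W t s ≤
      C * (α * (∫ t in Set.Icc (0 : ℝ) 1, F t) ^ 2 +
        (A ^ (1 - 2 / q) * B ^ (2 / q) + A' ^ (1 - 2 / q) * B' ^ (2 / q)) *
          (∫ t in Set.Icc (0 : ℝ) 1, F t ^ (q / (q - 1))) ^ (2 - 2 / q)) := by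
  obtain ⟨C₀, hC₀, hAd⟩ := antidiag hq
  refine ⟨4 + 4 * C₀, by positivity, ?_⟩
  intro W hW hW1 α A B A' B' hα hA hB hA' hB' hS F hF hF1
  set I₁ := ∫ t in Set.Icc (0 : ℝ) 1, F t with hI₁
  set Y := ∫ t in Set.Icc (0 : ℝ) 1, F t ^ (q / (q - 1)) with hY
  have hq' : 0 ≤ q / (q - 1) := div_nonneg (by linarith) (by linarith)
  have hI0 : 0 ≤ I₁ := setIntegral_nonneg measurableSet_Icc fun t _ => (hF1 t).1
  have hY0 : 0 ≤ Y := setIntegral_nonneg measurableSet_Icc fun t _ => Real.rpow_nonneg (hF1 t).1 _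
  have hv : ∀ a, 0 ≤ volume.real (lev F a) := fun a => measureReal_nonneg
  have key : ∀ m : ℕ, ∫ t in Set.Icc (0 : ℝ) 1, ∫ s in Set.Icc (0 : ℝ) 1, F t * F s * W t s ≤
      2 * (2 : ℝ) ^ (-(m : ℤ)) + (4 * (α * I₁ ^ 2) + 4 * (C₀ * (A ^ (1 - 2 / q) * B ^ (2 / q) *
        Y ^ (2 - 2 / q))) + 4 * (C₀ * (A' ^ (1 - 2 / q) * B' ^ (2 / q) * Y ^ (2 - 2 / q)))) := by
    intro m
    refine (interp_step hW hW1 hF hF1 m).trans ?_
    set s₀ := Finset.Icc (-(m : ℤ)) 0 with hs₀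
    have h1 : ∀ a ∈ s₀, ∀ b ∈ s₀, 4 * ((2 : ℝ) ^ a * (2 : ℝ) ^ b) *
        ∫ t in lev F a, ∫ s in lev F b, W t s ≤
        4 * α * (((2 : ℝ) ^ a * volume.real (lev F a)) * ((2 : ℝ) ^ b * volume.real (lev F b))) +
        4 * ((2 : ℝ) ^ a * (2 : ℝ) ^ b * min (A * (volume.real (lev F a) * volume.real (lev F b)))
          (B * (volume.real (lev F a) * volume.real (lev F b)) ^ (1 / 2 : ℝ))) +
        4 * ((2 : ℝ) ^ a * (2 : ℝ) ^ b * min (A' * (volume.real (lev F a) * volume.real (lev F b)))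
          (B' * (volume.real (lev F a) * volume.real (lev F b)) ^ (1 / 2 : ℝ))) := by
      intro a _ b _
      have h2 := hS (lev F a) (lev F b) (lev_meas hF a) (lev_meas hF b) (lev_sub F a) (lev_sub F b)
      have h3 := mul_le_mul_of_nonneg_left h2
        (show 0 ≤ 4 * ((2 : ℝ) ^ a * (2 : ℝ) ^ b) by positivity)
      refine h3.trans (le_of_eq ?_)
      ring
    have h2 := Finset.sum_le_sum fun a ha => Finset.sum_le_sum fun b hb => h1 a ha b hb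
    refine (add_le_add_right h2 _).trans ?_
    simp only [Finset.sum_add_distrib, ← Finset.mul_sum]
    have e1 : ∑ a ∈ s₀, (2 : ℝ) ^ a * volume.real (lev F a) ≤ I₁ := by
      refine lev_sum hF s₀ (fun a => (2 : ℝ) ^ a) F ?_ (fun t => (hF1 t).1)
        (fun a t ht => ht.2.1)
      refine Measure.integrableOn_of_bounded (M := 1) (by simp) hF.aestronglyMeasurable ?_
      refine Filter.Eventually.of_forall fun t => ?_
      rw [Real.norm_eq_abs, abs_of_nonneg (hF1 t).1]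
      exact (hF1 t).2
    have e2 : ∑ a ∈ s₀, ∑ b ∈ s₀, ((2 : ℝ) ^ a * volume.real (lev F a)) *
        ((2 : ℝ) ^ b * volume.real (lev F b)) ≤ I₁ ^ 2 := by
      rw [← Finset.sum_mul_sum, sq]
      have h0 : 0 ≤ ∑ a ∈ s₀, (2 : ℝ) ^ a * volume.real (lev F a) :=
        Finset.sum_nonneg fun a _ => mul_nonneg (by positivity) (hv a)
      exact mul_le_mul e1 e1 h0 hI0
    have e3 : ∀ A B : ℝ, 0 ≤ A → 0 ≤ B → ∑ a ∈ s₀, ∑ b ∈ s₀, (2 : ℝ) ^ a * (2 : ℝ) ^ b *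
        min (A * (volume.real (lev F a) * volume.real (lev F b)))
          (B * (volume.real (lev F a) * volume.real (lev F b)) ^ (1 / 2 : ℝ)) ≤
        C₀ * (A ^ (1 - 2 / q) * B ^ (2 / q) * Y ^ (2 - 2 / q)) := by
      intro A B hA hB
      refine le_trans (le_of_eq ?_) (hAd A B hA hB s₀
        (fun a => (2 : ℝ) ^ ((a : ℝ) * (q / (q - 1))) * volume.real (lev F a))
        (fun a => mul_nonneg (by positivity) (hv a)) Y (interp_pow hF hF1 hq' s₀))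
      refine Finset.sum_congr rfl fun a _ => Finset.sum_congr rfl fun b _ => ?_
      exact interp_min _ A B _ _ (hv a) (hv b) a b
    have e2' := mul_le_mul_of_nonneg_left e2 (show 0 ≤ 4 * α by positivity)
    simp only [Finset.mul_sum] at e2' ⊢
    have e3' := e3 A B hA hB
    have e4' := e3 A' B' hA' hB'
    have e5 : ∀ A B : ℝ, ∑ a ∈ s₀, ∑ b ∈ s₀, 4 * ((2 : ℝ) ^ a * (2 : ℝ) ^ b *
        min (A * (volume.real (lev F a) * volume.real (lev F b)))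
          (B * (volume.real (lev F a) * volume.real (lev F b)) ^ (1 / 2 : ℝ))) =
        4 * ∑ a ∈ s₀, ∑ b ∈ s₀, (2 : ℝ) ^ a * (2 : ℝ) ^ b *
        min (A * (volume.real (lev F a) * volume.real (lev F b)))
          (B * (volume.real (lev F a) * volume.real (lev F b)) ^ (1 / 2 : ℝ)) := by
      intro A B
      simp only [Finset.mul_sum]
    rw [e5, e5]
    linarith
  refine le_of_forall_pos_le_add fun ε hε => ?_
  obtain ⟨m, hm⟩ := exists_pow_lt_of_lt_one (show 0 < ε / 2 by positivity)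
    (show (1 / 2 : ℝ) < 1 by norm_num)
  have h1 := key m
  have h2 : (2 : ℝ) ^ (-(m : ℤ)) = (1 / 2 : ℝ) ^ m := by
    rw [zpow_neg, zpow_natCast, one_div, inv_pow]
  rw [h2] at h1
  have h3 : 0 ≤ α * I₁ ^ 2 := by positivity
  have h4 : 0 ≤ (A ^ (1 - 2 / q) * B ^ (2 / q) + A' ^ (1 - 2 / q) * B' ^ (2 / q)) *
      Y ^ (2 - 2 / q) := by positivity
  have h5 : 0 ≤ C₀ * (α * I₁ ^ 2) := by positivity
  have h6 : (4 + 4 * C₀) * (α * I₁ ^ 2 + (A ^ (1 - 2 / q) * B ^ (2 / q) +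
      A' ^ (1 - 2 / q) * B' ^ (2 / q)) * Y ^ (2 - 2 / q)) =
      4 * (α * I₁ ^ 2) + 4 * (C₀ * (A ^ (1 - 2 / q) * B ^ (2 / q) * Y ^ (2 - 2 / q))) +
        4 * (C₀ * (A' ^ (1 - 2 / q) * B' ^ (2 / q) * Y ^ (2 - 2 / q))) +
        4 * (C₀ * (α * I₁ ^ 2)) + 4 * ((A ^ (1 - 2 / q) * B ^ (2 / q) +
          A' ^ (1 - 2 / q) * B' ^ (2 / q)) * Y ^ (2 - 2 / q)) := by ring
  rw [h6]
  linarith

end STE
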