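import Pool.Agent.STE.TimeKer
import Pool.Agent.STZ.KBCircle

/-!
# STE/Ker1: the one-dimensional kernel and its majorant

PROOF of `ker1` (see `STZ/KBCircle.lean`, which contains most of it). `w k = e^π e^{-π k²/N²}`,
`s = Finset.Icc (-M) M`, `M ≥ N`, `∑_{k ∉ s} w k ≤ 1`; `s, w` do not depend on `a, t`. With
`τ = -a t/π + i/N²` and a real representative `z` of `x`:
`‖∑_{k∈s} w k e^{-i t a k²} fourier k x‖ ≤ 1 + e^π ‖jacobiTheta₂ z τ‖`. `theta_bound` (`Im τ = N^{-2} ≤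
1/4`) gives `c ≥ 1`, `d` with `‖θ‖ ≤ C0 ρ₀^{-1/2}`, `ρ₀ = ‖cτ+d‖ ≥ max (c/N²) |c u' + d|`,
`u' = -a t/π`. Let `i` be the natural number with `4^i/N² ≤ ρ₀ < 4^{i+1}/N²` (`ρ₀ ≥ 1/N²`). Then
`‖θ‖ ≤ C0 2^{-i} N`, `c ≤ 4 · 4^i`, `|c u' + d| ≤ 4 · 4^i/N²`, so `-u' = a t/π ∈ arcs 1 (C1 4^i) (C1
4^i/N²)` (`C1 ≥ 4`; `arcs` is symmetric). If `i < I` the `i`-th term of the sum is at least `2^{-i}`;
if `i ≥ I`, `2^{-i} ≤ 2^{-I}`. Finally `1 ≤ N 2^{-I}`.
`ker1_pow`: if `∑_{i<I} 2^{-i} 1_i(u) = v > 0` and `i₀` is the smallest `i` with `u ∈ arcs_i`, then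
`v ≤ 2 · 2^{-i₀}` and `v^G ≤ 2^G 2^{-i₀ G} ≤ 2^G maj`.
-/

open MeasureTheory Complex STZ
open scoped Real

namespace STE

/-- `N 2^{-I} + N ∑_{i<I} 2^{-i} 1_{arcs_i}(u)` -/
noncomputable def Amaj (C1 : ℝ) (N I : ℕ) (u : ℝ) : ℝ := N * ((2 : ℝ) ^ (-(I : ℝ)) + maj C1 1 N I u)

theorem ker1 : ∃ C1 : ℝ, 1 ≤ C1 ∧ ∀ N : ℕ, 2 ≤ N → ∃ (s : Finset ℤ) (w : ℤ → ℝ),
    (∀ k : ℤ, |(k : ℝ)| ≤ N → k ∈ s) ∧ (∀ k, 0 ≤ w k ∧ w k ≤ C1) ∧
    (∀ k : ℤ, |(k : ℝ)| ≤ N → 1 ≤ w k) ∧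
    ∀ (a t : ℝ) (x : UnitAddCircle) (I : ℕ), (2 : ℝ) ^ I ≤ N →
      ‖∑ k ∈ s, (w k : ℂ) * cexp (-((t * (a * (k : ℝ) ^ 2) : ℝ) : ℂ) * Complex.I) * fourier k x‖ ≤
        C1 * Amaj C1 N I (a * t / π) := by
  obtain ⟨C0, hC0, hθ⟩ := theta_bound
  have hE : (1 : ℝ) ≤ rexp π := Real.one_le_exp Real.pi_pos.le
  set C1 : ℝ := rexp π * C0 + 4 + rexp π with hC1
  have hEC : 0 ≤ rexp π * C0 := by positivity
  have hC1' : 1 ≤ C1 := by linarith
  have hC14 : 4 ≤ C1 := by linarith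
  refine ⟨C1, hC1', fun N hN => ?_⟩
  have hN2 : (2 : ℝ) ≤ N := by exact_mod_cast hN
  have hN0 : (0 : ℝ) < N := by linarith
  have hN1 : (1 : ℝ) ≤ N := by linarith
  set v : ℤ → ℝ := fun n => rexp (-π * n ^ 2 * ((N : ℝ) ^ 2)⁻¹) with hv
  have hvnorm : ∀ (b t z : ℝ) (n : ℤ), ‖jacobiTheta₂_term n z (tauC b N t)‖ = v n := by
    intro b t z n
    rw [norm_jacobiTheta₂_term, tauC_im, ofReal_im, mul_zero, sub_zero]
  have hvs : Summable v := by
    have h1 := (summable_jacobiTheta₂_term_iff ((0 : ℝ) : ℂ) (tauC 0 N 0)).2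
      (by rw [tauC_im]; positivity)
    have h2 := h1.norm
    simp only [hvnorm] at h2
    exact h2
  have hv0 : ∀ n, 0 ≤ v n := fun n => (Real.exp_pos _).le
  have hv1 : ∀ n, v n ≤ 1 := by
    intro n
    rw [hv]
    simp only
    rw [Real.exp_le_one_iff]
    have : 0 ≤ π * (n : ℝ) ^ 2 * ((N : ℝ) ^ 2)⁻¹ := by positivity
    linarith
  obtain ⟨s, hs0, hs⟩ := exists_finset_norm_sub_le hvs (Finset.Icc (-(N : ℤ)) N)
    (ε := (rexp π)⁻¹) (by positivity)
  refine ⟨s, fun n => rexp π * v n, ?_, ?_, ?_, ?_⟩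
  · intro l hl
    apply hs0
    rw [← Int.cast_abs] at hl
    have hl' : |l| ≤ (N : ℤ) := by exact_mod_cast hl
    rw [Finset.mem_Icc]
    exact abs_le.1 hl'
  · intro l
    refine ⟨mul_nonneg (by positivity) (hv0 l), ?_⟩
    calc rexp π * v l ≤ rexp π * 1 := mul_le_mul_of_nonneg_left (hv1 l) (by positivity)
      _ ≤ C1 := by rw [mul_one]; linarith
  · intro l hl
    have h1 : ((l : ℝ)) ^ 2 ≤ (N : ℝ) ^ 2 := by
      rw [← sq_abs]
      exact pow_le_pow_left₀ (abs_nonneg _) hl 2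
    simp only [hv]
    rw [← Real.exp_add]
    apply Real.one_le_exp
    have h3 : (l : ℝ) ^ 2 * ((N : ℝ) ^ 2)⁻¹ ≤ 1 := by
      rw [← div_eq_mul_inv]
      exact div_le_one_of_le₀ h1 (by positivity)
    nlinarith [Real.pi_pos]
  · intro a t x I hI
    obtain ⟨z, hz⟩ := QuotientAddGroup.mk_surjective x
    set b : ℝ := -a / π with hb
    have him : (tauC b N t).im = ((N : ℝ) ^ 2)⁻¹ := tauC_im b N t
    have him4 : ((N : ℝ) ^ 2)⁻¹ < 3 / 4 := by
      have : (4 : ℝ) ≤ (N : ℝ) ^ 2 := by nlinarith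
      calc ((N : ℝ) ^ 2)⁻¹ ≤ 4⁻¹ := inv_anti₀ (by norm_num) this
        _ < 3 / 4 := by norm_num
    obtain ⟨c, d, hc, -, hcd⟩ := hθ (tauC b N t) (by rw [him]; positivity) (by rw [him]; exact him4)
    have hk := hcd (z : ℂ)
    rw [ofReal_im] at hk
    have hexp1 : rexp (π * 0 ^ 2 / (tauC b N t).im) = 1 := by simp
    rw [hexp1, mul_one] at hk
    set r : ℝ := ‖(c : ℂ) * tauC b N t + d‖ with hr
    have hc1 : (1 : ℝ) ≤ c := by exact_mod_cast hc
    have hre : ((c : ℂ) * tauC b N t + d).re = (c : ℝ) * (b * t) + d := by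
      rw [add_re, intCast_re, ← ofReal_intCast c, re_ofReal_mul, tauC_re]
    have himc : ((c : ℂ) * tauC b N t + d).im = (c : ℝ) * ((N : ℝ) ^ 2)⁻¹ := by
      rw [add_im, intCast_im, ← ofReal_intCast c, im_ofReal_mul, tauC_im, add_zero]
    have hr1 : (c : ℝ) * ((N : ℝ) ^ 2)⁻¹ ≤ r := by
      have h1 := Complex.abs_im_le_norm ((c : ℂ) * tauC b N t + d)
      rw [himc] at h1
      exact (le_abs_self _).trans h1
    have hr2 : |(c : ℝ) * (b * t) + d| ≤ r := by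
      have h1 := Complex.abs_re_le_norm ((c : ℂ) * tauC b N t + d)
      rw [hre] at h1
      exact h1
    have hNsq : (0 : ℝ) < (N : ℝ) ^ 2 := by positivity
    have hrN : 1 ≤ (N : ℝ) ^ 2 * r := by
      have h1 : (c : ℝ) ≤ (N : ℝ) ^ 2 * r := by
        have := mul_le_mul_of_nonneg_left hr1 hNsq.le
        calc (c : ℝ) = (N : ℝ) ^ 2 * ((c : ℝ) * ((N : ℝ) ^ 2)⁻¹) := by field_simp
          _ ≤ _ := this
      linarith
    obtain ⟨i, hi1, hi2⟩ := exists_nat_pow_near hrN (by norm_num : (1 : ℝ) < 4)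
    have hr_lower : (4 : ℝ) ^ i / (N : ℝ) ^ 2 ≤ r := by
      rw [div_le_iff₀ hNsq]
      linarith
    have hr_upper : r < 4 * 4 ^ i / (N : ℝ) ^ 2 := by
      rw [lt_div_iff₀ hNsq]
      rw [pow_succ (4 : ℝ) i] at hi2
      linarith
    have h4pos : (0 : ℝ) < 4 ^ i / (N : ℝ) ^ 2 := by positivity
    have hpow : r ^ (-(1 / 2) : ℝ) ≤ N * (2 : ℝ) ^ (-(i : ℝ)) := by
      calc r ^ (-(1 / 2) : ℝ) ≤ ((4 : ℝ) ^ i / (N : ℝ) ^ 2) ^ (-(1 / 2) : ℝ) :=
            Real.rpow_le_rpow_of_nonpos h4pos hr_lower (by norm_num)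
        _ = N * (2 : ℝ) ^ (-(i : ℝ)) := by
            have e1 : (4 : ℝ) ^ i / (N : ℝ) ^ 2 = ((2 : ℝ) ^ i / N) ^ 2 := by
              rw [div_pow, ← pow_mul, mul_comm i 2, pow_mul]
              norm_num
            rw [e1, Real.rpow_neg (by positivity), ← Real.inv_rpow (by positivity),
              ← Real.sqrt_eq_rpow, ← inv_pow, Real.sqrt_sq (by positivity), inv_div,
              Real.rpow_neg (by norm_num), Real.rpow_natCast]
            rfl
    -- the majorant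
    have hmaj0 : 0 ≤ maj C1 1 N I (a * t / π) := by
      unfold maj
      refine Finset.sum_nonneg fun j _ => mul_nonneg (by positivity) ?_
      exact Set.indicator_nonneg (fun _ _ => zero_le_one) _
    have h2i : (2 : ℝ) ^ (-(i : ℝ)) ≤ (2 : ℝ) ^ (-(I : ℝ)) + maj C1 1 N I (a * t / π) := by
      by_cases hiI : i < I
      · have hmem : a * t / π ∈ arcs 1 (C1 * 4 ^ i) (C1 * 4 ^ i / (N : ℝ) ^ 2) := by
          refine ⟨c, -d, by omega, ?_, ?_⟩
          · have h1 : (c : ℝ) ≤ (N : ℝ) ^ 2 * r := by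
              have := mul_le_mul_of_nonneg_left hr1 hNsq.le
              calc (c : ℝ) = (N : ℝ) ^ 2 * ((c : ℝ) * ((N : ℝ) ^ 2)⁻¹) := by field_simp
                _ ≤ _ := this
            rw [pow_succ (4 : ℝ) i] at hi2
            have h2 : (4 : ℝ) ^ i * 4 ≤ C1 * 4 ^ i := by
              rw [mul_comm]
              exact mul_le_mul_of_nonneg_right hC14 (by positivity)
            linarith
          · have e2 : (c : ℝ) * (1 * (a * t / π)) + ((-d : ℤ) : ℝ) = -((c : ℝ) * (b * t) + d) := by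
              rw [hb]
              push_cast
              ring
            rw [e2, abs_neg]
            refine hr2.trans (hr_upper.le.trans ?_)
            gcongr
        have hterm : (2 : ℝ) ^ (-(i : ℝ)) ≤ maj C1 1 N I (a * t / π) := by
          unfold maj
          have h1 := Finset.single_le_sum (f := fun j : ℕ => (2 : ℝ) ^ (-((j : ℝ) * 1)) *
            (arcs 1 (C1 * 4 ^ j) (C1 * 4 ^ j / (N : ℝ) ^ 2)).indicator (fun _ => (1 : ℝ))
              (a * t / π)) (s := Finset.range I)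
            (fun j _ => mul_nonneg (by positivity)
              (Set.indicator_nonneg (fun _ _ => zero_le_one) _)) (Finset.mem_range.2 hiI)
          rw [Set.indicator_of_mem hmem, mul_one, mul_one] at h1
          exact h1
        have : (0 : ℝ) ≤ (2 : ℝ) ^ (-(I : ℝ)) := by positivity
        linarith
      · have : (2 : ℝ) ^ (-(i : ℝ)) ≤ (2 : ℝ) ^ (-(I : ℝ)) := by
          apply Real.rpow_le_rpow_of_exponent_le (by norm_num)
          have : (I : ℝ) ≤ i := by exact_mod_cast not_lt.1 hiI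
          linarith
        linarith
    have hA1 : 1 ≤ Amaj C1 N I (a * t / π) := by
      unfold Amaj
      have h1 : (1 : ℝ) ≤ N * (2 : ℝ) ^ (-(I : ℝ)) := by
        rw [Real.rpow_neg (by norm_num), Real.rpow_natCast, ← div_eq_mul_inv,
          one_le_div (by positivity)]
        exact hI
      calc (1 : ℝ) ≤ N * (2 : ℝ) ^ (-(I : ℝ)) := h1
        _ ≤ _ := mul_le_mul_of_nonneg_left (by linarith) hN0.le
    have hth : ‖jacobiTheta₂ z (tauC b N t)‖ ≤ C0 * Amaj C1 N I (a * t / π) := by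
      refine hk.trans (mul_le_mul_of_nonneg_left ?_ (by linarith))
      exact hpow.trans (mul_le_mul_of_nonneg_left h2i hN0.le)
    have hsum := hs (fun n => jacobiTheta₂_term n z (tauC b N t)) fun n => (hvnorm b t z n).le
    have hker : ∑ k ∈ s, (((rexp π * v k : ℝ)) : ℂ) *
        cexp (-((t * (a * (k : ℝ) ^ 2) : ℝ) : ℂ) * Complex.I) * fourier k x =
        (rexp π : ℂ) * ∑ n ∈ s, jacobiTheta₂_term n z (tauC b N t) := by
      rw [Finset.mul_sum]
      refine Finset.sum_congr rfl fun n _ => ?_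
      have e1 : (fourier n x : ℂ) = cexp (2 * π * Complex.I * n * z / (1 : ℝ)) := by
        rw [← hz]
        exact fourier_coe_apply
      rw [e1, jacobiTheta₂_term]
      simp only [hv]
      push_cast
      rw [mul_assoc, mul_assoc, ← Complex.exp_add, ← Complex.exp_add]
      congr 2
      rw [tauC, hb]
      push_cast
      have hπ : (π : ℂ) ≠ 0 := by exact_mod_cast Real.pi_ne_zero
      have hN' : (N : ℂ) ≠ 0 := by exact_mod_cast hN0.ne'
      field_simp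
      have hI : Complex.I ^ 2 = -1 := I_sq
      ring_nf
      rw [hI]
      ring
    rw [hker, norm_mul]
    have e3 : ‖((rexp π : ℝ) : ℂ)‖ = rexp π := by
      rw [Complex.norm_real, Real.norm_eq_abs, abs_of_pos (Real.exp_pos _)]
    rw [e3]
    have h6 : ‖∑ n ∈ s, jacobiTheta₂_term n z (tauC b N t)‖ ≤
        C0 * Amaj C1 N I (a * t / π) + (rexp π)⁻¹ :=
      hsum.trans (by
        change ‖jacobiTheta₂ z (tauC b N t)‖ + _ ≤ _
        linarith)
    calc rexp π * ‖∑ n ∈ s, jacobiTheta₂_term n z (tauC b N t)‖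
        ≤ rexp π * (C0 * Amaj C1 N I (a * t / π) + (rexp π)⁻¹) :=
          mul_le_mul_of_nonneg_left h6 (Real.exp_pos _).le
      _ = rexp π * C0 * Amaj C1 N I (a * t / π) + 1 := by
          rw [mul_add, mul_inv_cancel₀ (Real.exp_pos _).ne']; ring
      _ ≤ rexp π * C0 * Amaj C1 N I (a * t / π) + 1 * Amaj C1 N I (a * t / π) := by linarith
      _ = (rexp π * C0 + 1) * Amaj C1 N I (a * t / π) := by ring
      _ ≤ C1 * Amaj C1 N I (a * t / π) := by
          apply mul_le_mul_of_nonneg_right _ (by linarith)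
          linarith

theorem maj_pow (C1 G : ℝ) (hG : 0 < G) (N I : ℕ) (u : ℝ) :
    (maj C1 1 N I u) ^ G ≤ 2 ^ G * maj C1 G N I u := by
  classical
  set χ : ℕ → ℝ := fun i =>
    (arcs 1 (C1 * 4 ^ i) (C1 * 4 ^ i / (N : ℝ) ^ 2)).indicator (fun _ => (1 : ℝ)) u with hχ
  have hχ01 : ∀ i, χ i = 0 ∨ χ i = 1 := by
    intro i
    by_cases h : u ∈ arcs 1 (C1 * 4 ^ i) (C1 * 4 ^ i / (N : ℝ) ^ 2)
    · exact Or.inr (Set.indicator_of_mem h _)
    · exact Or.inl (Set.indicator_of_notMem h _)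
  have hχ0 : ∀ i, 0 ≤ χ i := fun i => by rcases hχ01 i with h | h <;> rw [h]; norm_num
  have hχ1 : ∀ i, χ i ≤ 1 := fun i => by rcases hχ01 i with h | h <;> rw [h]; norm_num
  have hmaj : ∀ G' : ℝ, maj C1 G' N I u =
      ∑ i ∈ Finset.range I, (2 : ℝ) ^ (-((i : ℝ) * G')) * χ i := fun _ => rfl
  have hnn : ∀ G' : ℝ, 0 ≤ maj C1 G' N I u := fun G' => by
    rw [hmaj]
    exact Finset.sum_nonneg fun i _ => mul_nonneg (by positivity) (hχ0 i)
  by_cases hex : ∃ i, i < I ∧ χ i = 1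
  · set i0 := Nat.find hex with hi0
    obtain ⟨hi0I, hi01⟩ := Nat.find_spec hex
    have hmin : ∀ j, j < i0 → χ j = 0 := by
      intro j hj
      have h1 := Nat.find_min hex hj
      rcases hχ01 j with h | h
      · exact h
      · exact absurd ⟨hj.trans hi0I, h⟩ h1
    -- upper bound for the sum
    have hzero : ∑ i ∈ Finset.range i0, (2 : ℝ) ^ (-((i : ℝ) * 1)) * χ i = 0 :=
      Finset.sum_eq_zero fun j hj => by rw [hmin j (Finset.mem_range.1 hj), mul_zero]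
    have hub : ∀ k : ℕ, ∑ i ∈ Finset.range (i0 + k), (2 : ℝ) ^ (-((i : ℝ) * 1)) * χ i ≤
        2 * (2 : ℝ) ^ (-(i0 : ℝ)) - 2 * (2 : ℝ) ^ (-((i0 + k : ℕ) : ℝ)) := by
      intro k
      induction k with
      | zero => rw [add_zero, hzero]; simp
      | succ k ih =>
        rw [← add_assoc, Finset.sum_range_succ]
        have h1 : (2 : ℝ) ^ (-(((i0 + k : ℕ) : ℝ) * 1)) * χ (i0 + k) ≤
            (2 : ℝ) ^ (-((i0 + k : ℕ) : ℝ)) := by
          rw [mul_one]
          exact mul_le_of_le_one_right (by positivity) (hχ1 _)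
        have h2 : (2 : ℝ) ^ (-((i0 + k : ℕ) : ℝ)) = 2 * (2 : ℝ) ^ (-((i0 + k + 1 : ℕ) : ℝ)) := by
          have h3 : (-((i0 + k : ℕ) : ℝ)) = 1 + (-((i0 + k + 1 : ℕ) : ℝ)) := by
            push_cast
            ring
          rw [h3, Real.rpow_add (by norm_num), Real.rpow_one]
        linarith
    obtain ⟨k, hk⟩ := Nat.exists_eq_add_of_le hi0I.le
    have hv : maj C1 1 N I u ≤ 2 * (2 : ℝ) ^ (-(i0 : ℝ)) := by
      rw [hmaj, hk]
      have h1 := hub k
      have h2 : (0 : ℝ) ≤ 2 * (2 : ℝ) ^ (-((i0 + k : ℕ) : ℝ)) := by positivity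
      linarith
    have hlow : (2 : ℝ) ^ (-((i0 : ℝ) * G)) ≤ maj C1 G N I u := by
      rw [hmaj]
      have h1 := Finset.single_le_sum (f := fun j : ℕ => (2 : ℝ) ^ (-((j : ℝ) * G)) * χ j)
        (s := Finset.range I) (fun j _ => mul_nonneg (by positivity) (hχ0 j))
        (Finset.mem_range.2 hi0I)
      rw [hi01, mul_one] at h1
      exact h1
    calc (maj C1 1 N I u) ^ G ≤ (2 * (2 : ℝ) ^ (-(i0 : ℝ))) ^ G :=
          Real.rpow_le_rpow (hnn 1) hv hG.le
      _ = 2 ^ G * (2 : ℝ) ^ (-((i0 : ℝ) * G)) := by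
          rw [Real.mul_rpow (by norm_num) (by positivity), ← Real.rpow_mul (by norm_num)]
          congr 2
          ring
      _ ≤ 2 ^ G * maj C1 G N I u := mul_le_mul_of_nonneg_left hlow (by positivity)
  · have hz : maj C1 1 N I u = 0 := by
      rw [hmaj]
      refine Finset.sum_eq_zero fun j hj => ?_
      rcases hχ01 j with h | h
      · rw [h, mul_zero]
      · exact absurd ⟨j, Finset.mem_range.1 hj, h⟩ hex
    rw [hz, Real.zero_rpow hG.ne']
    exact mul_nonneg (by positivity) (hnn G)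

end STE
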