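import Pool.Agent.STE.Ker1
import Pool.Agent.STE.FixedTime

/-!
# STE/Large: large level sets

PROOF. `S = ∑ ‖b‖²`, `v = ∫ secV` (so `0 ≤ secV ≤ 1`), `G = r(1-2/q) > 4/q` (because `r(q-2) > 4`). If
`S = 0` the function is `0` and `v = 0`. `C1` from `ker1`; `C_j, δ_j` from `timeKer'` (`a = a_j/π`),
`δ1 = min δ_j ≤ 1`; `δ = δ1/8`. For `N < N0` (a constant) use `‖u‖ ≤ ((2N+1)^r S)^{1/2}` (`v = 0` for larger
`y`, `v ≤ T0` always). Let `N ≥ N0`, `I` the least natural number with `2^I ≥ N^{3δ}`, so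
`2^I ≤ 2 N^{3δ} ≤ N^{δ1} ≤ N`. `P_j t = C1 * Amaj C1 N I (a_j t/π) ≤ 3 C1 N`. `duality`:
`y² v² ≤ S ∫∫ min(∏ P_j μ μ', C1^r (μ μ')^{1/2})`, `μ = secV t`, `μ' = secV t'`.
(1) Where `∏ P_j ≤ y²/(2S)`: contribution `≤ y² v²/2`.
(2) Where `∏ P_j > y²/(2S) ≥ N^{r-2δ}/2`: `P_j ≥ c N^{1-2δ}` for every `j`, and `C1 N 2^{-I} ≤ C1 N^{1-3δ} ≤
(c/2) N^{1-2δ}` for `N ≥ N0`, so `P_j ≤ 2 C1 N m_j`, `m_j = maj C1 1 N I (a_j (t-t')/π)`. The minimum is at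
most `(∏ P_j μ μ')^{1-2/q} (C1^r (μ μ')^{1/2})^{2/q} ≤ C N^G ∏ m_j^{1-2/q} F(t) F(t')` with
`F = μ^{1-1/q} ∈ [0,1]`; AM-GM: `∏ m_j^{1-2/q} ≤ (1/r) ∑ m_j^G ≤ C ∑_j maj C1 G N I (a_j(t-t')/π)`
(`maj_pow`). `timeKer'` and `F^{q/(q-1)} = μ`: contribution `≤ C S N^{G-4/q} v^{2-2/q}`.
So `y² v² ≤ 2 C S N^{G-4/q} v^{2-2/q}`, i.e. `v^{2/q} ≤ C S N^{G-4/q} y^{-2}`; raise to the power `q/2`:
`(G - 4/q) q/2 = r q/2 - (r+2)`.
-/

open MeasureTheory Complex STZ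
open scoped Real

namespace STE

open STC

theorem card_bound {r : ℕ} (N : ℕ) (s0 : Finset (Fin r → ℤ))
    (hs0 : ∀ k ∈ s0, ∀ j, |(k j : ℝ)| ≤ N) : (s0.card : ℝ) ≤ (2 * (N : ℝ) + 1) ^ r := by
  have h : s0 ⊆ Fintype.piFinset (fun _ : Fin r => Finset.Icc (-(N : ℤ)) N) := by
    intro k hk
    rw [Fintype.mem_piFinset]
    intro j
    have := hs0 k hk j
    rw [Finset.mem_Icc]
    rw [abs_le] at this
    constructor
    · exact_mod_cast this.1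
    · exact_mod_cast this.2
  have h2 := Finset.card_le_card h
  rw [Fintype.card_piFinset] at h2
  have h3 : (∏ _i : Fin r, (Finset.Icc (-(N : ℤ)) N).card) = (2 * N + 1) ^ r := by
    simp only [Finset.prod_const, Finset.card_univ, Fintype.card_fin, Int.card_Icc]
    congr 1
    omega
  rw [h3] at h2
  exact_mod_cast h2

theorem chr_norm {r : ℕ} (k : Fin r → ℤ) (x : Fin r → UnitAddCircle) : ‖chr k x‖ = 1 := by
  unfold chr
  rw [norm_prod]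
  refine Finset.prod_eq_one fun j _ => ?_
  rw [fourier_apply]
  exact Circle.norm_coe _

theorem norm_sum_le' {r : ℕ} (N : ℕ) (s0 : Finset (Fin r → ℤ))
    (hs0 : ∀ k ∈ s0, ∀ j, |(k j : ℝ)| ≤ N) (b : (Fin r → ℤ) → ℂ) (om : (Fin r → ℤ) → ℝ) (t : ℝ)
    (x : Fin r → UnitAddCircle) :
    ‖∑ k ∈ s0, b k * cexp (-((t * om k : ℝ) : ℂ) * I) * chr k x‖ ≤
      ((2 * (N : ℝ) + 1) ^ r * ∑ k ∈ s0, ‖b k‖ ^ 2) ^ (1 / 2 : ℝ) := by
  have h1 : ‖∑ k ∈ s0, b k * cexp (-((t * om k : ℝ) : ℂ) * I) * chr k x‖ ≤ ∑ k ∈ s0, ‖b k‖ := by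
    refine (norm_sum_le _ _).trans (Finset.sum_le_sum fun k _ => ?_)
    rw [norm_mul, norm_mul, chr_norm, mul_one]
    have : ‖cexp (-((t * om k : ℝ) : ℂ) * I)‖ = 1 := by
      rw [← ofReal_neg, Complex.norm_exp_ofReal_mul_I]
    rw [this, mul_one]
  have h2 : (∑ k ∈ s0, ‖b k‖) ^ 2 ≤ (2 * (N : ℝ) + 1) ^ r * ∑ k ∈ s0, ‖b k‖ ^ 2 := by
    refine (sq_sum_le_card_mul_sum_sq).trans ?_
    exact mul_le_mul_of_nonneg_right (card_bound N s0 hs0) (Finset.sum_nonneg fun _ _ => by positivity)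
  rw [← Real.sqrt_eq_rpow]
  exact h1.trans (Real.le_sqrt_of_sq_le h2)

theorem secV_nonneg {r : ℕ} (s0 : Finset (Fin r → ℤ)) (b : (Fin r → ℤ) → ℂ)
    (om : (Fin r → ℤ) → ℝ) (y t : ℝ) : 0 ≤ secV s0 b om y t := measureReal_nonneg

theorem secV_le_one {r : ℕ} (s0 : Finset (Fin r → ℤ)) (b : (Fin r → ℤ) → ℂ)
    (om : (Fin r → ℤ) → ℝ) (y t : ℝ) : secV s0 b om y t ≤ 1 := measureReal_le_one

theorem secV_zero {r : ℕ} (N : ℕ) (s0 : Finset (Fin r → ℤ))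
    (hs0 : ∀ k ∈ s0, ∀ j, |(k j : ℝ)| ≤ N) (b : (Fin r → ℤ) → ℂ) (om : (Fin r → ℤ) → ℝ) (y t : ℝ)
    (hy : ((2 * (N : ℝ) + 1) ^ r * ∑ k ∈ s0, ‖b k‖ ^ 2) ^ (1 / 2 : ℝ) ≤ y) :
    secV s0 b om y t = 0 := by
  unfold secV
  have : {x | y < ‖∑ k ∈ s0, b k * cexp (-((t * om k : ℝ) : ℂ) * I) * chr k x‖} = ∅ := by
    ext x
    simp only [Set.mem_ofPred_eq, Set.mem_empty_iff_false, iff_false, not_lt]
    exact (norm_sum_le' N s0 hs0 b om t x).trans hy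
  rw [this]
  simp

theorem min_le_rpow {x z θ : ℝ} (hx : 0 ≤ x) (hz : 0 ≤ z) (h0 : 0 ≤ θ) (h1 : θ ≤ 1) :
    min x z ≤ x ^ (1 - θ) * z ^ θ := by
  have hm : 0 ≤ min x z := le_min hx hz
  calc min x z = (min x z) ^ (1 - θ) * (min x z) ^ θ := by
        rcases hm.eq_or_lt with h | h
        · rw [← h]
          rcases h0.eq_or_lt with h2 | h2
          · rw [← h2]; simp
          · rw [Real.zero_rpow h2.ne']; simp
        · rw [← Real.rpow_add h]; simp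
    _ ≤ x ^ (1 - θ) * z ^ θ := by
        refine mul_le_mul (Real.rpow_le_rpow hm (min_le_left _ _) (by linarith))
          (Real.rpow_le_rpow hm (min_le_right _ _) h0) (Real.rpow_nonneg hm _)
          (Real.rpow_nonneg hx _)

theorem amgm {r : ℕ} (hr : 1 ≤ r) (m : Fin r → ℝ) (hm : ∀ j, 0 ≤ m j) (θ : ℝ) :
    (∏ j, m j) ^ θ ≤ ∑ j, m j ^ ((r : ℝ) * θ) := by
  have hr0 : (0 : ℝ) < r := by exact_mod_cast hr
  have h := Real.geom_mean_le_arith_mean_weighted Finset.univ (fun _ : Fin r => (1 : ℝ) / r)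
    (fun j => m j ^ ((r : ℝ) * θ)) (fun _ _ => by positivity)
    (by simp [hr0.ne']) (fun j _ => Real.rpow_nonneg (hm j) _)
  have e : ∀ j, (m j ^ ((r : ℝ) * θ)) ^ ((1 : ℝ) / r) = m j ^ θ := by
    intro j
    rw [← Real.rpow_mul (hm j)]
    congr 1
    field_simp
  simp only [e] at h
  rw [Real.finsetProd_rpow _ _ (fun j _ => hm j)] at h
  refine h.trans (Finset.sum_le_sum fun j _ => ?_)
  have : (1 : ℝ) / r ≤ 1 := by
    rw [div_le_one hr0]; exact_mod_cast hr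
  exact mul_le_of_le_one_left (Real.rpow_nonneg (hm j) _) this

/-- the pointwise bound of the integrand -/
theorem pw {r : ℕ} (hr : 1 ≤ r) {q : ℝ} (hq : 2 < q) {C1 : ℝ} (hC1 : 1 ≤ C1) (N : ℝ) (hN : 0 < N)
    (P m M : Fin r → ℝ) (Y : ℝ) (hY : 0 ≤ Y) (hP0 : ∀ j, 0 ≤ P j) (hm : ∀ j, 0 ≤ m j)
    (hM : ∀ j, (m j) ^ ((r : ℝ) * (1 - 2 / q)) ≤ M j)
    (h : Y < ∏ j, P j → ∀ j, P j ≤ 2 * C1 * N * m j) (μ μ' : ℝ) (hμ : 0 ≤ μ) (hμ' : 0 ≤ μ') :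
    min ((∏ j, P j) * (μ * μ')) (C1 ^ r * (μ * μ') ^ (1 / 2 : ℝ)) ≤ Y * (μ * μ') +
      (2 * C1 * N) ^ ((r : ℝ) * (1 - 2 / q)) * (C1 ^ r) ^ (2 / q) *
        ((∑ j, M j) * (μ ^ (1 - 1 / q) * μ' ^ (1 - 1 / q))) := by
  have hq0 : 0 < q := by linarith
  have hM0 : ∀ j, 0 ≤ M j := fun j => (Real.rpow_nonneg (hm j) _).trans (hM j)
  have hs0 : 0 ≤ ∑ j, M j := Finset.sum_nonneg fun j _ => hM0 j
  have hc : 0 < 2 * C1 * N := by positivity
  by_cases hc1 : Y < ∏ j, P j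
  · have hP := h hc1
    have hθ0 : 0 ≤ 2 / q := by positivity
    have hθ1 : 2 / q ≤ 1 := by rw [div_le_one hq0]; exact hq.le
    have hx : 0 ≤ (∏ j, P j) * (μ * μ') :=
      mul_nonneg (Finset.prod_nonneg fun j _ => hP0 j) (mul_nonneg hμ hμ')
    have hz : 0 ≤ C1 ^ r * (μ * μ') ^ (1 / 2 : ℝ) :=
      mul_nonneg (by positivity) (Real.rpow_nonneg (mul_nonneg hμ hμ') _)
    have h1 := min_le_rpow hx hz hθ0 hθ1
    have h2 : (∏ j, P j) ≤ (2 * C1 * N) ^ r * ∏ j, m j := by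
      calc (∏ j, P j) ≤ ∏ j, (2 * C1 * N * m j) :=
            Finset.prod_le_prod (fun j _ => hP0 j) fun j _ => hP j
        _ = (2 * C1 * N) ^ r * ∏ j, m j := by
            rw [Finset.prod_mul_distrib]; simp
    have h3 : (∏ j, P j) ^ (1 - 2 / q) ≤
        (2 * C1 * N) ^ ((r : ℝ) * (1 - 2 / q)) * ∑ j, M j := by
      calc (∏ j, P j) ^ (1 - 2 / q) ≤ ((2 * C1 * N) ^ r * ∏ j, m j) ^ (1 - 2 / q) :=
            Real.rpow_le_rpow (Finset.prod_nonneg fun j _ => hP0 j) h2 (by linarith)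
        _ = ((2 * C1 * N) ^ r) ^ (1 - 2 / q) * (∏ j, m j) ^ (1 - 2 / q) :=
            Real.mul_rpow (by positivity) (Finset.prod_nonneg fun j _ => hm j)
        _ = (2 * C1 * N) ^ ((r : ℝ) * (1 - 2 / q)) * (∏ j, m j) ^ (1 - 2 / q) := by
            rw [← Real.rpow_natCast (2 * C1 * N) r, ← Real.rpow_mul hc.le]
        _ ≤ (2 * C1 * N) ^ ((r : ℝ) * (1 - 2 / q)) * ∑ j, M j := by
            refine mul_le_mul_of_nonneg_left ?_ (Real.rpow_nonneg hc.le _)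
            exact (amgm hr m hm _).trans (Finset.sum_le_sum fun j _ => hM j)
    have h4 : (μ * μ') ^ (1 - 2 / q) * ((μ * μ') ^ (1 / 2 : ℝ)) ^ (2 / q) =
        μ ^ (1 - 1 / q) * μ' ^ (1 - 1 / q) := by
      have hmm : 0 ≤ μ * μ' := mul_nonneg hμ hμ'
      rw [← Real.rpow_mul hmm, ← Real.mul_rpow hμ hμ',
        ← Real.rpow_add_of_nonneg hmm (by linarith) (by positivity)]
      congr 1
      field_simp
      ring
    have h5 : ((∏ j, P j) * (μ * μ')) ^ (1 - 2 / q) *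
        (C1 ^ r * (μ * μ') ^ (1 / 2 : ℝ)) ^ (2 / q) =
        (∏ j, P j) ^ (1 - 2 / q) * (C1 ^ r) ^ (2 / q) * (μ ^ (1 - 1 / q) * μ' ^ (1 - 1 / q)) := by
      rw [Real.mul_rpow (Finset.prod_nonneg fun j _ => hP0 j) (mul_nonneg hμ hμ'),
        Real.mul_rpow (by positivity) (Real.rpow_nonneg (mul_nonneg hμ hμ') _), ← h4]
      ring
    rw [h5] at h1
    refine h1.trans ?_
    have h6 : 0 ≤ (C1 ^ r : ℝ) ^ (2 / q) := Real.rpow_nonneg (by positivity) _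
    have h7 : 0 ≤ μ ^ (1 - 1 / q) * μ' ^ (1 - 1 / q) :=
      mul_nonneg (Real.rpow_nonneg hμ _) (Real.rpow_nonneg hμ' _)
    have h8 : (∏ j, P j) ^ (1 - 2 / q) * (C1 ^ r) ^ (2 / q) * (μ ^ (1 - 1 / q) * μ' ^ (1 - 1 / q)) ≤
        (2 * C1 * N) ^ ((r : ℝ) * (1 - 2 / q)) * (C1 ^ r) ^ (2 / q) *
        ((∑ j, M j) * (μ ^ (1 - 1 / q) * μ' ^ (1 - 1 / q))) := by
      calc _ ≤ ((2 * C1 * N) ^ ((r : ℝ) * (1 - 2 / q)) * ∑ j, M j) * (C1 ^ r) ^ (2 / q) *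
            (μ ^ (1 - 1 / q) * μ' ^ (1 - 1 / q)) := by gcongr
        _ = _ := by ring
    have h9 : 0 ≤ Y * (μ * μ') := mul_nonneg hY (mul_nonneg hμ hμ')
    linarith
  · rw [not_lt] at hc1
    have h9 : 0 ≤ (2 * C1 * N) ^ ((r : ℝ) * (1 - 2 / q)) * (C1 ^ r) ^ (2 / q) *
        ((∑ j, M j) * (μ ^ (1 - 1 / q) * μ' ^ (1 - 1 / q))) := by
      have := Real.rpow_nonneg hμ (1 - 1 / q)
      have := Real.rpow_nonneg hμ' (1 - 1 / q)
      positivity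
    have := min_le_left ((∏ j, P j) * (μ * μ')) (C1 ^ r * (μ * μ') ^ (1 / 2 : ℝ))
    have h10 := mul_le_mul_of_nonneg_right hc1 (mul_nonneg hμ hμ')
    linarith

/-- every factor is large when the product is large -/
theorem factor_large {r : ℕ} (P : Fin r → ℝ) (B : ℝ) (hB : 0 < B)
    (hP0 : ∀ j, 0 ≤ P j) (hPB : ∀ j, P j ≤ B) (Y : ℝ) (h : Y < ∏ j, P j) (j : Fin r) :
    Y / B ^ (r - 1) ≤ P j := by
  rw [div_le_iff₀ (by positivity)]
  refine h.le.trans ?_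
  rw [← Finset.mul_prod_erase Finset.univ P (Finset.mem_univ j)]
  refine mul_le_mul_of_nonneg_left ?_ (hP0 j)
  calc ∏ i ∈ Finset.univ.erase j, P i ≤ ∏ _i ∈ Finset.univ.erase j, B :=
        Finset.prod_le_prod (fun i _ => hP0 i) fun i _ => hPB i
    _ = B ^ (r - 1) := by simp

theorem maj_nonneg (C1 G : ℝ) (N I : ℕ) (u : ℝ) : 0 ≤ maj C1 G N I u := by
  unfold maj
  refine Finset.sum_nonneg fun i _ => mul_nonneg (Real.rpow_nonneg (by norm_num) _) ?_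
  exact Set.indicator_nonneg (fun _ _ => zero_le_one) _

theorem maj_le {C1 G : ℝ} (hG : 0 ≤ G) (N I : ℕ) (u : ℝ) : maj C1 G N I u ≤ I := by
  unfold maj
  calc _ ≤ ∑ i ∈ Finset.range I, (1 : ℝ) := by
        refine Finset.sum_le_sum fun i _ => ?_
        refine mul_le_one₀ ?_ (Set.indicator_nonneg (fun _ _ => zero_le_one) _) ?_
        · refine Real.rpow_le_one_of_one_le_of_nonpos (by norm_num) ?_
          have : 0 ≤ (i : ℝ) * G := by positivity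
          linarith
        · exact Set.indicator_le' (fun _ _ => le_rfl) (fun _ _ => zero_le_one) _
    _ = I := by simp

theorem maj_one_le (C1 : ℝ) (N I : ℕ) (u : ℝ) : maj C1 1 N I u ≤ 2 := by
  unfold maj
  calc _ ≤ ∑ i ∈ Finset.range I, ((1 / 2 : ℝ)) ^ i := by
        refine Finset.sum_le_sum fun i _ => ?_
        have : (2 : ℝ) ^ (-((i : ℝ) * 1)) = (1 / 2) ^ i := by
          rw [mul_one, Real.rpow_neg (by norm_num), Real.rpow_natCast, one_div, inv_pow]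
        rw [this]
        refine mul_le_of_le_one_right (by positivity) ?_
        exact Set.indicator_le' (fun _ _ => le_rfl) (fun _ _ => zero_le_one) _
    _ ≤ 2 := by
        exact sum_geometric_two_le I

theorem maj_measurable (C1 G : ℝ) (N I : ℕ) : Measurable (maj C1 G N I) := by
  unfold maj
  refine Finset.measurable_sum _ fun i _ => ?_
  exact (measurable_const.indicator (measurableSet_arcs _ _ _)).const_mul _

theorem dint {T0 : ℝ} {f : ℝ × ℝ → ℝ} (hf : Measurable f) {B : ℝ} (hB : ∀ z, |f z| ≤ B) :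
    IntegrableOn f (Set.Icc (0 : ℝ) T0 ×ˢ Set.Icc (0 : ℝ) T0) ((volume : Measure ℝ).prod volume) := by
  have hfin : ((volume : Measure ℝ).prod volume) (Set.Icc (0 : ℝ) T0 ×ˢ Set.Icc (0 : ℝ) T0) < ⊤ := by
    rw [Measure.prod_prod]
    exact ENNReal.mul_lt_top (by simp) (by simp)
  refine Measure.integrableOn_of_bounded (M := B) hfin.ne hf.aestronglyMeasurable ?_
  exact Filter.Eventually.of_forall fun z => by simpa using hB z

theorem int_bound {T0 : ℝ} (μ : ℝ → ℝ) (hμm : Measurable μ) (hμ : ∀ t, 0 ≤ μ t ∧ μ t ≤ 1)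
    {r : ℕ} (f : ℝ → ℝ → ℝ) (hf : Measurable (Function.uncurry f)) (B : ℝ)
    (hfB : ∀ t s, |f t s| ≤ B) (F : ℝ → ℝ) (hF : Measurable F) (hF01 : ∀ t, 0 ≤ F t ∧ F t ≤ 1)
    (M : Fin r → ℝ → ℝ) (hM : ∀ j, Measurable (M j)) (B' : ℝ) (hMB : ∀ j u, 0 ≤ M j u ∧ M j u ≤ B')
    (Y K : ℝ) (h : ∀ t s, f t s ≤ Y * (μ t * μ s) + K * ((∑ j, M j (t - s)) * (F t * F s))) :
    ∫ t in Set.Icc (0 : ℝ) T0, ∫ s in Set.Icc (0 : ℝ) T0, f t s ≤
      Y * (∫ t in Set.Icc (0 : ℝ) T0, μ t) ^ 2 +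
      K * ∑ j, ∫ t in Set.Icc (0 : ℝ) T0, ∫ s in Set.Icc (0 : ℝ) T0, F t * F s * M j (t - s) := by
  have hB'0 : ∀ j : Fin r, 0 ≤ B' := fun j => (hMB j 0).1.trans (hMB j 0).2
  have i1 : IntegrableOn (fun z : ℝ × ℝ => f z.1 z.2) (Set.Icc (0 : ℝ) T0 ×ˢ Set.Icc (0 : ℝ) T0)
      ((volume : Measure ℝ).prod volume) := dint hf (fun z => hfB z.1 z.2)
  have i2 : IntegrableOn (fun z : ℝ × ℝ => μ z.1 * μ z.2)
      (Set.Icc (0 : ℝ) T0 ×ˢ Set.Icc (0 : ℝ) T0) ((volume : Measure ℝ).prod volume) := by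
    refine dint (B := 1) ((hμm.comp measurable_fst).mul (hμm.comp measurable_snd)) fun z => ?_
    rw [abs_of_nonneg (mul_nonneg (hμ _).1 (hμ _).1)]
    exact mul_le_one₀ (hμ _).2 (hμ _).1 (hμ _).2
  have i3 : ∀ j, IntegrableOn (fun z : ℝ × ℝ => F z.1 * F z.2 * M j (z.1 - z.2))
      (Set.Icc (0 : ℝ) T0 ×ˢ Set.Icc (0 : ℝ) T0) ((volume : Measure ℝ).prod volume) := by
    intro j
    refine dint (B := B') (((hF.comp measurable_fst).mul (hF.comp measurable_snd)).mul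
      ((hM j).comp (measurable_fst.sub measurable_snd))) fun z => ?_
    have h1 : 0 ≤ F z.1 * F z.2 := mul_nonneg (hF01 _).1 (hF01 _).1
    have h2 : F z.1 * F z.2 ≤ 1 := mul_le_one₀ (hF01 _).2 (hF01 _).1 (hF01 _).2
    rw [abs_of_nonneg (mul_nonneg h1 (hMB j _).1)]
    calc F z.1 * F z.2 * M j (z.1 - z.2) ≤ 1 * B' :=
          mul_le_mul h2 (hMB j _).2 (hMB j _).1 zero_le_one
      _ = B' := one_mul _
  have e1 : ∫ t in Set.Icc (0 : ℝ) T0, ∫ s in Set.Icc (0 : ℝ) T0, f t s =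
      ∫ z in Set.Icc (0 : ℝ) T0 ×ˢ Set.Icc (0 : ℝ) T0, f z.1 z.2 ∂((volume : Measure ℝ).prod volume) :=
    (setIntegral_prod (fun z : ℝ × ℝ => f z.1 z.2) i1).symm
  have e3 : ∀ j, ∫ t in Set.Icc (0 : ℝ) T0, ∫ s in Set.Icc (0 : ℝ) T0, F t * F s * M j (t - s) =
      ∫ z in Set.Icc (0 : ℝ) T0 ×ˢ Set.Icc (0 : ℝ) T0, F z.1 * F z.2 * M j (z.1 - z.2)
        ∂((volume : Measure ℝ).prod volume) :=
    fun j => (setIntegral_prod (fun z : ℝ × ℝ => F z.1 * F z.2 * M j (z.1 - z.2)) (i3 j)).symm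
  have e2 : ∫ z in Set.Icc (0 : ℝ) T0 ×ˢ Set.Icc (0 : ℝ) T0, μ z.1 * μ z.2
      ∂((volume : Measure ℝ).prod volume) = (∫ t in Set.Icc (0 : ℝ) T0, μ t) ^ 2 := by
    rw [setIntegral_prod_mul, sq]
  have i4 : IntegrableOn (fun z : ℝ × ℝ => Y * (μ z.1 * μ z.2) +
      K * ∑ j, F z.1 * F z.2 * M j (z.1 - z.2))
      (Set.Icc (0 : ℝ) T0 ×ˢ Set.Icc (0 : ℝ) T0) ((volume : Measure ℝ).prod volume) :=
    (i2.const_mul Y).add ((integrable_finsetSum _ fun j _ => i3 j).const_mul K)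
  rw [e1]
  calc _ ≤ ∫ z in Set.Icc (0 : ℝ) T0 ×ˢ Set.Icc (0 : ℝ) T0, (Y * (μ z.1 * μ z.2) +
      K * ∑ j, F z.1 * F z.2 * M j (z.1 - z.2)) ∂((volume : Measure ℝ).prod volume) := by
        refine integral_mono i1 i4 fun z => ?_
        have := h z.1 z.2
        have e : (∑ j, M j (z.1 - z.2)) * (F z.1 * F z.2) =
            ∑ j, F z.1 * F z.2 * M j (z.1 - z.2) := by
          rw [Finset.sum_mul]
          exact Finset.sum_congr rfl fun j _ => by ring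
        rw [e] at this
        exact this
    _ = _ := by
        rw [integral_add (i2.const_mul Y) ((integrable_finsetSum _ fun j _ => i3 j).const_mul K),
          integral_const_mul, integral_const_mul, integral_finsetSum _ fun j _ => i3 j, e2]
        simp only [e3]

theorem final_alg {q v y S L N e : ℝ} (hq : 2 < q) (hv : 0 ≤ v) (hy : 0 < y) (hS : 0 ≤ S)
    (hL : 0 ≤ L) (hN : 0 < N) (h : y ^ 2 * v ^ 2 ≤ S * (L * N ^ e) * v ^ (2 - 2 / q)) :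
    v ≤ L ^ (q / 2) * N ^ (e * (q / 2)) * S ^ (q / 2) * y ^ (-q) := by
  have hq0 : 0 < q := by linarith
  rcases hv.eq_or_lt with h0 | h0
  · rw [← h0]
    have := Real.rpow_nonneg hL (q / 2)
    have := Real.rpow_nonneg hN.le (e * (q / 2))
    have := Real.rpow_nonneg hS (q / 2)
    have := Real.rpow_nonneg hy.le (-q)
    positivity
  · have h1 : v ^ 2 = v ^ (2 / q) * v ^ (2 - 2 / q) := by
      rw [← Real.rpow_add h0, ← Real.rpow_natCast]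
      congr 1
      push_cast
      ring
    have h2 : 0 < v ^ (2 - 2 / q) := Real.rpow_pos_of_pos h0 _
    have h3 : y ^ 2 * v ^ (2 / q) ≤ S * (L * N ^ e) := by
      rw [h1, ← mul_assoc] at h
      exact le_of_mul_le_mul_right h h2
    have hNe : 0 ≤ N ^ e := Real.rpow_nonneg hN.le _
    have h4 : (y ^ 2 * v ^ (2 / q)) ^ (q / 2) ≤ (S * (L * N ^ e)) ^ (q / 2) :=
      Real.rpow_le_rpow (by positivity) h3 (by positivity)
    have h5 : (y ^ 2 * v ^ (2 / q)) ^ (q / 2) = y ^ q * v := by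
      rw [Real.mul_rpow (by positivity) (by positivity), ← Real.rpow_mul h0.le,
        ← Real.rpow_natCast, ← Real.rpow_mul hy.le]
      have e1 : ((2 : ℕ) : ℝ) * (q / 2) = q := by push_cast; ring
      have e2 : 2 / q * (q / 2) = 1 := by field_simp
      rw [e1, e2, Real.rpow_one]
    have h6 : (S * (L * N ^ e)) ^ (q / 2) = L ^ (q / 2) * N ^ (e * (q / 2)) * S ^ (q / 2) := by
      rw [Real.mul_rpow hS (by positivity), Real.mul_rpow hL hNe, ← Real.rpow_mul hN.le]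
      ring
    rw [h5, h6] at h4
    have hyq : 0 < y ^ q := Real.rpow_pos_of_pos hy _
    rw [Real.rpow_neg hy.le, ← div_eq_mul_inv, le_div_iff₀ hyq, mul_comm]
    exact h4

/-- the case of large `N` -/
theorem large_big {r : ℕ} (hr : 1 ≤ r) {q : ℝ} (hq2 : 2 < q) (a : Fin r → ℝ)
    (T0 : ℝ) (hT0 : 0 < T0) {C1 : ℝ} (hC1 : 1 ≤ C1) (N : ℕ) (hN1 : 1 ≤ N)
    (s : Finset ℤ) (w : ℤ → ℝ)
    (hs : ∀ k : ℤ, |(k : ℝ)| ≤ N → k ∈ s) (hw : ∀ k, 0 ≤ w k ∧ w k ≤ C1)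
    (hw1 : ∀ k : ℤ, |(k : ℝ)| ≤ N → 1 ≤ w k)
    (hker : ∀ (a t : ℝ) (x : UnitAddCircle) (I : ℕ), (2 : ℝ) ^ I ≤ N →
      ‖∑ k ∈ s, (w k : ℂ) * cexp (-((t * (a * (k : ℝ) ^ 2) : ℝ) : ℂ) * Complex.I) * fourier k x‖ ≤
        C1 * Amaj C1 N I (a * t / π))
    (Cf : Fin r → ℝ) (δ : ℝ) (hδ : 0 < δ) (hδ1 : 8 * δ ≤ 1)
    (htime : ∀ j, ∀ I : ℕ, (2 : ℝ) ^ I ≤ (N : ℝ) ^ (8 * δ) →
      ∀ F : ℝ → ℝ, Measurable F → (∀ t, 0 ≤ F t ∧ F t ≤ 1) →
      ∫ t in Set.Icc (0 : ℝ) T0, ∫ s in Set.Icc (0 : ℝ) T0,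
        F t * F s * maj C1 ((r : ℝ) * (1 - 2 / q)) N I (a j / π * (t - s)) ≤
      Cf j * (N : ℝ) ^ (-(4 / q)) * (∫ t in Set.Icc (0 : ℝ) T0, F t ^ (q / (q - 1))) ^ (2 - 2 / q))
    (hNd : max 2 (4 * C1 * (3 * C1) ^ (r - 1)) ≤ (N : ℝ) ^ δ)
    (s0 : Finset (Fin r → ℤ)) (b : (Fin r → ℤ) → ℂ) (hs0 : ∀ k ∈ s0, ∀ j, |(k j : ℝ)| ≤ N)
    (y : ℝ) (hy : 0 < y)
    (hyl : (N : ℝ) ^ ((r : ℝ) / 2 - δ) * (∑ k ∈ s0, ‖b k‖ ^ 2) ^ (1 / 2 : ℝ) ≤ y)
    (hS : 0 < ∑ k ∈ s0, ‖b k‖ ^ 2) :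
    y ^ 2 * (∫ t in Set.Icc (0 : ℝ) T0, secV s0 b (fun k => ∑ j, a j * (k j : ℝ) ^ 2) y t) ^ 2 ≤
      (∑ k ∈ s0, ‖b k‖ ^ 2) * ((2 * ((2 * C1) ^ ((r : ℝ) * (1 - 2 / q)) * (C1 ^ r) ^ (2 / q) *
        (2 ^ ((r : ℝ) * (1 - 2 / q)) * ∑ j, Cf j))) * (N : ℝ) ^ ((r : ℝ) * (1 - 2 / q) - 4 / q)) *
      (∫ t in Set.Icc (0 : ℝ) T0, secV s0 b (fun k => ∑ j, a j * (k j : ℝ) ^ 2) y t) ^ (2 - 2 / q) := by
  set om : (Fin r → ℤ) → ℝ := fun k => ∑ j, a j * (k j : ℝ) ^ 2 with hom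
  set S : ℝ := ∑ k ∈ s0, ‖b k‖ ^ 2 with hSdef
  set μ : ℝ → ℝ := secV s0 b om y with hμdef
  set v : ℝ := ∫ t in Set.Icc (0 : ℝ) T0, μ t with hv
  set G : ℝ := (r : ℝ) * (1 - 2 / q) with hG
  have hq0 : 0 < q := by linarith
  have hN0 : (0 : ℝ) < N := by exact_mod_cast hN1
  have hN1' : (1 : ℝ) ≤ N := by exact_mod_cast hN1
  have hr0 : (0 : ℝ) < r := by exact_mod_cast hr
  have hG0 : 0 < G := by
    have : 2 / q < 1 := by rw [div_lt_one hq0]; exact hq2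
    have : 0 < 1 - 2 / q := by linarith
    positivity
  -- the number of levels
  obtain ⟨n, hn1, hn2⟩ := exists_nat_pow_near (x := (N : ℝ) ^ (3 * δ)) (y := 2)
    (Real.one_le_rpow hN1' (by positivity)) (by norm_num)
  set I0 : ℕ := n + 1 with hI0
  have hI1 : (2 : ℝ) ^ I0 ≤ (N : ℝ) ^ (8 * δ) := by
    calc (2 : ℝ) ^ I0 = 2 * 2 ^ n := by rw [hI0, pow_succ]; ring
      _ ≤ (N : ℝ) ^ δ * (N : ℝ) ^ (3 * δ) :=
          mul_le_mul ((le_max_left _ _).trans hNd) hn1 (by positivity) (by positivity)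
      _ = (N : ℝ) ^ (4 * δ) := by rw [← Real.rpow_add hN0]; congr 1; ring
      _ ≤ (N : ℝ) ^ (8 * δ) := Real.rpow_le_rpow_of_exponent_le hN1' (by linarith)
  have hI2 : (2 : ℝ) ^ I0 ≤ N := by
    calc (2 : ℝ) ^ I0 ≤ (N : ℝ) ^ (8 * δ) := hI1
      _ ≤ (N : ℝ) ^ (1 : ℝ) := Real.rpow_le_rpow_of_exponent_le hN1' hδ1
      _ = N := Real.rpow_one _
  have hI3 : (2 : ℝ) ^ (-(I0 : ℝ)) ≤ (N : ℝ) ^ (-(3 * δ)) := by
    rw [Real.rpow_neg (by norm_num), Real.rpow_neg hN0.le, Real.rpow_natCast]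
    exact inv_anti₀ (by positivity) hn2.le
  -- the functions P
  set P : Fin r → ℝ → ℝ := fun j t => C1 * Amaj C1 N I0 (a j * t / π) with hPdef
  have hAm : ∀ u, 0 ≤ Amaj C1 N I0 u ∧ Amaj C1 N I0 u ≤ 3 * N := by
    intro u
    unfold Amaj
    have h1 := maj_nonneg C1 1 N I0 u
    have h2 := maj_one_le C1 N I0 u
    have h3 : (0 : ℝ) ≤ 2 ^ (-(I0 : ℝ)) := by positivity
    have h4 : (2 : ℝ) ^ (-(I0 : ℝ)) ≤ 1 :=
      Real.rpow_le_one_of_one_le_of_nonpos (by norm_num) (by simp)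
    constructor
    · positivity
    · nlinarith
  have hP0 : ∀ j t, 0 ≤ P j t := fun j t => mul_nonneg (by linarith) (hAm _).1
  have hPB : ∀ j t, P j t ≤ 3 * C1 * N := fun j t => by
    calc P j t ≤ C1 * (3 * N) := mul_le_mul_of_nonneg_left (hAm _).2 (by linarith)
      _ = 3 * C1 * N := by ring
  have hPm : ∀ j, Measurable (P j) := by
    intro j
    simp only [hPdef, Amaj]
    refine Measurable.const_mul (Measurable.const_mul (Measurable.const_add ?_ _) _) _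
    exact (maj_measurable C1 1 N I0).comp (by fun_prop)
  have hdual := duality a N C1 hC1 s w hs hw hw1 P hPm
    (fun j t x => hker (a j) t x I0 hI2) ⟨3 * C1 * N, fun j t => hPB j t⟩ T0 hT0 s0 hs0 b y hy
  rw [← hom, ← hSdef] at hdual
  have hμm : Measurable μ := secV_measurable s0 b om y
  have hμ : ∀ t, 0 ≤ μ t ∧ μ t ≤ 1 := fun t => ⟨secV_nonneg s0 b om y t, secV_le_one s0 b om y t⟩
  set F : ℝ → ℝ := fun t => μ t ^ (1 - 1 / q) with hF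
  have hq1 : 0 ≤ 1 - 1 / q := by
    have : 1 / q ≤ 1 := by rw [div_le_one hq0]; linarith
    linarith
  have hFm : Measurable F := hμm.pow_const _
  have hF01 : ∀ t, 0 ≤ F t ∧ F t ≤ 1 := fun t =>
    ⟨Real.rpow_nonneg (hμ t).1 _, Real.rpow_le_one (hμ t).1 (hμ t).2 hq1⟩
  have hFq : ∀ t, F t ^ (q / (q - 1)) = μ t := by
    intro t
    have hq1' : q - 1 ≠ 0 := by linarith
    simp only [hF]
    rw [← Real.rpow_mul (hμ t).1]
    have : (1 - 1 / q) * (q / (q - 1)) = 1 := by field_simp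
    rw [this, Real.rpow_one]
  set M : Fin r → ℝ → ℝ := fun j u => 2 ^ G * maj C1 G N I0 (a j / π * u) with hM
  have hMm : ∀ j, Measurable (M j) := fun j =>
    ((maj_measurable C1 G N I0).comp (by fun_prop)).const_mul _
  have hMB : ∀ j u, 0 ≤ M j u ∧ M j u ≤ 2 ^ G * I0 := fun j u =>
    ⟨mul_nonneg (by positivity) (maj_nonneg _ _ _ _ _),
      mul_le_mul_of_nonneg_left (maj_le hG0.le _ _ _) (by positivity)⟩
  set Y : ℝ := y ^ 2 / (2 * S) with hY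
  set K : ℝ := (2 * C1 * N) ^ G * (C1 ^ r) ^ (2 / q) with hK
  set f : ℝ → ℝ → ℝ := fun t t' => min ((∏ j, P j (t - t')) * (μ t * μ t'))
    (C1 ^ r * (μ t * μ t') ^ (1 / 2 : ℝ)) with hf
  have hfm : Measurable (Function.uncurry f) := by
    have m1 : Measurable fun z : ℝ × ℝ => ∏ j, P j (z.1 - z.2) :=
      Finset.measurable_prod _ fun j _ => (hPm j).comp (measurable_fst.sub measurable_snd)
    have m2 : Measurable fun z : ℝ × ℝ => μ z.1 * μ z.2 :=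
      (hμm.comp measurable_fst).mul (hμm.comp measurable_snd)
    exact (m1.mul m2).min ((m2.pow_const _).const_mul _)
  have hfB : ∀ t t', |f t t'| ≤ C1 ^ r := by
    intro t t'
    have h1 : 0 ≤ μ t * μ t' := mul_nonneg (hμ t).1 (hμ t').1
    have h2 : μ t * μ t' ≤ 1 := mul_le_one₀ (hμ t).2 (hμ t').1 (hμ t').2
    have h3 : 0 ≤ f t t' := le_min (mul_nonneg (Finset.prod_nonneg fun j _ => hP0 j _) h1)
      (mul_nonneg (by positivity) (Real.rpow_nonneg h1 _))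
    rw [abs_of_nonneg h3]
    refine (min_le_right _ _).trans ?_
    exact mul_le_of_le_one_right (by positivity) (Real.rpow_le_one h1 h2 (by norm_num))
  have hYlow : (N : ℝ) ^ ((r : ℝ) - 2 * δ) / 2 ≤ Y := by
    have h1 : (N : ℝ) ^ ((r : ℝ) - 2 * δ) * S ≤ y ^ 2 := by
      calc (N : ℝ) ^ ((r : ℝ) - 2 * δ) * S =
          ((N : ℝ) ^ ((r : ℝ) / 2 - δ) * S ^ (1 / 2 : ℝ)) ^ 2 := by
            rw [mul_pow, ← Real.rpow_natCast, ← Real.rpow_natCast, ← Real.rpow_mul hN0.le,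
              ← Real.rpow_mul hS.le]
            congr 1
            · congr 1; push_cast; ring
            · norm_num
        _ ≤ y ^ 2 := pow_le_pow_left₀ (by positivity) hyl 2
    rw [hY, div_le_div_iff₀ (by norm_num) (by positivity)]
    nlinarith
  have hpw : ∀ t t', f t t' ≤ Y * (μ t * μ t') + K * ((∑ j, M j (t - t')) * (F t * F t')) := by
    intro t t'
    refine pw hr hq2 hC1 N hN0 (fun j => P j (t - t')) (fun j => maj C1 1 N I0 (a j * (t - t') / π))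
      (fun j => M j (t - t')) Y (by positivity) (fun j => hP0 j _) (fun j => maj_nonneg _ _ _ _ _)
      ?_ ?_ (μ t) (μ t') (hμ t).1 (hμ t').1
    · intro j
      have h1 := maj_pow C1 G hG0 N I0 (a j * (t - t') / π)
      have h2 : a j * (t - t') / π = a j / π * (t - t') := by ring
      rw [h2] at h1 ⊢
      exact h1
    · intro hlt j
      have h1 := factor_large (fun j => P j (t - t')) (3 * C1 * N) (by positivity)
        (fun j => hP0 j _) (fun j => hPB j _) Y hlt j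
      have h2 : 2 * (C1 * (N * (2 : ℝ) ^ (-(I0 : ℝ)))) ≤ Y / (3 * C1 * N) ^ (r - 1) := by
        rw [le_div_iff₀ (by positivity)]
        calc 2 * (C1 * (N * (2 : ℝ) ^ (-(I0 : ℝ)))) * (3 * C1 * N) ^ (r - 1) ≤
            2 * (C1 * (N * (N : ℝ) ^ (-(3 * δ)))) * (3 * C1 * N) ^ (r - 1) := by gcongr
          _ = (4 * C1 * (3 * C1) ^ (r - 1)) * ((N : ℝ) ^ ((r : ℝ) - 3 * δ) / 2) := by
              have e1 : (N : ℝ) * (N : ℝ) ^ (-(3 * δ)) * (N : ℝ) ^ (r - 1) =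
                  (N : ℝ) ^ ((r : ℝ) - 3 * δ) := by
                have : (N : ℝ) * (N : ℝ) ^ (r - 1) = (N : ℝ) ^ r := by
                  rw [← pow_succ']; congr 1; omega
                calc (N : ℝ) * (N : ℝ) ^ (-(3 * δ)) * (N : ℝ) ^ (r - 1) =
                    (N : ℝ) * (N : ℝ) ^ (r - 1) * (N : ℝ) ^ (-(3 * δ)) := by ring
                  _ = (N : ℝ) ^ ((r : ℝ) - 3 * δ) := by
                    rw [this, ← Real.rpow_natCast, ← Real.rpow_add hN0]; congr 1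
              rw [← e1, mul_pow (3 * C1)]
              ring
          _ ≤ (N : ℝ) ^ δ * ((N : ℝ) ^ ((r : ℝ) - 3 * δ) / 2) :=
              mul_le_mul_of_nonneg_right ((le_max_right _ _).trans hNd) (by positivity)
          _ = (N : ℝ) ^ ((r : ℝ) - 2 * δ) / 2 := by
              rw [mul_div_assoc', ← Real.rpow_add hN0]
              congr 2
              ring
          _ ≤ Y := hYlow
      have h3 : P j (t - t') = C1 * (N * (2 : ℝ) ^ (-(I0 : ℝ))) +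
          C1 * N * maj C1 1 N I0 (a j * (t - t') / π) := by
        simp only [hPdef, Amaj]
        ring
      have h4 : 2 * (C1 * (N * (2 : ℝ) ^ (-(I0 : ℝ)))) ≤ P j (t - t') := h2.trans h1
      have h5 : P j (t - t') ≤ 2 * C1 * N * maj C1 1 N I0 (a j * (t - t') / π) := by
        rw [h3] at h4 ⊢
        linarith
      exact h5
  have hint := int_bound (T0 := T0) μ hμm hμ f hfm (C1 ^ r) hfB F hFm hF01 M hMm (2 ^ G * I0) hMB
    Y K hpw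
  have hM2 : ∀ j, ∫ t in Set.Icc (0 : ℝ) T0, ∫ s in Set.Icc (0 : ℝ) T0, F t * F s * M j (t - s) ≤
      2 ^ G * (Cf j * (N : ℝ) ^ (-(4 / q)) * v ^ (2 - 2 / q)) := by
    intro j
    have h1 := htime j I0 hI1 F hFm hF01
    simp only [hFq] at h1
    have e : ∫ t in Set.Icc (0 : ℝ) T0, ∫ s in Set.Icc (0 : ℝ) T0, F t * F s * M j (t - s) =
        2 ^ G * ∫ t in Set.Icc (0 : ℝ) T0, ∫ s in Set.Icc (0 : ℝ) T0,
          F t * F s * maj C1 G N I0 (a j / π * (t - s)) := by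
      rw [← integral_const_mul]
      refine integral_congr_ae (Filter.Eventually.of_forall fun t => ?_)
      simp only
      rw [← integral_const_mul]
      refine integral_congr_ae (Filter.Eventually.of_forall fun s => ?_)
      simp only [hM]
      ring
    rw [e]
    exact mul_le_mul_of_nonneg_left h1 (by positivity)
  have hK0 : 0 ≤ K := by positivity
  have h1 : ∫ t in Set.Icc (0 : ℝ) T0, ∫ s in Set.Icc (0 : ℝ) T0, f t s ≤
      Y * v ^ 2 + K * ∑ j, 2 ^ G * (Cf j * (N : ℝ) ^ (-(4 / q)) * v ^ (2 - 2 / q)) :=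
    hint.trans (by
      have := mul_le_mul_of_nonneg_left (Finset.sum_le_sum fun j (_ : j ∈ Finset.univ) => hM2 j) hK0
      linarith)
  have h2 : y ^ 2 * v ^ 2 ≤ S * (Y * v ^ 2 +
      K * ∑ j, 2 ^ G * (Cf j * (N : ℝ) ^ (-(4 / q)) * v ^ (2 - 2 / q))) :=
    hdual.trans (mul_le_mul_of_nonneg_left h1 hS.le)
  have h3 : S * Y = y ^ 2 / 2 := by rw [hY]; field_simp
  have h4 : K * ∑ j, 2 ^ G * (Cf j * (N : ℝ) ^ (-(4 / q)) * v ^ (2 - 2 / q)) =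
      ((2 * C1) ^ G * (C1 ^ r) ^ (2 / q) * (2 ^ G * ∑ j, Cf j)) * (N : ℝ) ^ (G - 4 / q) *
        v ^ (2 - 2 / q) := by
    have e1 : ∑ j, 2 ^ G * (Cf j * (N : ℝ) ^ (-(4 / q)) * v ^ (2 - 2 / q)) =
        (2 ^ G * ∑ j, Cf j) * ((N : ℝ) ^ (-(4 / q)) * v ^ (2 - 2 / q)) := by
      rw [Finset.mul_sum, Finset.sum_mul]
      exact Finset.sum_congr rfl fun j _ => by ring
    have e2 : (2 * C1 * (N : ℝ)) ^ G = (2 * C1) ^ G * (N : ℝ) ^ G :=
      Real.mul_rpow (by linarith) hN0.le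
    have e3 : (N : ℝ) ^ (G - 4 / q) = (N : ℝ) ^ G * (N : ℝ) ^ (-(4 / q)) := by
      rw [← Real.rpow_add hN0]; congr 1
    rw [e1, hK, e2, e3]
    ring
  rw [mul_add, ← mul_assoc, h3, h4] at h2
  have h5 : y ^ 2 * v ^ 2 ≤ 2 * (S * (((2 * C1) ^ G * (C1 ^ r) ^ (2 / q) * (2 ^ G * ∑ j, Cf j)) *
      (N : ℝ) ^ (G - 4 / q) * v ^ (2 - 2 / q))) := by linarith
  calc _ ≤ _ := h5
    _ = _ := by ring

theorem large {r : ℕ} (hr : 1 ≤ r) {q : ℝ} (hq : 2 + 4 / (r : ℝ) < q) (a : Fin r → ℝ)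
    (ha : ∀ j, 0 < a j) (T0 : ℝ) (hT0 : 0 < T0) (haT : ∀ j, a j * T0 ≤ π) :
    ∃ C δ : ℝ, 0 < C ∧ 0 < δ ∧ ∀ N : ℕ, 1 ≤ N →
      ∀ (s0 : Finset (Fin r → ℤ)) (b : (Fin r → ℤ) → ℂ), (∀ k ∈ s0, ∀ j, |(k j : ℝ)| ≤ N) →
      ∀ y : ℝ, 0 < y → (N : ℝ) ^ ((r : ℝ) / 2 - δ) * (∑ k ∈ s0, ‖b k‖ ^ 2) ^ (1 / 2 : ℝ) ≤ y →
      ∫ t in Set.Icc (0 : ℝ) T0, secV s0 b (fun k => ∑ j, a j * (k j : ℝ) ^ 2) y t ≤
        C * (N : ℝ) ^ ((r : ℝ) * q / 2 - (r + 2)) * (∑ k ∈ s0, ‖b k‖ ^ 2) ^ (q / 2) * y ^ (-q) := by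
  have hr0 : (0 : ℝ) < r := by exact_mod_cast hr
  have h4r : 0 < 4 / (r : ℝ) := by positivity
  have hq2 : 2 < q := by linarith
  have hq0 : 0 < q := by linarith
  have hrq : 4 < r * (q - 2) := by
    have : 4 / (r : ℝ) < q - 2 := by linarith
    rw [div_lt_iff₀ hr0] at this
    linarith
  have hG : 4 / q < (r : ℝ) * (1 - 2 / q) := by
    have e : (r : ℝ) * (1 - 2 / q) = (r * (q - 2)) / q := by field_simp
    rw [e]
    exact div_lt_div_of_pos_right hrq hq0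
  obtain ⟨C1, hC1, hk⟩ := ker1
  have ht : ∀ j : Fin r, ∃ C δ : ℝ, 0 < C ∧ 0 < δ ∧ ∀ N I : ℕ, 1 ≤ N → (2 : ℝ) ^ I ≤ (N : ℝ) ^ δ →
      ∀ F : ℝ → ℝ, Measurable F → (∀ t, 0 ≤ F t ∧ F t ≤ 1) →
      ∫ t in Set.Icc (0 : ℝ) T0, ∫ s in Set.Icc (0 : ℝ) T0,
        F t * F s * maj C1 ((r : ℝ) * (1 - 2 / q)) N I (a j / π * (t - s)) ≤
      C * (N : ℝ) ^ (-(4 / q)) * (∫ t in Set.Icc (0 : ℝ) T0, F t ^ (q / (q - 1))) ^ (2 - 2 / q) := by
    intro j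
    refine timeKer' hq2 hG C1 hC1 (a j / π) T0 (div_pos (ha j) Real.pi_pos) hT0 ?_
    rw [div_mul_eq_mul_div, div_le_one Real.pi_pos]
    exact haT j
  choose Cf δf hCf hδf htime using ht
  have hne : (Finset.univ : Finset (Fin r)).Nonempty := ⟨⟨0, hr⟩, Finset.mem_univ _⟩
  set δ1 : ℝ := min 1 (Finset.univ.inf' hne δf) with hδ1
  have hδ1pos : 0 < δ1 := by
    rw [hδ1, lt_min_iff]
    exact ⟨zero_lt_one, (Finset.lt_inf'_iff _).2 fun j _ => hδf j⟩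
  have hδ1le : ∀ j, δ1 ≤ δf j := fun j =>
    (min_le_right _ _).trans (Finset.inf'_le _ (Finset.mem_univ j))
  set δ : ℝ := δ1 / 8 with hδ
  have hδpos : 0 < δ := by positivity
  have h8 : 8 * δ = δ1 := by rw [hδ]; ring
  have h81 : 8 * δ ≤ 1 := by rw [h8]; exact min_le_left _ _
  set X : ℝ := max 2 (4 * C1 * (3 * C1) ^ (r - 1)) with hX
  have hX0 : 0 < X := lt_of_lt_of_le (by norm_num) (le_max_left _ _)
  set N0 : ℕ := ⌈X ^ (1 / δ)⌉₊ + 2 with hN0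
  set L : ℝ := 2 * ((2 * C1) ^ ((r : ℝ) * (1 - 2 / q)) * (C1 ^ r) ^ (2 / q) *
        (2 ^ ((r : ℝ) * (1 - 2 / q)) * ∑ j, Cf j)) with hL
  have hCs : 0 < ∑ j, Cf j := Finset.sum_pos (fun j _ => hCf j) hne
  have hLpos : 0 < L := by positivity
  set Cb : ℝ := T0 * ((2 * (N0 : ℝ) + 1) ^ r) ^ (q / 2) with hCb
  have hCbpos : 0 < Cb := by positivity
  have hexp : 0 < (r : ℝ) * q / 2 - (r + 2) := by linarith
  refine ⟨L ^ (q / 2) + Cb, δ, by positivity, hδpos, ?_⟩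
  intro N hN1 s0 b hs0 y hy hyl
  set om : (Fin r → ℤ) → ℝ := fun k => ∑ j, a j * (k j : ℝ) ^ 2 with hom
  set S : ℝ := ∑ k ∈ s0, ‖b k‖ ^ 2 with hSdef
  have hS0 : 0 ≤ S := Finset.sum_nonneg fun k _ => by positivity
  have hNpos : (0 : ℝ) < N := by exact_mod_cast hN1
  have hN1' : (1 : ℝ) ≤ N := by exact_mod_cast hN1
  have hμ : ∀ t, 0 ≤ secV s0 b om y t ∧ secV s0 b om y t ≤ 1 := fun t =>
    ⟨secV_nonneg s0 b om y t, secV_le_one s0 b om y t⟩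
  have hv0 : 0 ≤ ∫ t in Set.Icc (0 : ℝ) T0, secV s0 b om y t :=
    integral_nonneg fun t => (hμ t).1
  have hrhs : 0 ≤ (N : ℝ) ^ ((r : ℝ) * q / 2 - (r + 2)) * S ^ (q / 2) * y ^ (-q) := by positivity
  by_cases hbig : ((2 * (N : ℝ) + 1) ^ r * S) ^ (1 / 2 : ℝ) ≤ y
  · have : ∫ t in Set.Icc (0 : ℝ) T0, secV s0 b om y t = 0 := by
      have : ∀ t, secV s0 b om y t = 0 := fun t => secV_zero N s0 hs0 b om y t hbig
      simp [this]
    rw [this]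
    positivity
  rw [not_le] at hbig
  have hSpos : 0 < S := by
    rcases hS0.eq_or_lt with h | h
    · exfalso
      rw [← h, mul_zero, Real.zero_rpow (by norm_num)] at hbig
      linarith
    · exact h
  by_cases hNN : N0 ≤ N
  · have hNd : X ≤ (N : ℝ) ^ δ := by
      have h1 : X ^ (1 / δ) ≤ N := by
        have : X ^ (1 / δ) ≤ (⌈X ^ (1 / δ)⌉₊ : ℝ) := Nat.le_ceil _
        have h2 : ((⌈X ^ (1 / δ)⌉₊ : ℕ) : ℝ) ≤ N := by
          exact_mod_cast (by omega : ⌈X ^ (1 / δ)⌉₊ ≤ N)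
        linarith
      calc X = (X ^ (1 / δ)) ^ δ := by
            rw [← Real.rpow_mul hX0.le]
            have : 1 / δ * δ = 1 := by field_simp
            rw [this, Real.rpow_one]
        _ ≤ (N : ℝ) ^ δ := Real.rpow_le_rpow (by positivity) h1 hδpos.le
    obtain ⟨s, w, hs, hw, hw1, hker⟩ := hk N (by omega)
    have hmain := large_big hr hq2 a T0 hT0 hC1 N hN1 s w hs hw hw1 hker Cf δ hδpos h81
      (fun j I hI F hF hF01 => htime j N I hN1 (hI.trans (by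
        rw [h8]
        exact Real.rpow_le_rpow_of_exponent_le hN1' (hδ1le j))) F hF hF01)
      hNd s0 b hs0 y hy hyl hSpos
    have hfin := final_alg hq2 hv0 hy hS0 hLpos.le hNpos hmain
    have he : ((r : ℝ) * (1 - 2 / q) - 4 / q) * (q / 2) = (r : ℝ) * q / 2 - (r + 2) := by
      field_simp
      ring
    rw [he] at hfin
    refine hfin.trans ?_
    have : 0 ≤ Cb * ((N : ℝ) ^ ((r : ℝ) * q / 2 - (r + 2)) * S ^ (q / 2) * y ^ (-q)) := by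
      positivity
    calc _ ≤ L ^ (q / 2) * (N : ℝ) ^ ((r : ℝ) * q / 2 - (r + 2)) * S ^ (q / 2) * y ^ (-q) +
        Cb * ((N : ℝ) ^ ((r : ℝ) * q / 2 - (r + 2)) * S ^ (q / 2) * y ^ (-q)) :=
          le_add_of_nonneg_right this
      _ = _ := by ring
  · rw [not_le] at hNN
    have hvT : ∫ t in Set.Icc (0 : ℝ) T0, secV s0 b om y t ≤ T0 := by
      calc ∫ t in Set.Icc (0 : ℝ) T0, secV s0 b om y t ≤ ∫ t in Set.Icc (0 : ℝ) T0, (1 : ℝ) := by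
            refine integral_mono_of_nonneg (Filter.Eventually.of_forall fun t => (hμ t).1)
              (by simp) (Filter.Eventually.of_forall fun t => (hμ t).2)
        _ = T0 := by simp [hT0.le]
    have h1 : y ^ q ≤ ((2 * (N0 : ℝ) + 1) ^ r) ^ (q / 2) * S ^ (q / 2) := by
      calc y ^ q ≤ (((2 * (N : ℝ) + 1) ^ r * S) ^ (1 / 2 : ℝ)) ^ q :=
            Real.rpow_le_rpow hy.le hbig.le hq0.le
        _ = ((2 * (N : ℝ) + 1) ^ r * S) ^ (q / 2) := by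
            rw [← Real.rpow_mul (by positivity)]; congr 1; ring
        _ = ((2 * (N : ℝ) + 1) ^ r) ^ (q / 2) * S ^ (q / 2) :=
            Real.mul_rpow (by positivity) hS0
        _ ≤ _ := by
            have : (N : ℝ) ≤ N0 := by exact_mod_cast hNN.le
            gcongr
    have h2 : (1 : ℝ) ≤ (N : ℝ) ^ ((r : ℝ) * q / 2 - (r + 2)) := Real.one_le_rpow hN1' hexp.le
    have h3 : 1 ≤ ((2 * (N0 : ℝ) + 1) ^ r) ^ (q / 2) * S ^ (q / 2) * y ^ (-q) := by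
      rw [Real.rpow_neg hy.le, ← div_eq_mul_inv, one_le_div (Real.rpow_pos_of_pos hy _)]
      exact h1
    have h4 : T0 ≤ Cb * (N : ℝ) ^ ((r : ℝ) * q / 2 - (r + 2)) * S ^ (q / 2) * y ^ (-q) := by
      calc T0 = T0 * (1 * 1) := by ring
        _ ≤ T0 * ((N : ℝ) ^ ((r : ℝ) * q / 2 - (r + 2)) *
            (((2 * (N0 : ℝ) + 1) ^ r) ^ (q / 2) * S ^ (q / 2) * y ^ (-q))) := by gcongr
        _ = _ := by rw [hCb]; ring
    have h5 : 0 ≤ L ^ (q / 2) * ((N : ℝ) ^ ((r : ℝ) * q / 2 - (r + 2)) * S ^ (q / 2) * y ^ (-q)) := by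
      positivity
    calc _ ≤ T0 := hvT
      _ ≤ _ := h4
      _ ≤ L ^ (q / 2) * ((N : ℝ) ^ ((r : ℝ) * q / 2 - (r + 2)) * S ^ (q / 2) * y ^ (-q)) +
          Cb * (N : ℝ) ^ ((r : ℝ) * q / 2 - (r + 2)) * S ^ (q / 2) * y ^ (-q) :=
            le_add_of_nonneg_left h5
      _ = _ := by ring

end STE
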