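import Pool.Agent.STE.Split
import Pool.Agent.STE.Interp

/-!
# STE/Level: the time kernel of one level

PROOF. Let `Q = ⌈C1 4^i⌉₊ ≤ 2 C1 4^i`, `ρ = C1 4^i/N² ≤ 1/2`; `arcs 1 (C1 4^i) ρ ⊆ arcs 1 Q ρ`. Apply
`form_split B σ` with `σ = 1`, `D = 2^{iε}` and `interp` with `W t s` = indicator of `arcs 1 Q ρ` at
`t - s`, `α = C ρ Q ≤ C' 16^i N^{-2}`, `A = 1`, `B = C ρ D`, so
`B^{2/q} ≤ C' (4^i N^{-2} 2^{iε})^{2/q} ≤ C' N^{-4/q} 2^{i(4/q+ε)}`; `A' = C D^{-B} Q^{2}`, `B' = C ρ Q`: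
`A'^{1-2/q} B'^{2/q} ≤ C' 2^{-i ε B (1-2/q)} 2^{4i(1-2/q)} (16^i N^{-2})^{2/q} ≤ C' N^{-4/q}` if the natural
number `B` is so large that `ε B (1-2/q) ≥ 4 (1-2/q) + 8/q`.
-/

open MeasureTheory Complex STZ
open scoped Real

namespace STE

private lemma level_mono {G1 G2 : ℝ → ℝ → ℝ} (h1 : Measurable (Function.uncurry G1))
    (h2 : Measurable (Function.uncurry G2)) (h : ∀ t s, 0 ≤ G1 t s ∧ G1 t s ≤ G2 t s ∧ G2 t s ≤ 1) :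
    ∫ t in Set.Icc (0 : ℝ) 1, ∫ s in Set.Icc (0 : ℝ) 1, G1 t s ≤
      ∫ t in Set.Icc (0 : ℝ) 1, ∫ s in Set.Icc (0 : ℝ) 1, G2 t s := by
  have hIf : (volume.prod volume : Measure (ℝ × ℝ)) (Set.Icc (0 : ℝ) 1 ×ˢ Set.Icc (0 : ℝ) 1) ≠ ⊤ := by
    rw [Measure.prod_prod]
    simp
  have i1 : IntegrableOn (Function.uncurry G1) (Set.Icc (0 : ℝ) 1 ×ˢ Set.Icc (0 : ℝ) 1)
      (volume.prod volume) := by
    refine Measure.integrableOn_of_bounded (M := 1) hIf h1.aestronglyMeasurable ?_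
    refine Filter.Eventually.of_forall fun z => ?_
    rw [Real.norm_eq_abs]
    change |G1 z.1 z.2| ≤ 1
    rw [abs_of_nonneg (h z.1 z.2).1]
    exact (h z.1 z.2).2.1.trans (h z.1 z.2).2.2
  have i2 : IntegrableOn (Function.uncurry G2) (Set.Icc (0 : ℝ) 1 ×ˢ Set.Icc (0 : ℝ) 1)
      (volume.prod volume) := by
    refine Measure.integrableOn_of_bounded (M := 1) hIf h2.aestronglyMeasurable ?_
    refine Filter.Eventually.of_forall fun z => ?_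
    rw [Real.norm_eq_abs]
    change |G2 z.1 z.2| ≤ 1
    rw [abs_of_nonneg ((h z.1 z.2).1.trans (h z.1 z.2).2.1)]
    exact (h z.1 z.2).2.2
  have e1 : ∫ t in Set.Icc (0 : ℝ) 1, ∫ s in Set.Icc (0 : ℝ) 1, G1 t s =
      ∫ z in Set.Icc (0 : ℝ) 1 ×ˢ Set.Icc (0 : ℝ) 1, Function.uncurry G1 z
        ∂(volume.prod volume) := (setIntegral_prod _ i1).symm
  have e2 : ∫ t in Set.Icc (0 : ℝ) 1, ∫ s in Set.Icc (0 : ℝ) 1, G2 t s =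
      ∫ z in Set.Icc (0 : ℝ) 1 ×ˢ Set.Icc (0 : ℝ) 1, Function.uncurry G2 z
        ∂(volume.prod volume) := (setIntegral_prod _ i2).symm
  rw [e1, e2]
  exact setIntegral_mono_on i1 i2 (measurableSet_Icc.prod measurableSet_Icc)
    fun z _ => (h z.1 z.2).2.1

/-- The second term. -/
private lemma level_two {q ε K C1 Cs : ℝ} (hq : 2 < q) (hε : 0 < ε) (hC1 : 1 ≤ C1) (hCs : 1 ≤ Cs)
    (hK : K = 4 * Cs * C1 ^ 2) (i : ℕ) {n : ℝ} (hn : 0 < n) :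
    (Cs * (C1 * 4 ^ i * n * (2 : ℝ) ^ ((i : ℝ) * ε))) ^ (2 / q) ≤
      K * (n ^ (2 / q) * (2 : ℝ) ^ ((i : ℝ) * (4 / q + ε))) := by
  have hq0 : 0 < q := by linarith
  have h2q : 0 < 2 / q := by positivity
  have h2q1 : 2 / q ≤ 1 := by
    rw [div_le_one hq0]
    linarith
  have hK1 : Cs * C1 ≤ K := by
    rw [hK]
    have : Cs * C1 * 1 ≤ Cs * C1 * (4 * C1) :=
      mul_le_mul_of_nonneg_left (by linarith) (by positivity)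
    calc Cs * C1 = Cs * C1 * 1 := by ring
      _ ≤ Cs * C1 * (4 * C1) := this
      _ = 4 * Cs * C1 ^ 2 := by ring
  have hCC : 1 ≤ Cs * C1 := by nlinarith
  have e4 : (4 : ℝ) ^ i = (2 : ℝ) ^ ((i : ℝ) * 2) := by
    rw [mul_comm, Real.rpow_mul zero_le_two, Real.rpow_natCast]
    norm_num
  have e1 : Cs * (C1 * 4 ^ i * n * (2 : ℝ) ^ ((i : ℝ) * ε)) =
      (Cs * C1) * (n * (2 : ℝ) ^ ((i : ℝ) * (2 + ε))) := by
    rw [e4]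
    have : (2 : ℝ) ^ ((i : ℝ) * (2 + ε)) = (2 : ℝ) ^ ((i : ℝ) * 2) * (2 : ℝ) ^ ((i : ℝ) * ε) := by
      rw [← Real.rpow_add two_pos]
      congr 1
      ring
    rw [this]
    ring
  rw [e1, Real.mul_rpow (by positivity) (by positivity), Real.mul_rpow hn.le (by positivity),
    ← Real.rpow_mul zero_le_two]
  have h3 : (Cs * C1) ^ (2 / q) ≤ K := by
    have := Real.rpow_le_rpow_of_exponent_le hCC h2q1
    rw [Real.rpow_one] at this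
    exact this.trans hK1
  have h4 : (2 : ℝ) ^ ((i : ℝ) * (2 + ε) * (2 / q)) ≤ (2 : ℝ) ^ ((i : ℝ) * (4 / q + ε)) := by
    apply Real.rpow_le_rpow_of_exponent_le one_le_two
    rw [mul_assoc]
    apply mul_le_mul_of_nonneg_left _ (Nat.cast_nonneg i)
    have : (2 + ε) * (2 / q) = 4 / q + ε * (2 / q) := by ring
    rw [this]
    have : ε * (2 / q) ≤ ε * 1 := mul_le_mul_of_nonneg_left h2q1 hε.le
    linarith
  apply mul_le_mul h3 (mul_le_mul_of_nonneg_left h4 (by positivity)) (by positivity)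
  rw [hK]
  positivity

/-- The third term. -/
private lemma level_three {q ε K C1 Cs Q : ℝ} (hq : 2 < q) (hC1 : 1 ≤ C1)
    (hCs : 1 ≤ Cs) (hK : K = 4 * Cs * C1 ^ 2) (i B : ℕ) {n : ℝ} (hn : 0 < n) (hQ0 : 0 < Q)
    (hQ : Q ≤ 2 * (C1 * 4 ^ i)) (hB : 4 * (1 - 2 / q) + 8 / q ≤ ε * B * (1 - 2 / q)) :
    (Cs * (((2 : ℝ) ^ ((i : ℝ) * ε)) ^ (-(B : ℝ)) * Q ^ ((1 : ℝ) + 1))) ^ (1 - 2 / q) *
      (Cs * (C1 * 4 ^ i * n * Q)) ^ (2 / q) ≤ K * n ^ (2 / q) := by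
  have hq0 : 0 < q := by linarith
  have h2q : 0 < 2 / q := by positivity
  have h2q1 : 2 / q ≤ 1 := by
    rw [div_le_one hq0]
    linarith
  have hK0 : 0 < K := by
    rw [hK]
    positivity
  have e4 : (4 : ℝ) ^ i * 4 ^ i = (2 : ℝ) ^ ((i : ℝ) * 4) := by
    rw [mul_comm (i : ℝ) 4, Real.rpow_mul zero_le_two, Real.rpow_natCast, ← mul_pow]
    norm_num
  have h1 : Cs * (((2 : ℝ) ^ ((i : ℝ) * ε)) ^ (-(B : ℝ)) * Q ^ ((1 : ℝ) + 1)) ≤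
      K * (2 : ℝ) ^ ((i : ℝ) * (4 - ε * B)) := by
    have h2 : Q ^ ((1 : ℝ) + 1) ≤ (2 * (C1 * 4 ^ i)) ^ 2 := by
      have : Q ^ ((1 : ℝ) + 1) = Q ^ 2 := by
        rw [← Real.rpow_natCast]
        norm_num
      rw [this]
      exact pow_le_pow_left₀ hQ0.le hQ 2
    have h3 : (2 * (C1 * 4 ^ i)) ^ 2 = 4 * C1 ^ 2 * (2 : ℝ) ^ ((i : ℝ) * 4) := by
      rw [← e4]
      ring
    have h4 : ((2 : ℝ) ^ ((i : ℝ) * ε)) ^ (-(B : ℝ)) * (2 : ℝ) ^ ((i : ℝ) * 4) =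
        (2 : ℝ) ^ ((i : ℝ) * (4 - ε * B)) := by
      rw [← Real.rpow_mul zero_le_two, ← Real.rpow_add two_pos]
      congr 1
      ring
    calc Cs * (((2 : ℝ) ^ ((i : ℝ) * ε)) ^ (-(B : ℝ)) * Q ^ ((1 : ℝ) + 1))
        ≤ Cs * (((2 : ℝ) ^ ((i : ℝ) * ε)) ^ (-(B : ℝ)) * (4 * C1 ^ 2 * (2 : ℝ) ^ ((i : ℝ) * 4))) := by
          rw [← h3]
          gcongr
      _ = 4 * Cs * C1 ^ 2 *
          (((2 : ℝ) ^ ((i : ℝ) * ε)) ^ (-(B : ℝ)) * (2 : ℝ) ^ ((i : ℝ) * 4)) := by ring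
      _ = K * (2 : ℝ) ^ ((i : ℝ) * (4 - ε * B)) := by rw [h4, hK]
  have h2 : Cs * (C1 * 4 ^ i * n * Q) ≤ K * (n * (2 : ℝ) ^ ((i : ℝ) * 4)) := by
    have h3 : 0 ≤ Cs * C1 ^ 2 * (n * ((4 : ℝ) ^ i * 4 ^ i)) := by positivity
    calc Cs * (C1 * 4 ^ i * n * Q) ≤ Cs * (C1 * 4 ^ i * n * (2 * (C1 * 4 ^ i))) := by gcongr
      _ = 2 * (Cs * C1 ^ 2 * (n * ((4 : ℝ) ^ i * 4 ^ i))) := by ring
      _ ≤ 4 * (Cs * C1 ^ 2 * (n * ((4 : ℝ) ^ i * 4 ^ i))) := by linarith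
      _ = K * (n * (2 : ℝ) ^ ((i : ℝ) * 4)) := by rw [e4, hK]; ring
  have h3 : (Cs * (((2 : ℝ) ^ ((i : ℝ) * ε)) ^ (-(B : ℝ)) * Q ^ ((1 : ℝ) + 1))) ^ (1 - 2 / q) ≤
      (K * (2 : ℝ) ^ ((i : ℝ) * (4 - ε * B))) ^ (1 - 2 / q) :=
    Real.rpow_le_rpow (by positivity) h1 (by linarith)
  have h4 : (Cs * (C1 * 4 ^ i * n * Q)) ^ (2 / q) ≤
      (K * (n * (2 : ℝ) ^ ((i : ℝ) * 4))) ^ (2 / q) :=
    Real.rpow_le_rpow (by positivity) h2 h2q.le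
  have h5 : (K * (2 : ℝ) ^ ((i : ℝ) * (4 - ε * B))) ^ (1 - 2 / q) *
      (K * (n * (2 : ℝ) ^ ((i : ℝ) * 4))) ^ (2 / q) =
      K * n ^ (2 / q) * (2 : ℝ) ^ ((i : ℝ) * ((4 - ε * B) * (1 - 2 / q) + 8 / q)) := by
    rw [Real.mul_rpow hK0.le (by positivity), Real.mul_rpow hK0.le (by positivity),
      Real.mul_rpow hn.le (by positivity), ← Real.rpow_mul zero_le_two, ← Real.rpow_mul zero_le_two]
    have e1 : K ^ (1 - 2 / q) * K ^ (2 / q) = K := by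
      rw [← Real.rpow_add hK0]
      have : 1 - 2 / q + 2 / q = 1 := by ring
      rw [this, Real.rpow_one]
    have e2 : (2 : ℝ) ^ ((i : ℝ) * (4 - ε * B) * (1 - 2 / q)) * (2 : ℝ) ^ ((i : ℝ) * 4 * (2 / q)) =
        (2 : ℝ) ^ ((i : ℝ) * ((4 - ε * B) * (1 - 2 / q) + 8 / q)) := by
      rw [← Real.rpow_add two_pos]
      congr 1
      ring
    calc _ = (K ^ (1 - 2 / q) * K ^ (2 / q)) * n ^ (2 / q) *
        ((2 : ℝ) ^ ((i : ℝ) * (4 - ε * B) * (1 - 2 / q)) * (2 : ℝ) ^ ((i : ℝ) * 4 * (2 / q))) := by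
          ring
      _ = _ := by rw [e1, e2]
  have h6 : (2 : ℝ) ^ ((i : ℝ) * ((4 - ε * B) * (1 - 2 / q) + 8 / q)) ≤ 1 := by
    apply Real.rpow_le_one_of_one_le_of_nonpos one_le_two
    apply mul_nonpos_of_nonneg_of_nonpos (Nat.cast_nonneg i)
    have : (4 - ε * B) * (1 - 2 / q) = 4 * (1 - 2 / q) - ε * B * (1 - 2 / q) := by ring
    rw [this]
    linarith
  calc _ ≤ (K * (2 : ℝ) ^ ((i : ℝ) * (4 - ε * B))) ^ (1 - 2 / q) *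
      (K * (n * (2 : ℝ) ^ ((i : ℝ) * 4))) ^ (2 / q) := by
        apply mul_le_mul h3 h4 (by positivity) (by positivity)
    _ = K * n ^ (2 / q) * (2 : ℝ) ^ ((i : ℝ) * ((4 - ε * B) * (1 - 2 / q) + 8 / q)) := h5
    _ ≤ K * n ^ (2 / q) * 1 := mul_le_mul_of_nonneg_left h6 (by positivity)
    _ = K * n ^ (2 / q) := mul_one _

theorem level {q ε : ℝ} (hq : 2 < q) (hε : 0 < ε) (C1 : ℝ) (hC1 : 1 ≤ C1) : ∃ C : ℝ, 0 < C ∧
    ∀ i N : ℕ, 1 ≤ N → C1 * 4 ^ i / (N : ℝ) ^ 2 ≤ 1 / 2 →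
    ∀ F : ℝ → ℝ, Measurable F → (∀ t, 0 ≤ F t ∧ F t ≤ 1) →
    ∫ t in Set.Icc (0 : ℝ) 1, ∫ s in Set.Icc (0 : ℝ) 1, F t * F s *
        (arcs 1 (C1 * 4 ^ i) (C1 * 4 ^ i / (N : ℝ) ^ 2)).indicator (fun _ => (1 : ℝ)) (t - s) ≤
      C * ((16 : ℝ) ^ i * ((N : ℝ) ^ 2)⁻¹ * (∫ t in Set.Icc (0 : ℝ) 1, F t) ^ 2 +
        (N : ℝ) ^ (-(4 / q)) * (2 : ℝ) ^ ((i : ℝ) * (4 / q + ε)) *
          (∫ t in Set.Icc (0 : ℝ) 1, F t ^ (q / (q - 1))) ^ (2 - 2 / q)) := by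
  have hq0 : 0 < q := by linarith
  have h2q : 0 < 2 / q := by positivity
  have h2q1 : 2 / q < 1 := by
    rw [div_lt_one hq0]
    exact hq
  have hden : 0 < ε * (1 - 2 / q) := mul_pos hε (by linarith)
  obtain ⟨B, hB⟩ := exists_nat_ge ((4 * (1 - 2 / q) + 8 / q) / (ε * (1 - 2 / q)))
  have hB' : 4 * (1 - 2 / q) + 8 / q ≤ ε * B * (1 - 2 / q) := by
    rw [div_le_iff₀ hden] at hB
    linarith
  obtain ⟨Cs, hCs, hsplit⟩ := form_split B 1 one_pos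
  obtain ⟨Ci, hCi, hint⟩ := interp hq
  set K : ℝ := 4 * Cs * C1 ^ 2 with hK
  have hK0 : 0 < K := by positivity
  refine ⟨Ci * (2 * K), by positivity, ?_⟩
  intro i N hN hρ1 F hF hF1
  have hN0 : (0 : ℝ) < N := by exact_mod_cast hN
  set n : ℝ := ((N : ℝ) ^ 2)⁻¹ with hn
  have hn0 : 0 < n := by positivity
  set ρ : ℝ := C1 * 4 ^ i / (N : ℝ) ^ 2 with hρ
  have hρn : ρ = C1 * 4 ^ i * n := by rw [hρ, hn, div_eq_mul_inv]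
  have hρ0 : 0 < ρ := by positivity
  have h4i : (1 : ℝ) ≤ 4 ^ i := one_le_pow₀ (by norm_num)
  have hx1 : 1 ≤ C1 * 4 ^ i := by nlinarith
  set Q : ℕ := ⌈C1 * 4 ^ i⌉₊ with hQ
  have hQle : C1 * 4 ^ i ≤ Q := Nat.le_ceil _
  have hQ1r : (1 : ℝ) ≤ Q := hx1.trans hQle
  have hQ1 : 1 ≤ Q := by exact_mod_cast hQ1r
  have hQ2 : (Q : ℝ) ≤ 2 * (C1 * 4 ^ i) := by
    have := Nat.ceil_lt_add_one (show 0 ≤ C1 * 4 ^ i by positivity)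
    rw [← hQ] at this
    linarith
  set D : ℝ := (2 : ℝ) ^ ((i : ℝ) * ε) with hD
  have hD1 : 1 ≤ D := Real.one_le_rpow one_le_two (by positivity)
  have hD0 : 0 < D := by linarith
  -- comparison of the arcs
  have hsub : arcs 1 (C1 * 4 ^ i) ρ ⊆ arcs 1 Q ρ := by
    rintro t ⟨c, d, h1, h2, h3⟩
    exact ⟨c, d, h1, h2.trans hQle, h3⟩
  have hmeas : ∀ Q : ℝ, Measurable (Function.uncurry fun t s : ℝ =>
      (arcs 1 Q ρ).indicator (fun _ => (1 : ℝ)) (t - s)) := by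
    intro Q
    exact (measurable_const.indicator (measurableSet_arcs 1 Q ρ)).comp
      (measurable_fst.sub measurable_snd)
  have hFm : Measurable (Function.uncurry fun t s : ℝ => F t * F s) :=
    (hF.comp measurable_fst).mul (hF.comp measurable_snd)
  have hind01 : ∀ (Q : ℝ) (u : ℝ), 0 ≤ (arcs 1 Q ρ).indicator (fun _ => (1 : ℝ)) u ∧
      (arcs 1 Q ρ).indicator (fun _ => (1 : ℝ)) u ≤ 1 := by
    intro Q u
    constructor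
    · exact Set.indicator_nonneg (fun _ _ => zero_le_one) _
    · exact Set.indicator_le' (fun _ _ => le_rfl) (fun _ _ => zero_le_one) u
  have hstep1 : ∫ t in Set.Icc (0 : ℝ) 1, ∫ s in Set.Icc (0 : ℝ) 1, F t * F s *
        (arcs 1 (C1 * 4 ^ i) ρ).indicator (fun _ => (1 : ℝ)) (t - s) ≤
      ∫ t in Set.Icc (0 : ℝ) 1, ∫ s in Set.Icc (0 : ℝ) 1, F t * F s *
        (arcs 1 Q ρ).indicator (fun _ => (1 : ℝ)) (t - s) := by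
    refine level_mono (hFm.mul (hmeas _)) (hFm.mul (hmeas _)) ?_
    intro t s
    have h0 : 0 ≤ F t * F s := mul_nonneg (hF1 t).1 (hF1 s).1
    have h1 : F t * F s ≤ 1 := mul_le_one₀ (hF1 t).2 (hF1 s).1 (hF1 s).2
    refine ⟨mul_nonneg h0 (hind01 _ _).1, ?_, ?_⟩
    · apply mul_le_mul_of_nonneg_left _ h0
      exact Set.indicator_le_indicator_of_subset hsub (fun _ => zero_le_one) _
    · exact mul_le_one₀ h1 (hind01 _ _).1 (hind01 _ _).2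
  refine hstep1.trans ?_
  have hstep2 := hint (fun t s => (arcs 1 Q ρ).indicator (fun _ => (1 : ℝ)) (t - s)) (hmeas _)
    (fun t s => hind01 _ _) (Cs * (ρ * Q)) 1 (Cs * (ρ * D))
    (Cs * (D ^ (-(B : ℝ)) * (Q : ℝ) ^ ((1 : ℝ) + 1))) (Cs * (ρ * Q)) (by positivity) zero_le_one
    (by positivity) (by positivity) (by positivity) (by
      intro S S' h1 h2 h3 h4
      have := hsplit Q ρ D hQ1 hρ0 hρ1 hD1 S S' h1 h2 h3 h4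
      rw [one_mul]
      exact this) F hF hF1
  refine hstep2.trans ?_
  set I₁ := ∫ t in Set.Icc (0 : ℝ) 1, F t with hI₁
  set Y := ∫ t in Set.Icc (0 : ℝ) 1, F t ^ (q / (q - 1)) with hY
  have hY0 : 0 ≤ Y := setIntegral_nonneg measurableSet_Icc fun t _ => Real.rpow_nonneg (hF1 t).1 _
  have hYp : 0 ≤ Y ^ (2 - 2 / q) := Real.rpow_nonneg hY0 _
  have hNn : (N : ℝ) ^ (-(4 / q)) = n ^ (2 / q) := by
    rw [hn, Real.inv_rpow (by positivity), ← Real.rpow_natCast (N : ℝ) 2,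
      ← Real.rpow_mul hN0.le, ← Real.rpow_neg hN0.le]
    congr 1
    push_cast
    ring
  have b1 : Cs * (ρ * Q) ≤ K * ((16 : ℝ) ^ i * n) := by
    have e16 : (16 : ℝ) ^ i = 4 ^ i * 4 ^ i := by
      rw [← mul_pow]
      norm_num
    have h3 : 0 ≤ Cs * C1 ^ 2 * (n * ((4 : ℝ) ^ i * 4 ^ i)) := by positivity
    calc Cs * (ρ * Q) ≤ Cs * (ρ * (2 * (C1 * 4 ^ i))) := by gcongr
      _ = 2 * (Cs * C1 ^ 2 * (n * ((4 : ℝ) ^ i * 4 ^ i))) := by rw [hρn]; ring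
      _ ≤ 4 * (Cs * C1 ^ 2 * (n * ((4 : ℝ) ^ i * 4 ^ i))) := by linarith
      _ = K * ((16 : ℝ) ^ i * n) := by rw [e16, hK]; ring
  have b2 := level_two hq hε hC1 hCs hK i hn0
  have b3 := level_three (ε := ε) hq hC1 hCs hK i B hn0 (show (0 : ℝ) < Q by linarith) hQ2 hB'
  rw [← hρn, ← hD] at b2 b3
  have hpw : (1 : ℝ) ≤ (2 : ℝ) ^ ((i : ℝ) * (4 / q + ε)) := Real.one_le_rpow one_le_two (by positivity)
  have hnq : 0 < n ^ (2 / q) := Real.rpow_pos_of_pos hn0 _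
  have b4 : K * n ^ (2 / q) ≤ K * (n ^ (2 / q) * (2 : ℝ) ^ ((i : ℝ) * (4 / q + ε))) := by
    apply mul_le_mul_of_nonneg_left _ hK0.le
    exact le_mul_of_one_le_right hnq.le hpw
  rw [Real.one_rpow, one_mul, hNn]
  have b5 : Cs * (ρ * Q) * I₁ ^ 2 ≤ K * ((16 : ℝ) ^ i * n) * I₁ ^ 2 :=
    mul_le_mul_of_nonneg_right b1 (by positivity)
  have b6 : ((Cs * (ρ * D)) ^ (2 / q) +
      (Cs * (D ^ (-(B : ℝ)) * (Q : ℝ) ^ ((1 : ℝ) + 1))) ^ (1 - 2 / q) *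
        (Cs * (ρ * Q)) ^ (2 / q)) * Y ^ (2 - 2 / q) ≤
      2 * K * (n ^ (2 / q) * (2 : ℝ) ^ ((i : ℝ) * (4 / q + ε))) * Y ^ (2 - 2 / q) := by
    apply mul_le_mul_of_nonneg_right _ hYp
    linarith
  have b7 : 0 ≤ K * ((16 : ℝ) ^ i * n) * I₁ ^ 2 := by positivity
  calc Ci * (Cs * (ρ * Q) * I₁ ^ 2 + ((Cs * (ρ * D)) ^ (2 / q) +
        (Cs * (D ^ (-(B : ℝ)) * (Q : ℝ) ^ ((1 : ℝ) + 1))) ^ (1 - 2 / q) *
          (Cs * (ρ * Q)) ^ (2 / q)) * Y ^ (2 - 2 / q))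
      ≤ Ci * (K * ((16 : ℝ) ^ i * n) * I₁ ^ 2 +
        2 * K * (n ^ (2 / q) * (2 : ℝ) ^ ((i : ℝ) * (4 / q + ε))) * Y ^ (2 - 2 / q)) :=
        mul_le_mul_of_nonneg_left (add_le_add b5 b6) hCi.le
    _ ≤ Ci * (2 * (K * ((16 : ℝ) ^ i * n) * I₁ ^ 2) +
        2 * K * (n ^ (2 / q) * (2 : ℝ) ^ ((i : ℝ) * (4 / q + ε))) * Y ^ (2 - 2 / q)) := by
        apply mul_le_mul_of_nonneg_left _ hCi.le
        linarith
    _ = Ci * (2 * K) * ((16 : ℝ) ^ i * n * I₁ ^ 2 +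
        n ^ (2 / q) * (2 : ℝ) ^ ((i : ℝ) * (4 / q + ε)) * Y ^ (2 - 2 / q)) := by ring

end STE
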