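import Pool.Agent.STE.Rect
import Pool.Agent.BDD.DiscRes

/-!
# STE/Link: from the decoupling theorem to the scale-invariant estimate on rectangular tori
-/

open MeasureTheory Complex
open scoped Real ENNReal

namespace STE

open STC BDDK

/-- the estimate with loss `N^ε` from the decoupling theorem at the critical exponent -/
theorem bdst_of_dec {r : ℕ} (hr : 1 ≤ r)
    (H : ∀ ε : ℝ, 0 < ε → ∃ C : ℝ≥0∞, C ≠ ∞ ∧ ∀ N : ℝ, 1 ≤ N →
      DecB r (2 + 4 / (r : ℝ)) N (C * ENNReal.ofReal (N ^ ε))) : BDst r := by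
  have hp : 1 ≤ 2 + 4 / (r : ℝ) := by
    have : 0 ≤ 4 / (r : ℝ) := by positivity
    linarith
  intro a ha ε hε T0 hT0
  exact discRes hr hp H a ha ε hε T0 hT0

/-- the scale-invariant estimate on rectangular tori from the decoupling theorem -/
theorem rectStr_of_dec {r : ℕ} (hr : 1 ≤ r)
    (H : ∀ ε : ℝ, 0 < ε → ∃ C : ℝ≥0∞, C ≠ ∞ ∧ ∀ N : ℝ, 1 ≤ N →
      DecB r (2 + 4 / (r : ℝ)) N (C * ENNReal.ofReal (N ^ ε)))
    {q : ℝ} (hq : 2 + 4 / (r : ℝ) < q) : RectStr r q :=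
  rect_of_bd hr (bdst_of_dec hr H) hq

end STE
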