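import Pool.Agent.STE.Large
import Pool.Agent.STZ.Distr

/-!
# STE/Rect: the scale-invariant estimate on rectangular tori from the estimate with loss `N^ε`

PROOF. `p_c = 2 + 4/r`. `weak`: let `δ, C` be from `large`. If `y ≥ N^{r/2-δ} S^{1/2}`: `large`. If
`y < N^{r/2-δ} S^{1/2}`: Chebyshev (`∫ secV y^{p_c} ≤ ∫∫ ‖u‖^{p_c}`) and the hypothesis with
`ε = δ(q - p_c)`: `v ≤ C N^ε S^{p_c/2} y^{-p_c} = C N^ε S^{p_c/2} y^{q-p_c} y^{-q} ≤
C N^{ε + (r/2-δ)(q-p_c)} S^{q/2} y^{-q}` and `(r/2)(q-p_c) = rq/2 - (r+2)`.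
`strong` (`a_j T0 ≤ π`): `STZ.weak_strong` on `μ = stm X T0` with `v = ‖u‖`, weak exponent `q1` between
`p_c` and `q`, `A = ((2N+1)^r S)^{1/2}` (`‖u‖ ≤ ∑ ‖b‖`, Cauchy-Schwarz, `#s0 ≤ (2N+1)^r`). The level
sets: `(stm X T0).real {y < ‖u‖} = ∫_0^{T0} secV` (Fubini), `∫ ‖u‖^q ∂stm = ∫_t ∫_x ‖u‖^q`.
`rect_of_bd`: arbitrary `T0`: divide `[0,T0]` into `n` intervals of length `T1 = T0/n` with `a_j T1 ≤ π`;
on `[m T1, (m+1) T1]` replace `b_k` by `b_k e^{-i m T1 om k}` (same `‖b_k‖`) and translate the time.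
-/

open MeasureTheory Complex STZ
open scoped Real

namespace STE

open STC

/-- The estimate of Bourgain and Demeter on rectangular tori at `p = 2 + 4/r` with a loss `N^ε`. -/
def BDst (r : ℕ) : Prop :=
  ∀ a : Fin r → ℝ, (∀ j, 0 < a j) → ∀ ε : ℝ, 0 < ε → ∀ T0 : ℝ, 0 < T0 → ∃ C : ℝ, 0 < C ∧
    ∀ N : ℕ, 1 ≤ N → ∀ (s : Finset (Fin r → ℤ)) (b : (Fin r → ℤ) → ℂ),
    (∀ k ∈ s, ∀ j, |(k j : ℝ)| ≤ N) →
    ∫ t in Set.Icc (0 : ℝ) T0, ∫ x : Fin r → UnitAddCircle,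
      ‖∑ k ∈ s, b k * cexp (-((t * (∑ j, a j * (k j : ℝ) ^ 2) : ℝ) : ℂ) * I) * chr k x‖ ^
        (2 + 4 / (r : ℝ)) ≤
      C * (N : ℝ) ^ ε * (∑ k ∈ s, ‖b k‖ ^ 2) ^ ((2 + 4 / (r : ℝ)) / 2)

theorem rectA_chr_cont {r : ℕ} (k : Fin r → ℤ) : Continuous (chr k) := by
  unfold chr
  exact continuous_finsetProd _ fun j _ => ((fourier (k j)).continuous.comp (continuous_apply j))

theorem rectA_chr_norm {r : ℕ} (k : Fin r → ℤ) (x : Fin r → UnitAddCircle) : ‖chr k x‖ = 1 := by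
  unfold chr
  rw [norm_prod]
  exact Finset.prod_eq_one fun j _ => by
    rw [fourier_apply]; exact Circle.norm_coe _

theorem rectA_term_norm {r : ℕ} (k : Fin r → ℤ) (b : ℂ) (s : ℝ) (x : Fin r → UnitAddCircle) :
    ‖b * cexp (-((s : ℝ) : ℂ) * I) * chr k x‖ = ‖b‖ := by
  rw [norm_mul, norm_mul, rectA_chr_norm, mul_one]
  have : -((s : ℝ) : ℂ) * I = ((-s : ℝ) : ℂ) * I := by push_cast; ring
  rw [this, Complex.norm_exp_ofReal_mul_I, mul_one]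

theorem rectA_u_cont {r : ℕ} (s : Finset (Fin r → ℤ)) (b : (Fin r → ℤ) → ℂ) (om : (Fin r → ℤ) → ℝ) :
    Continuous fun z : ℝ × (Fin r → UnitAddCircle) =>
      ∑ k ∈ s, b k * cexp (-((z.1 * om k : ℝ) : ℂ) * I) * chr k z.2 := by
  refine continuous_finsetSum _ fun k _ => ?_
  have h1 := (rectA_chr_cont k).comp (continuous_snd (X := ℝ) (Y := Fin r → UnitAddCircle))
  have h2 : Continuous fun z : ℝ × (Fin r → UnitAddCircle) => cexp (-((z.1 * om k : ℝ) : ℂ) * I) := by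
    fun_prop
  exact (continuous_const.mul h2).mul h1

theorem rectA_u_le {r : ℕ} (s : Finset (Fin r → ℤ)) (b : (Fin r → ℤ) → ℂ) (om : (Fin r → ℤ) → ℝ)
    (t : ℝ) (x : Fin r → UnitAddCircle) :
    ‖∑ k ∈ s, b k * cexp (-((t * om k : ℝ) : ℂ) * I) * chr k x‖ ≤ ∑ k ∈ s, ‖b k‖ := by
  refine (norm_sum_le _ _).trans (Finset.sum_le_sum fun k _ => ?_)
  rw [rectA_term_norm]

theorem rectA_upow_cont {r : ℕ} (s : Finset (Fin r → ℤ)) (b : (Fin r → ℤ) → ℂ) (om : (Fin r → ℤ) → ℝ)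
    {p : ℝ} (hp : 0 ≤ p) :
    Continuous fun z : ℝ × (Fin r → UnitAddCircle) =>
      ‖∑ k ∈ s, b k * cexp (-((z.1 * om k : ℝ) : ℂ) * I) * chr k z.2‖ ^ p :=
  (rectA_u_cont s b om).norm.rpow_const fun _ => Or.inr hp

theorem rectA_upow_int {r : ℕ} (s : Finset (Fin r → ℤ)) (b : (Fin r → ℤ) → ℂ) (om : (Fin r → ℤ) → ℝ)
    {p : ℝ} (hp : 0 ≤ p) (T0 : ℝ) :
    Integrable (fun z : ℝ × (Fin r → UnitAddCircle) =>
      ‖∑ k ∈ s, b k * cexp (-((z.1 * om k : ℝ) : ℂ) * I) * chr k z.2‖ ^ p)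
      (stm (Fin r → UnitAddCircle) T0) := by
  have : IsFiniteMeasure ((volume : Measure ℝ).restrict (Set.Icc (0 : ℝ) T0)) :=
    ⟨by rw [Measure.restrict_apply_univ]; exact measure_Icc_lt_top⟩
  unfold stm
  refine Integrable.mono' (g := fun _ => (∑ k ∈ s, ‖b k‖) ^ p) (integrable_const _)
    (rectA_upow_cont s b om hp).aestronglyMeasurable (ae_of_all _ fun z => ?_)
  rw [Real.norm_of_nonneg (by positivity)]
  exact Real.rpow_le_rpow (norm_nonneg _) (rectA_u_le s b om z.1 z.2) hp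

theorem rectA_upow_int1 {r : ℕ} (s : Finset (Fin r → ℤ)) (b : (Fin r → ℤ) → ℂ) (om : (Fin r → ℤ) → ℝ)
    {p : ℝ} (hp : 0 ≤ p) (t : ℝ) :
    Integrable (fun x : Fin r → UnitAddCircle =>
      ‖∑ k ∈ s, b k * cexp (-((t * om k : ℝ) : ℂ) * I) * chr k x‖ ^ p) := by
  refine Integrable.mono' (g := fun _ => (∑ k ∈ s, ‖b k‖) ^ p) (integrable_const _)
    ((rectA_upow_cont s b om hp).comp (Continuous.prodMk_right t)).aestronglyMeasurable
      (ae_of_all _ fun x => ?_)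
  rw [Real.norm_of_nonneg (by positivity)]
  exact Real.rpow_le_rpow (norm_nonneg _) (rectA_u_le s b om t x) hp

theorem rectA_secV_le_one {r : ℕ} (s0 : Finset (Fin r → ℤ)) (b : (Fin r → ℤ) → ℂ)
    (om : (Fin r → ℤ) → ℝ) (y t : ℝ) : 0 ≤ secV s0 b om y t ∧ secV s0 b om y t ≤ 1 := by
  unfold secV
  exact ⟨measureReal_nonneg, measureReal_le_one⟩

theorem rectA_secV_int {r : ℕ} (s0 : Finset (Fin r → ℤ)) (b : (Fin r → ℤ) → ℂ)
    (om : (Fin r → ℤ) → ℝ) (y T0 : ℝ) : IntegrableOn (secV s0 b om y) (Set.Icc 0 T0) := by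
  have : IsFiniteMeasure ((volume : Measure ℝ).restrict (Set.Icc (0 : ℝ) T0)) :=
    ⟨by rw [Measure.restrict_apply_univ]; exact measure_Icc_lt_top⟩
  refine Integrable.mono' (g := fun _ => (1 : ℝ)) (integrable_const _)
    (secV_measurable s0 b om y).aestronglyMeasurable (ae_of_all _ fun t => ?_)
  rw [Real.norm_of_nonneg (rectA_secV_le_one s0 b om y t).1]
  exact (rectA_secV_le_one s0 b om y t).2

/-- Chebyshev -/
theorem rectA_cheb {r : ℕ} (s : Finset (Fin r → ℤ)) (b : (Fin r → ℤ) → ℂ) (om : (Fin r → ℤ) → ℝ)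
    {p : ℝ} (hp : 0 < p) (T0 y : ℝ) (hy : 0 < y) :
    y ^ p * ∫ t in Set.Icc (0 : ℝ) T0, secV s b om y t ≤
      ∫ t in Set.Icc (0 : ℝ) T0, ∫ x : Fin r → UnitAddCircle,
        ‖∑ k ∈ s, b k * cexp (-((t * om k : ℝ) : ℂ) * I) * chr k x‖ ^ p := by
  rw [← integral_const_mul]
  have : IsFiniteMeasure ((volume : Measure ℝ).restrict (Set.Icc (0 : ℝ) T0)) :=
    ⟨by rw [Measure.restrict_apply_univ]; exact measure_Icc_lt_top⟩
  refine integral_mono ((rectA_secV_int s b om y T0).const_mul _) (rectA_upow_int s b om hp.le T0).integral_prod_left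
    fun t => ?_
  have h1 := mul_meas_ge_le_integral_of_nonneg (μ := (volume : Measure (Fin r → UnitAddCircle)))
    (f := fun x => ‖∑ k ∈ s, b k * cexp (-((t * om k : ℝ) : ℂ) * I) * chr k x‖ ^ p)
    (ae_of_all _ fun x => Real.rpow_nonneg (norm_nonneg _) _) (rectA_upow_int1 s b om hp.le t) (y ^ p)
  refine le_trans ?_ h1
  have hsub : volume.real {x : Fin r → UnitAddCircle |
      y < ‖∑ k ∈ s, b k * cexp (-((t * om k : ℝ) : ℂ) * I) * chr k x‖} ≤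
      volume.real {x : Fin r → UnitAddCircle |
      y ^ p ≤ ‖∑ k ∈ s, b k * cexp (-((t * om k : ℝ) : ℂ) * I) * chr k x‖ ^ p} := by
    refine measureReal_mono fun x hx => ?_
    exact Real.rpow_le_rpow hy.le (le_of_lt hx) hp.le
  exact mul_le_mul_of_nonneg_left hsub (by positivity)

theorem weak {r : ℕ} (hr : 1 ≤ r) (h : BDst r) {q : ℝ} (hq : 2 + 4 / (r : ℝ) < q)
    (a : Fin r → ℝ) (ha : ∀ j, 0 < a j) (T0 : ℝ) (hT0 : 0 < T0) (haT : ∀ j, a j * T0 ≤ π) :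
    ∃ C : ℝ, 0 < C ∧ ∀ N : ℕ, 1 ≤ N →
      ∀ (s0 : Finset (Fin r → ℤ)) (b : (Fin r → ℤ) → ℂ), (∀ k ∈ s0, ∀ j, |(k j : ℝ)| ≤ N) →
      ∀ y : ℝ, 0 < y →
      ∫ t in Set.Icc (0 : ℝ) T0, secV s0 b (fun k => ∑ j, a j * (k j : ℝ) ^ 2) y t ≤
        C * (N : ℝ) ^ ((r : ℝ) * q / 2 - (r + 2)) * (∑ k ∈ s0, ‖b k‖ ^ 2) ^ (q / 2) * y ^ (-q) := by
  obtain ⟨C1, δ, hC1, hδ, hL⟩ := large hr hq a ha T0 hT0 haT
  have hr0 : (0 : ℝ) < r := by exact_mod_cast hr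
  set p : ℝ := 2 + 4 / (r : ℝ) with hp
  have hp0 : 0 < p := by positivity
  have hqp : 0 < q - p := by linarith
  obtain ⟨C2, hC2, hB⟩ := h a ha (δ * (q - p)) (by positivity) T0 hT0
  refine ⟨C1 + C2, by positivity, fun N hN s0 b hs y hy => ?_⟩
  have hN0 : (0 : ℝ) < N := by exact_mod_cast hN
  set S : ℝ := ∑ k ∈ s0, ‖b k‖ ^ 2 with hS
  have hS0 : 0 ≤ S := Finset.sum_nonneg fun k _ => by positivity
  set v : ℝ := ∫ t in Set.Icc (0 : ℝ) T0, secV s0 b (fun k => ∑ j, a j * (k j : ℝ) ^ 2) y t with hv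
  have hR : 0 ≤ (N : ℝ) ^ ((r : ℝ) * q / 2 - (r + 2)) * S ^ (q / 2) * y ^ (-q) := by positivity
  by_cases hc : (N : ℝ) ^ ((r : ℝ) / 2 - δ) * S ^ (1 / 2 : ℝ) ≤ y
  · have h1 := hL N hN s0 b hs y hy hc
    have : 0 ≤ C2 * ((N : ℝ) ^ ((r : ℝ) * q / 2 - (r + 2)) * S ^ (q / 2) * y ^ (-q)) := by positivity
    nlinarith [h1]
  · push Not at hc
    have hSpos : 0 < S := by
      rcases hS0.eq_or_lt with h0 | h0
      · rw [← h0, Real.zero_rpow (by norm_num), mul_zero] at hc; linarith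
      · exact h0
    have h1 := rectA_cheb s0 b (fun k => ∑ j, a j * (k j : ℝ) ^ 2) hp0 T0 y hy
    have h2 := h1.trans (hB N hN s0 b hs)
    rw [← hv, ← hS] at h2
    have hyp : 0 < y ^ p := by positivity
    have h3 : v ≤ C2 * (N : ℝ) ^ (δ * (q - p)) * S ^ (p / 2) * y ^ (-p) := by
      rw [Real.rpow_neg hy.le, ← div_eq_mul_inv, le_div_iff₀ hyp]
      linarith
    have h4 : y ^ (-p) ≤ ((N : ℝ) ^ ((r : ℝ) / 2 - δ) * S ^ (1 / 2 : ℝ)) ^ (q - p) * y ^ (-q) := by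
      have : y ^ (-p) = y ^ (q - p) * y ^ (-q) := by rw [← Real.rpow_add hy]; congr 1; ring
      rw [this]
      exact mul_le_mul_of_nonneg_right (Real.rpow_le_rpow hy.le hc.le hqp.le) (by positivity)
    have h5 : (N : ℝ) ^ (δ * (q - p)) * S ^ (p / 2) *
        ((N : ℝ) ^ ((r : ℝ) / 2 - δ) * S ^ (1 / 2 : ℝ)) ^ (q - p) =
        (N : ℝ) ^ ((r : ℝ) * q / 2 - (r + 2)) * S ^ (q / 2) := by
      rw [Real.mul_rpow (by positivity) (by positivity), ← Real.rpow_mul hN0.le, ← Real.rpow_mul hS0]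
      have e1 : (N : ℝ) ^ (δ * (q - p)) * S ^ (p / 2) *
        ((N : ℝ) ^ (((r : ℝ) / 2 - δ) * (q - p)) * S ^ (1 / 2 * (q - p))) =
        ((N : ℝ) ^ (δ * (q - p)) * (N : ℝ) ^ (((r : ℝ) / 2 - δ) * (q - p))) *
          (S ^ (p / 2) * S ^ (1 / 2 * (q - p))) := by ring
      rw [e1, ← Real.rpow_add hN0, ← Real.rpow_add hSpos]
      congr 2
      · rw [hp]; field_simp; ring
      · ring
    calc v ≤ C2 * (N : ℝ) ^ (δ * (q - p)) * S ^ (p / 2) * y ^ (-p) := h3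
      _ ≤ C2 * (N : ℝ) ^ (δ * (q - p)) * S ^ (p / 2) *
          (((N : ℝ) ^ ((r : ℝ) / 2 - δ) * S ^ (1 / 2 : ℝ)) ^ (q - p) * y ^ (-q)) :=
          mul_le_mul_of_nonneg_left h4 (by positivity)
      _ = C2 * ((N : ℝ) ^ (δ * (q - p)) * S ^ (p / 2) *
          ((N : ℝ) ^ ((r : ℝ) / 2 - δ) * S ^ (1 / 2 : ℝ)) ^ (q - p)) * y ^ (-q) := by ring
      _ = C2 * ((N : ℝ) ^ ((r : ℝ) * q / 2 - (r + 2)) * S ^ (q / 2) * y ^ (-q)) := by rw [h5]; ring
      _ ≤ (C1 + C2) * (N : ℝ) ^ ((r : ℝ) * q / 2 - (r + 2)) * S ^ (q / 2) * y ^ (-q) := by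
          nlinarith

/-- the measure of the level set on space-time -/
theorem rectA_stm_level {r : ℕ} (s : Finset (Fin r → ℤ)) (b : (Fin r → ℤ) → ℂ) (om : (Fin r → ℤ) → ℝ)
    (T0 y : ℝ) :
    (stm (Fin r → UnitAddCircle) T0).real {z : ℝ × (Fin r → UnitAddCircle) |
      y < ‖∑ k ∈ s, b k * cexp (-((z.1 * om k : ℝ) : ℂ) * I) * chr k z.2‖} =
    ∫ t in Set.Icc (0 : ℝ) T0, secV s b om y t := by
  have : IsFiniteMeasure ((volume : Measure ℝ).restrict (Set.Icc (0 : ℝ) T0)) :=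
    ⟨by rw [Measure.restrict_apply_univ]; exact measure_Icc_lt_top⟩
  have hm : MeasurableSet {z : ℝ × (Fin r → UnitAddCircle) |
      y < ‖∑ k ∈ s, b k * cexp (-((z.1 * om k : ℝ) : ℂ) * I) * chr k z.2‖} :=
    measurableSet_lt measurable_const (rectA_u_cont s b om).norm.measurable
  unfold stm
  rw [← integral_indicator_one hm, integral_prod]
  · refine integral_congr_ae (ae_of_all _ fun t => ?_)
    have h2 : MeasurableSet {x : Fin r → UnitAddCircle |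
      y < ‖∑ k ∈ s, b k * cexp (-((t * om k : ℝ) : ℂ) * I) * chr k x‖} :=
      measurable_prodMk_left hm
    unfold secV
    simp only
    rw [← integral_indicator_one h2]
    rfl
  · exact (integrable_const (1 : ℝ)).indicator hm

theorem rectA_card_box {r : ℕ} (N : ℕ) (s : Finset (Fin r → ℤ)) (hs : ∀ k ∈ s, ∀ j, |(k j : ℝ)| ≤ N) :
    (s.card : ℝ) ≤ (2 * (N : ℝ) + 1) ^ r := by
  have hsub : s ⊆ Fintype.piFinset (fun _ : Fin r => Finset.Icc (-(N : ℤ)) N) := by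
    intro k hk
    rw [Fintype.mem_piFinset]
    intro j
    have := hs k hk j
    rw [Finset.mem_Icc]
    have h2 : |k j| ≤ (N : ℤ) := by exact_mod_cast this
    exact abs_le.1 h2
  have h1 := Finset.card_le_card hsub
  rw [Fintype.card_piFinset_const, Int.card_Icc] at h1
  have h2 : ((N : ℤ) + 1 - -(N : ℤ)).toNat = 2 * N + 1 := by omega
  rw [h2] at h1
  exact_mod_cast h1

theorem strong {r : ℕ} (hr : 1 ≤ r) (h : BDst r) {q : ℝ} (hq : 2 + 4 / (r : ℝ) < q)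
    (a : Fin r → ℝ) (ha : ∀ j, 0 < a j) (T0 : ℝ) (hT0 : 0 < T0) (haT : ∀ j, a j * T0 ≤ π) :
    ∃ C : ℝ, 0 < C ∧ ∀ N : ℕ, 1 ≤ N →
      ∀ (s : Finset (Fin r → ℤ)) (b : (Fin r → ℤ) → ℂ), (∀ k ∈ s, ∀ j, |(k j : ℝ)| ≤ N) →
      ∫ t in Set.Icc (0 : ℝ) T0, ∫ x : Fin r → UnitAddCircle,
        ‖∑ k ∈ s, b k * cexp (-((t * (∑ j, a j * (k j : ℝ) ^ 2) : ℝ) : ℂ) * I) * chr k x‖ ^ q ≤
        C * (N : ℝ) ^ ((r : ℝ) * q / 2 - (r + 2)) * (∑ k ∈ s, ‖b k‖ ^ 2) ^ (q / 2) := by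
  have hr0 : (0 : ℝ) < r := by exact_mod_cast hr
  set p : ℝ := 2 + 4 / (r : ℝ) with hp
  have hp0 : 0 < p := by positivity
  set q1 : ℝ := (p + q) / 2 with hq1
  have hq1p : p < q1 := by rw [hq1]; linarith
  have hq1q : q1 < q := by rw [hq1]; linarith
  have hq10 : 0 < q1 := by linarith
  have hq0 : 0 < q := by linarith
  have hqq : 0 < q - q1 := by linarith
  obtain ⟨C1, hC1, hW⟩ := weak hr h hq1p a ha T0 hT0 haT
  refine ⟨q / (q - q1) * C1 * (3 : ℝ) ^ ((r : ℝ) * (q - q1) / 2), by positivity,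
    fun N hN s b hs => ?_⟩
  have hN1 : (1 : ℝ) ≤ N := by exact_mod_cast hN
  have hN0 : (0 : ℝ) < N := by linarith
  set S : ℝ := ∑ k ∈ s, ‖b k‖ ^ 2 with hS
  have hS0 : 0 ≤ S := Finset.sum_nonneg fun k _ => by positivity
  have : IsFiniteMeasure ((volume : Measure ℝ).restrict (Set.Icc (0 : ℝ) T0)) :=
    ⟨by rw [Measure.restrict_apply_univ]; exact measure_Icc_lt_top⟩
  have : IsFiniteMeasure (stm (Fin r → UnitAddCircle) T0) := by unfold stm; infer_instance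
  have hAb : ∀ z : ℝ × (Fin r → UnitAddCircle),
      ‖∑ k ∈ s, b k * cexp (-((z.1 * (∑ j, a j * (k j : ℝ) ^ 2) : ℝ) : ℂ) * I) * chr k z.2‖ ≤
      (((2 * (N : ℝ) + 1) ^ r) * S) ^ (1 / 2 : ℝ) := by
    intro z
    refine (rectA_u_le s b (fun k => ∑ j, a j * (k j : ℝ) ^ 2) z.1 z.2).trans ?_
    rw [← Real.sqrt_eq_rpow]
    refine Real.le_sqrt_of_sq_le ?_
    have h1 := sq_sum_le_card_mul_sum_sq (s := s) (f := fun k => ‖b k‖)
    refine h1.trans ?_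
    exact mul_le_mul_of_nonneg_right (rectA_card_box N s hs) hS0
  have hws := weak_strong (stm (Fin r → UnitAddCircle) T0)
    (fun z => ‖∑ k ∈ s, b k * cexp (-((z.1 * (∑ j, a j * (k j : ℝ) ^ 2) : ℝ) : ℂ) * I) *
      chr k z.2‖) (rectA_u_cont s b (fun k => ∑ j, a j * (k j : ℝ) ^ 2)).norm.measurable
    (fun z => norm_nonneg _) ((((2 * (N : ℝ) + 1) ^ r) * S) ^ (1 / 2 : ℝ))
    (C1 * (N : ℝ) ^ ((r : ℝ) * q1 / 2 - (r + 2)) * S ^ (q1 / 2)) q1 q hAb (by positivity)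
    (by positivity) hq10 hq1q (fun y hy => by
      rw [rectA_stm_level s b (fun k => ∑ j, a j * (k j : ℝ) ^ 2) T0 y]
      exact hW N hN s b hs y hy)
  have hfub : ∫ z, ‖∑ k ∈ s, b k * cexp (-((z.1 * (∑ j, a j * (k j : ℝ) ^ 2) : ℝ) : ℂ) * I) *
      chr k z.2‖ ^ q ∂(stm (Fin r → UnitAddCircle) T0) =
      ∫ t in Set.Icc (0 : ℝ) T0, ∫ x : Fin r → UnitAddCircle,
        ‖∑ k ∈ s, b k * cexp (-((t * (∑ j, a j * (k j : ℝ) ^ 2) : ℝ) : ℂ) * I) * chr k x‖ ^ q := by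
    have := rectA_upow_int s b (fun k => ∑ j, a j * (k j : ℝ) ^ 2) hq0.le T0
    unfold stm at this ⊢
    exact integral_prod _ this
  rw [hfub] at hws
  refine hws.trans ?_
  rcases hS0.eq_or_lt with h0 | hSpos
  · rw [← h0]
    rw [Real.zero_rpow (by positivity), Real.zero_rpow (by positivity)]
    simp
  have e1 : ((((2 * (N : ℝ) + 1) ^ r) * S) ^ (1 / 2 : ℝ)) ^ (q - q1) ≤
      (3 : ℝ) ^ ((r : ℝ) * (q - q1) / 2) * (N : ℝ) ^ ((r : ℝ) * (q - q1) / 2) *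
        S ^ ((q - q1) / 2) := by
    rw [← Real.rpow_mul (by positivity), Real.mul_rpow (by positivity) hS0, ← Real.rpow_natCast,
      ← Real.rpow_mul (by positivity), ← Real.mul_rpow (by norm_num) hN0.le]
    have e2 : (1 / 2 : ℝ) * (q - q1) = (q - q1) / 2 := by ring
    rw [e2]
    refine mul_le_mul_of_nonneg_right ?_ (by positivity)
    have e3 : (r : ℝ) * ((q - q1) / 2) = (r : ℝ) * (q - q1) / 2 := by ring
    rw [e3]
    exact Real.rpow_le_rpow (by positivity) (by linarith) (by positivity)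
  calc q / (q - q1) * (C1 * (N : ℝ) ^ ((r : ℝ) * q1 / 2 - (r + 2)) * S ^ (q1 / 2)) *
        ((((2 * (N : ℝ) + 1) ^ r) * S) ^ (1 / 2 : ℝ)) ^ (q - q1) ≤
      q / (q - q1) * (C1 * (N : ℝ) ^ ((r : ℝ) * q1 / 2 - (r + 2)) * S ^ (q1 / 2)) *
        ((3 : ℝ) ^ ((r : ℝ) * (q - q1) / 2) * (N : ℝ) ^ ((r : ℝ) * (q - q1) / 2) *
        S ^ ((q - q1) / 2)) := mul_le_mul_of_nonneg_left e1 (by positivity)
    _ = q / (q - q1) * C1 * (3 : ℝ) ^ ((r : ℝ) * (q - q1) / 2) *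
        ((N : ℝ) ^ ((r : ℝ) * q1 / 2 - (r + 2)) * (N : ℝ) ^ ((r : ℝ) * (q - q1) / 2)) *
        (S ^ (q1 / 2) * S ^ ((q - q1) / 2)) := by ring
    _ = q / (q - q1) * C1 * (3 : ℝ) ^ ((r : ℝ) * (q - q1) / 2) *
        (N : ℝ) ^ ((r : ℝ) * q / 2 - (r + 2)) * S ^ (q / 2) := by
        rw [← Real.rpow_add hN0, ← Real.rpow_add hSpos]
        congr 3
        · ring
        · ring
    _ ≤ _ := le_refl _

theorem rectA_G_cont {r : ℕ} (s : Finset (Fin r → ℤ)) (b : (Fin r → ℤ) → ℂ) (om : (Fin r → ℤ) → ℝ)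
    {p : ℝ} (hp : 0 ≤ p) :
    Continuous fun t : ℝ => ∫ x : Fin r → UnitAddCircle,
      ‖∑ k ∈ s, b k * cexp (-((t * om k : ℝ) : ℂ) * I) * chr k x‖ ^ p := by
  have := continuous_parametric_integral_of_continuous
    (μ := (volume : Measure (Fin r → UnitAddCircle)))
    (f := fun t x => ‖∑ k ∈ s, b k * cexp (-((t * om k : ℝ) : ℂ) * I) * chr k x‖ ^ p)
    (rectA_upow_cont s b om hp) (s := Set.univ) isCompact_univ
  simpa [Measure.restrict_univ] using this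

theorem rect_of_bd {r : ℕ} (hr : 1 ≤ r) (h : BDst r) {q : ℝ} (hq : 2 + 4 / (r : ℝ) < q) :
    RectStr r q := by
  intro a ha T0 hT0
  have hr0 : (0 : ℝ) < r := by exact_mod_cast hr
  have hq0 : 0 < q := lt_trans (by positivity) hq
  obtain ⟨n, hn⟩ := exists_nat_gt (∑ j, a j * T0 / π)
  have hsum0 : 0 ≤ ∑ j, a j * T0 / π := Finset.sum_nonneg fun j _ => by
    have := ha j; positivity
  have hn0 : (0 : ℝ) < n := lt_of_le_of_lt hsum0 hn
  set T1 : ℝ := T0 / n with hT1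
  have hT10 : 0 < T1 := by positivity
  have haT : ∀ j, a j * T1 ≤ π := by
    intro j
    have h1 : a j * T0 / π ≤ ∑ j, a j * T0 / π :=
      Finset.single_le_sum (f := fun j => a j * T0 / π)
        (fun i _ => by have := ha i; positivity) (Finset.mem_univ j)
    have h2 : a j * T0 / π < n := lt_of_le_of_lt h1 hn
    rw [div_lt_iff₀ Real.pi_pos] at h2
    rw [hT1, mul_div_assoc', div_le_iff₀ hn0]
    linarith
  obtain ⟨C, hC, hS⟩ := strong hr h hq a ha T1 hT10 haT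
  refine ⟨n * C, by positivity, fun N hN s b hs => ?_⟩
  rw [Fintype.card_fin]
  set om : (Fin r → ℤ) → ℝ := fun k => ∑ j, a j * (k j : ℝ) ^ 2 with hom
  set G : ((Fin r → ℤ) → ℂ) → ℝ → ℝ := fun b t => ∫ x : Fin r → UnitAddCircle,
      ‖∑ k ∈ s, b k * cexp (-((t * om k : ℝ) : ℂ) * I) * chr k x‖ ^ q with hG
  have hGc : ∀ b, Continuous (G b) := fun b => rectA_G_cont s b om hq0.le
  have hshift : ∀ (b : (Fin r → ℤ) → ℂ) (c t : ℝ),
      G b (t + c) = G (fun k => b k * cexp (-((c * om k : ℝ) : ℂ) * I)) t := by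
    intro b c t
    simp only [hG]
    refine integral_congr_ae (ae_of_all _ fun x => ?_)
    simp only
    congr 2
    refine Finset.sum_congr rfl fun k _ => ?_
    congr 1
    rw [mul_assoc, ← Complex.exp_add]
    congr 2
    push_cast
    ring
  have hnorm : ∀ (b : (Fin r → ℤ) → ℂ) (c : ℝ),
      ∑ k ∈ s, ‖b k * cexp (-((c * om k : ℝ) : ℂ) * I)‖ ^ 2 = ∑ k ∈ s, ‖b k‖ ^ 2 := by
    intro b c
    refine Finset.sum_congr rfl fun k _ => ?_
    have : -((c * om k : ℝ) : ℂ) * I = ((-(c * om k) : ℝ) : ℂ) * I := by push_cast; ring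
    rw [norm_mul, this, Complex.norm_exp_ofReal_mul_I, mul_one]
  set K : ℝ := C * (N : ℝ) ^ ((r : ℝ) * q / 2 - (r + 2)) * (∑ k ∈ s, ‖b k‖ ^ 2) ^ (q / 2) with hK
  have hpiece : ∀ m : ℕ, ∫ t in ((m : ℝ) * T1)..(((m + 1 : ℕ) : ℝ) * T1), G b t ≤ K := by
    intro m
    have e1 : ∫ t in ((m : ℝ) * T1)..(((m + 1 : ℕ) : ℝ) * T1), G b t =
        ∫ t in (0 : ℝ)..T1, G b (t + (m : ℝ) * T1) := by
      rw [intervalIntegral.integral_comp_add_right]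
      congr 1
      · ring
      · push_cast; ring
    rw [e1, intervalIntegral.integral_of_le hT10.le, ← integral_Icc_eq_integral_Ioc]
    simp_rw [hshift b ((m : ℝ) * T1)]
    have := hS N hN s (fun k => b k * cexp (-(((m : ℝ) * T1 * om k : ℝ) : ℂ) * I)) hs
    rw [hnorm b ((m : ℝ) * T1)] at this
    exact this
  have hsumI := intervalIntegral.sum_integral_adjacent_intervals (f := G b) (μ := volume)
    (a := fun m : ℕ => (m : ℝ) * T1) (n := n) (fun k _ => (hGc b).intervalIntegrable _ _)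
  have hT0n : (n : ℝ) * T1 = T0 := by rw [hT1]; field_simp
  simp only [Nat.cast_zero, zero_mul, hT0n] at hsumI
  rw [integral_Icc_eq_integral_Ioc, ← intervalIntegral.integral_of_le hT0.le]
  change ∫ t in (0 : ℝ)..T0, G b t ≤ _
  rw [← hsumI]
  refine (Finset.sum_le_sum fun m _ => hpiece m).trans ?_
  rw [Finset.sum_const, Finset.card_range, nsmul_eq_mul, hK]
  apply le_of_eq
  ring

end STE
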