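import Mathlib

/-!
# STE/Seq: summation on antidiagonals

PROOF. Let `q' = q/(q-1) ∈ (1,2)`, `u = q' - 1 > 0`, `v = 1 - q'/2 > 0`. Group the pairs `(a,b)` by
`n = a + b`. For fixed `n`: `∑ x_a x_{n-a} ≤ (∑ x)(∑ x) ≤ Y²` and
`∑ (x_a x_{n-a})^{1/2} ≤ ∑ (x_a + x_{n-a})/2 ≤ Y`. Hence the sum over the pairs with `a + b = n` is at most
`min (A 2^{-n u} Y²) (B 2^{n v} Y)`. If `Y = 0` all terms vanish. Otherwise let
`n₀ = log₂ (A Y/B)/(u + v)` (real); for `n ≥ n₀` use the first bound, for `n < n₀` the second one: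
geometric series, total `≤ C (B 2^{n₀ v} Y) = C B Y (A Y/B)^{v/(u+v)}` and `u + v = q'/2`,
`v/(u+v) = 2/q' - 1 = 1 - 2/q`: `= C A^{1-2/q} B^{2/q} Y^{2-2/q}`. If `A = 0` or `B = 0` every term is
`0` (then `A^{1-2/q} B^{2/q} = 0`).
-/

namespace STE

private lemma geo_sum (r : ℝ) (h0 : 0 ≤ r) (h1 : r < 1) (T : Finset ℤ) (f : ℤ → ℕ)
    (hf : Set.InjOn f T) : ∑ n ∈ T, r ^ (f n) ≤ 1 / (1 - r) := by
  have h2 : ∑ n ∈ T, r ^ (f n) = ∑ k ∈ T.image f, r ^ k := by
    rw [Finset.sum_image hf]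
  rw [h2, one_div, ← tsum_geometric_of_lt_one h0 h1]
  exact (summable_geometric_of_lt_one h0 h1).sum_le_tsum (T.image f)
    (fun _ _ => pow_nonneg h0 _)

private lemma geo (u v : ℝ) (hu : 0 < u) (hv : 0 < v) (α β : ℝ) (hα : 0 ≤ α) (hβ : 0 ≤ β)
    (N : Finset ℤ) :
    ∑ n ∈ N, min (α * (2 : ℝ) ^ (-((n : ℝ) * u))) (β * (2 : ℝ) ^ ((n : ℝ) * v)) ≤
      (1 / (1 - (2 : ℝ) ^ (-u)) + 1 / (1 - (2 : ℝ) ^ (-v))) *
        (α ^ (v / (u + v)) * β ^ (u / (u + v))) := by
  have hru0 : 0 < (2 : ℝ) ^ (-u) := Real.rpow_pos_of_pos two_pos _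
  have hrv0 : 0 < (2 : ℝ) ^ (-v) := Real.rpow_pos_of_pos two_pos _
  have hru1 : (2 : ℝ) ^ (-u) < 1 := Real.rpow_lt_one_of_one_lt_of_neg one_lt_two (by linarith)
  have hrv1 : (2 : ℝ) ^ (-v) < 1 := Real.rpow_lt_one_of_one_lt_of_neg one_lt_two (by linarith)
  have hru : 0 < 1 - (2 : ℝ) ^ (-u) := by linarith
  have hrv : 0 < 1 - (2 : ℝ) ^ (-v) := by linarith
  have hRHS : 0 ≤ (1 / (1 - (2 : ℝ) ^ (-u)) + 1 / (1 - (2 : ℝ) ^ (-v))) *
        (α ^ (v / (u + v)) * β ^ (u / (u + v))) := by positivity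
  rcases hα.eq_or_lt with h | hα
  · refine le_trans (le_of_eq ?_) hRHS
    refine Finset.sum_eq_zero fun n _ => ?_
    rw [← h, zero_mul]
    exact min_eq_left (by positivity)
  rcases hβ.eq_or_lt with h | hβ
  · refine le_trans (le_of_eq ?_) hRHS
    refine Finset.sum_eq_zero fun n _ => ?_
    rw [← h, zero_mul]
    exact min_eq_right (by positivity)
  have huv : 0 < u + v := by linarith
  have hl2 : 0 < Real.log 2 := Real.log_pos one_lt_two
  set M := α ^ (v / (u + v)) * β ^ (u / (u + v)) with hM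
  have hM0 : 0 < M := by positivity
  set n₀ : ℝ := (Real.log α - Real.log β) / (Real.log 2 * (u + v)) with hn₀
  have hMexp : M = Real.exp (Real.log α * (v / (u + v)) + Real.log β * (u / (u + v))) := by
    rw [hM, Real.exp_add, Real.rpow_def_of_pos hα, Real.rpow_def_of_pos hβ]
  have key1 : ∀ t : ℝ, α * (2 : ℝ) ^ (-(t * u)) = M * (2 : ℝ) ^ (-((t - n₀) * u)) := by
    intro t
    rw [hMexp, Real.rpow_def_of_pos two_pos, Real.rpow_def_of_pos two_pos, ← Real.exp_add]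
    nth_rewrite 1 [← Real.exp_log hα]
    rw [← Real.exp_add]
    congr 1
    rw [hn₀]
    field_simp
    ring
  have key2 : ∀ t : ℝ, β * (2 : ℝ) ^ (t * v) = M * (2 : ℝ) ^ (-((n₀ - t) * v)) := by
    intro t
    rw [hMexp, Real.rpow_def_of_pos two_pos, Real.rpow_def_of_pos two_pos, ← Real.exp_add]
    nth_rewrite 1 [← Real.exp_log hβ]
    rw [← Real.exp_add]
    congr 1
    rw [hn₀]
    field_simp
    ring
  set m : ℤ := ⌈n₀⌉ with hm
  have hm1 : n₀ ≤ m := Int.le_ceil _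
  have hm2 : (m : ℝ) < n₀ + 1 := Int.ceil_lt_add_one _
  have hpow : ∀ (w : ℝ) (k : ℕ), (2 : ℝ) ^ (-((k : ℝ) * w)) = ((2 : ℝ) ^ (-w)) ^ k := by
    intro w k
    rw [← Real.rpow_natCast, ← Real.rpow_mul two_pos.le]
    congr 1
    ring
  rw [← Finset.sum_filter_add_sum_filter_not N (fun n => m ≤ n), add_mul]
  refine add_le_add ?_ ?_
  · have h1 : ∀ n ∈ N.filter (fun n => m ≤ n),
        min (α * (2 : ℝ) ^ (-((n : ℝ) * u))) (β * (2 : ℝ) ^ ((n : ℝ) * v)) ≤
          M * ((2 : ℝ) ^ (-u)) ^ ((n - m).toNat) := by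
      intro n hn
      have hn2 := (Finset.mem_filter.1 hn).2
      refine (min_le_left _ _).trans ?_
      rw [key1, ← hpow]
      refine mul_le_mul_of_nonneg_left ?_ hM0.le
      refine Real.rpow_le_rpow_of_exponent_le one_le_two ?_
      have h3 : (((n - m).toNat : ℕ) : ℝ) = (n : ℝ) - m := by
        have h4 : (((n - m).toNat : ℕ) : ℤ) = n - m := Int.toNat_of_nonneg (by omega)
        have h5 : ((((n - m).toNat : ℕ) : ℤ) : ℝ) = ((n - m : ℤ) : ℝ) := by rw [h4]
        push_cast at h5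
        exact h5
      rw [h3]
      have h6 : ((n : ℝ) - m) * u ≤ ((n : ℝ) - n₀) * u :=
        mul_le_mul_of_nonneg_right (by linarith) hu.le
      linarith
    refine (Finset.sum_le_sum h1).trans ?_
    rw [← Finset.mul_sum, mul_comm]
    refine mul_le_mul_of_nonneg_right ?_ hM0.le
    refine geo_sum _ hru0.le hru1 _ _ ?_
    intro a ha b hb hab
    simp only [Finset.coe_filter, Set.mem_ofPred_eq] at ha hb
    simp only at hab
    omega
  · have h1 : ∀ n ∈ N.filter (fun n => ¬ m ≤ n),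
        min (α * (2 : ℝ) ^ (-((n : ℝ) * u))) (β * (2 : ℝ) ^ ((n : ℝ) * v)) ≤
          M * ((2 : ℝ) ^ (-v)) ^ ((m - 1 - n).toNat) := by
      intro n hn
      have hn2 := (Finset.mem_filter.1 hn).2
      refine (min_le_right _ _).trans ?_
      rw [key2, ← hpow]
      refine mul_le_mul_of_nonneg_left ?_ hM0.le
      refine Real.rpow_le_rpow_of_exponent_le one_le_two ?_
      have h3 : (((m - 1 - n).toNat : ℕ) : ℝ) = (m : ℝ) - 1 - n := by
        have h4 : (((m - 1 - n).toNat : ℕ) : ℤ) = m - 1 - n := Int.toNat_of_nonneg (by omega)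
        have h5 : ((((m - 1 - n).toNat : ℕ) : ℤ) : ℝ) = ((m - 1 - n : ℤ) : ℝ) := by rw [h4]
        push_cast at h5
        exact h5
      rw [h3]
      have h6 : ((m : ℝ) - 1 - n) * v ≤ (n₀ - n) * v :=
        mul_le_mul_of_nonneg_right (by linarith) hv.le
      linarith
    refine (Finset.sum_le_sum h1).trans ?_
    rw [← Finset.mul_sum, mul_comm]
    refine mul_le_mul_of_nonneg_right ?_ hM0.le
    refine geo_sum _ hrv0.le hrv1 _ _ ?_
    intro a ha b hb hab
    simp only [Finset.coe_filter, Set.mem_ofPred_eq] at ha hb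
    simp only at hab
    omega

theorem antidiag {q : ℝ} (hq : 2 < q) : ∃ C : ℝ, 0 < C ∧ ∀ (A B : ℝ), 0 ≤ A → 0 ≤ B →
    ∀ (s : Finset ℤ) (x : ℤ → ℝ), (∀ a, 0 ≤ x a) → ∀ Y : ℝ, ∑ a ∈ s, x a ≤ Y →
    ∑ a ∈ s, ∑ b ∈ s, min (A * (2 : ℝ) ^ (-(((a : ℝ) + b) * (q / (q - 1) - 1))) * (x a * x b))
        (B * (2 : ℝ) ^ (((a : ℝ) + b) * (1 - q / (q - 1) / 2)) * (x a * x b) ^ (1 / 2 : ℝ)) ≤
      C * (A ^ (1 - 2 / q) * B ^ (2 / q) * Y ^ (2 - 2 / q)) := by
  have hq1 : 0 < q - 1 := by linarith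
  have hq0 : 0 < q := by linarith
  set u : ℝ := q / (q - 1) - 1 with hu
  set v : ℝ := 1 - q / (q - 1) / 2 with hv
  have hu' : u = 1 / (q - 1) := by rw [hu]; field_simp; ring
  have hv' : v = (q - 2) / (2 * (q - 1)) := by rw [hv]; field_simp; ring
  have hu0 : 0 < u := by rw [hu']; positivity
  have hv0 : 0 < v := by rw [hv']; exact div_pos (by linarith) (by linarith)
  have huv : u + v = q / (2 * (q - 1)) := by rw [hu', hv']; field_simp; ring
  have e1 : v / (u + v) = 1 - 2 / q := by rw [huv, hv']; field_simp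
  have e2 : u / (u + v) = 2 / q := by rw [huv, hu']; field_simp
  have hru1 : (2 : ℝ) ^ (-u) < 1 := Real.rpow_lt_one_of_one_lt_of_neg one_lt_two (by linarith)
  have hrv1 : (2 : ℝ) ^ (-v) < 1 := Real.rpow_lt_one_of_one_lt_of_neg one_lt_two (by linarith)
  have hru : 0 < 1 - (2 : ℝ) ^ (-u) := by linarith
  have hrv : 0 < 1 - (2 : ℝ) ^ (-v) := by linarith
  refine ⟨1 / (1 - (2 : ℝ) ^ (-u)) + 1 / (1 - (2 : ℝ) ^ (-v)), by positivity, ?_⟩
  intro A B hA hB s x hx Y hY
  have hY0 : 0 ≤ Y := le_trans (Finset.sum_nonneg fun a _ => hx a) hY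
  set f : ℤ × ℤ → ℝ := fun p =>
    min (A * (2 : ℝ) ^ (-(((p.1 : ℝ) + p.2) * u)) * (x p.1 * x p.2))
      (B * (2 : ℝ) ^ (((p.1 : ℝ) + p.2) * v) * (x p.1 * x p.2) ^ (1 / 2 : ℝ)) with hf
  set N : Finset ℤ := (s ×ˢ s).image (fun p => p.1 + p.2) with hN
  have hstart : ∑ a ∈ s, ∑ b ∈ s,
      min (A * (2 : ℝ) ^ (-(((a : ℝ) + b) * u)) * (x a * x b))
        (B * (2 : ℝ) ^ (((a : ℝ) + b) * v) * (x a * x b) ^ (1 / 2 : ℝ)) =
      ∑ n ∈ N, ∑ p ∈ (s ×ˢ s).filter (fun p => p.1 + p.2 = n), f p := by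
    rw [Finset.sum_fiberwise_of_maps_to (fun p hp => Finset.mem_image_of_mem _ hp),
      Finset.sum_product]
  rw [hstart]
  have hfib : ∀ n ∈ N, ∑ p ∈ (s ×ˢ s).filter (fun p => p.1 + p.2 = n), f p ≤
      min ((A * Y ^ 2) * (2 : ℝ) ^ (-((n : ℝ) * u))) ((B * Y) * (2 : ℝ) ^ ((n : ℝ) * v)) := by
    intro n _
    have hcast : ∀ p ∈ (s ×ˢ s).filter (fun p => p.1 + p.2 = n), (p.1 : ℝ) + p.2 = n := by
      intro p hp
      have h1 := (Finset.mem_filter.1 hp).2
      exact_mod_cast h1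
    refine le_min ?_ ?_
    · calc ∑ p ∈ (s ×ˢ s).filter (fun p => p.1 + p.2 = n), f p
          ≤ ∑ p ∈ (s ×ˢ s).filter (fun p => p.1 + p.2 = n),
            A * (2 : ℝ) ^ (-((n : ℝ) * u)) * (x p.1 * x p.2) := by
            refine Finset.sum_le_sum fun p hp => ?_
            refine (min_le_left _ _).trans (le_of_eq ?_)
            rw [hcast p hp]
        _ ≤ ∑ p ∈ s ×ˢ s, A * (2 : ℝ) ^ (-((n : ℝ) * u)) * (x p.1 * x p.2) := by
            refine Finset.sum_le_sum_of_subset_of_nonneg (Finset.filter_subset _ _) ?_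
            intro p _ _
            have := hx p.1
            have := hx p.2
            positivity
        _ = A * (2 : ℝ) ^ (-((n : ℝ) * u)) * ((∑ a ∈ s, x a) * ∑ b ∈ s, x b) := by
            rw [← Finset.mul_sum, Finset.sum_product, Finset.sum_mul_sum]
        _ ≤ A * (2 : ℝ) ^ (-((n : ℝ) * u)) * (Y * Y) := by
            refine mul_le_mul_of_nonneg_left ?_ (by positivity)
            exact mul_le_mul hY hY (Finset.sum_nonneg fun a _ => hx a) hY0
        _ = (A * Y ^ 2) * (2 : ℝ) ^ (-((n : ℝ) * u)) := by ring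
    · have hinj1 : ∑ p ∈ (s ×ˢ s).filter (fun p => p.1 + p.2 = n), x p.1 ≤ Y := by
        refine le_trans ?_ hY
        have h1 : ∑ p ∈ (s ×ˢ s).filter (fun p => p.1 + p.2 = n), x p.1 =
            ∑ a ∈ ((s ×ˢ s).filter (fun p => p.1 + p.2 = n)).image Prod.fst, x a := by
          rw [Finset.sum_image]
          intro p hp p' hp' h
          simp only [Finset.coe_filter, Set.mem_ofPred_eq] at hp hp'
          ext
          · exact h
          · have := hp.2; have := hp'.2; omega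
        rw [h1]
        refine Finset.sum_le_sum_of_subset_of_nonneg ?_ fun a _ _ => hx a
        intro a ha
        obtain ⟨p, hp, rfl⟩ := Finset.mem_image.1 ha
        exact (Finset.mem_product.1 (Finset.mem_filter.1 hp).1).1
      have hinj2 : ∑ p ∈ (s ×ˢ s).filter (fun p => p.1 + p.2 = n), x p.2 ≤ Y := by
        refine le_trans ?_ hY
        have h1 : ∑ p ∈ (s ×ˢ s).filter (fun p => p.1 + p.2 = n), x p.2 =
            ∑ a ∈ ((s ×ˢ s).filter (fun p => p.1 + p.2 = n)).image Prod.snd, x a := by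
          rw [Finset.sum_image]
          intro p hp p' hp' h
          simp only [Finset.coe_filter, Set.mem_ofPred_eq] at hp hp'
          ext
          · have := hp.2; have := hp'.2; omega
          · exact h
        rw [h1]
        refine Finset.sum_le_sum_of_subset_of_nonneg ?_ fun a _ _ => hx a
        intro a ha
        obtain ⟨p, hp, rfl⟩ := Finset.mem_image.1 ha
        exact (Finset.mem_product.1 (Finset.mem_filter.1 hp).1).2
      calc ∑ p ∈ (s ×ˢ s).filter (fun p => p.1 + p.2 = n), f p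
          ≤ ∑ p ∈ (s ×ˢ s).filter (fun p => p.1 + p.2 = n),
            B * (2 : ℝ) ^ ((n : ℝ) * v) * ((x p.1 + x p.2) / 2) := by
            refine Finset.sum_le_sum fun p hp => ?_
            refine (min_le_right _ _).trans ?_
            rw [hcast p hp]
            refine mul_le_mul_of_nonneg_left ?_ (by positivity)
            rw [← Real.sqrt_eq_rpow]
            have h1 := hx p.1
            have h2 := hx p.2
            refine Real.sqrt_le_iff.2 ⟨by positivity, ?_⟩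
            nlinarith [sq_nonneg (x p.1 - x p.2)]
        _ = B * (2 : ℝ) ^ ((n : ℝ) * v) *
            ((∑ p ∈ (s ×ˢ s).filter (fun p => p.1 + p.2 = n), x p.1 +
              ∑ p ∈ (s ×ˢ s).filter (fun p => p.1 + p.2 = n), x p.2) / 2) := by
            rw [← Finset.mul_sum, ← Finset.sum_div, Finset.sum_add_distrib]
        _ ≤ B * (2 : ℝ) ^ ((n : ℝ) * v) * Y :=
            mul_le_mul_of_nonneg_left (by linarith) (by positivity)
        _ = (B * Y) * (2 : ℝ) ^ ((n : ℝ) * v) := by ring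
  refine (Finset.sum_le_sum hfib).trans ?_
  refine (geo u v hu0 hv0 (A * Y ^ 2) (B * Y) (by positivity) (by positivity) N).trans ?_
  refine mul_le_mul_of_nonneg_left (le_of_eq ?_) (by positivity)
  rw [e1, e2]
  have hq2 : 0 ≤ 1 - 2 / q := by
    rw [sub_nonneg, div_le_one hq0]; linarith
  have hq3 : 0 ≤ 2 / q := by positivity
  rw [Real.mul_rpow hA (by positivity), Real.mul_rpow hB hY0, ← Real.rpow_natCast,
    ← Real.rpow_mul hY0]
  have e3 : Y ^ (2 - 2 / q) = Y ^ (((2 : ℕ) : ℝ) * (1 - 2 / q)) * Y ^ (2 / q) := by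
    rw [← Real.rpow_add_of_nonneg hY0 (by positivity) hq3]
    congr 1
    push_cast
    ring
  rw [e3]
  ring

end STE
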