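import Pool.Agent.STE.Fej2

/-!
# STE/Split: the bilinear form of the arcs for two sets

PROOF. Let `X = ⌈Q/(2ρ)⌉ ≤ Q/ρ` (`Q/(2ρ) ≥ 1`). Left side `≤ |S||S'|` trivially (indicator `≤ 1`) and
`≤ 12 ρ (Σ₀ + Σ₁ + Σ₂)` by `arc_form`, where `Σ₀` = term `k = 0`: `dQ Q 0 = Q`, `‖Shat S 0‖ = |S|`;
`Σ₁` = terms with `k ≠ 0`, `dQ Q |k| ≤ D`: `≤ D ∑ ‖Shat S k‖ ‖Shat S' k‖ ≤ D (|S||S'|)^{1/2}`
(Cauchy-Schwarz and Bessel, `∑ ‖Shat S k‖² ≤ |S|`, see `STZ` (LamQ/SqLarge) or prove it: orthonormal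
system on `[0,1]`); `Σ₂` = terms with `k ≠ 0`, `dQ Q |k| > D`: `dQ ≤ Q`, so `≤ Q (|S||S'|)^{1/2}`, and
`dQ ≤ D^{-B} dQ^{B+1}`, so with `‖Shat S k‖ ≤ |S|` and `div_moment (B+1) σ`:
`≤ |S||S'| D^{-B} 2 C Q^σ X`. As `12 ρ X ≤ 12 Q` the last one gives `C' D^{-B} Q^{1+σ} |S||S'|`.
Finally `min x (a + b + c) ≤ a + min x b + c` for nonnegative numbers.
-/

open MeasureTheory Complex STZ
open scoped Real

namespace STE

private lemma shat_eq2 {S : Set ℝ} (hS : MeasurableSet S) (hS1 : S ⊆ Set.Icc 0 1) (k : ℤ) :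
    fourierCoeffOn (zero_lt_one : (0 : ℝ) < 1) (S.indicator (fun _ => (1 : ℂ))) (-k) = Shat S k := by
  rw [fourierCoeffOn_eq_integral]
  have h1 : ∫ x in (0 : ℝ)..1, (fourier (-(-k))) (x : AddCircle ((1 : ℝ) - 0)) •
      S.indicator (fun _ => (1 : ℂ)) x = Shat S k := by
    rw [intervalIntegral.integral_of_le zero_le_one, ← integral_Icc_eq_integral_Ioc]
    have h2 : (fun x : ℝ => (fourier (-(-k))) (x : AddCircle ((1 : ℝ) - 0)) •
        S.indicator (fun _ => (1 : ℂ)) x) =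
        S.indicator (fun t : ℝ => cexp (2 * π * I * ((k : ℝ) * t : ℝ))) := by
      funext x
      by_cases hx : x ∈ S
      · rw [Set.indicator_of_mem hx, Set.indicator_of_mem hx, fourier_coe_apply]
        simp
        ring_nf
      · rw [Set.indicator_of_notMem hx, Set.indicator_of_notMem hx]
        simp
    rw [h2, setIntegral_indicator hS, Set.inter_eq_right.2 hS1]
    rfl
  rw [h1]
  simp

private lemma bessel2 {S : Set ℝ} (hS : MeasurableSet S) (hS1 : S ⊆ Set.Icc 0 1) (F : Finset ℤ) :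
    ∑ k ∈ F, ‖Shat S k‖ ^ 2 ≤ volume.real S := by
  have hL2 : MemLp (S.indicator (fun _ => (1 : ℂ))) 2 (volume.restrict (Set.Ioc (0:ℝ) 1)) := by
    refine MemLp.indicator hS ?_
    exact memLp_const 1
  have h1 := hasSum_sq_fourierCoeffOn (zero_lt_one : (0 : ℝ) < 1) hL2
  have h2 : ∑ i ∈ F.image (fun k => -k), ‖fourierCoeffOn (zero_lt_one : (0 : ℝ) < 1)
      (S.indicator (fun _ => (1 : ℂ))) i‖ ^ 2 ≤ _ :=
    sum_le_hasSum _ (fun _ _ => by positivity) h1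
  rw [Finset.sum_image (fun a _ b _ h => by simpa using h)] at h2
  simp only [shat_eq2 hS hS1] at h2
  refine h2.trans (le_of_eq ?_)
  rw [intervalIntegral.integral_of_le zero_le_one, ← integral_Icc_eq_integral_Ioc]
  have h3 : (fun x : ℝ => ‖S.indicator (fun _ => (1 : ℂ)) x‖ ^ 2) = S.indicator (fun _ => (1:ℝ)) := by
    funext x
    by_cases hx : x ∈ S
    · rw [Set.indicator_of_mem hx, Set.indicator_of_mem hx]; simp
    · rw [Set.indicator_of_notMem hx, Set.indicator_of_notMem hx]; simp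
  rw [h3, setIntegral_indicator hS, Set.inter_eq_right.2 hS1]
  simp [integral_const]

private lemma shat_le2 {S : Set ℝ} (hS1 : S ⊆ Set.Icc 0 1) (k : ℤ) :
    ‖Shat S k‖ ≤ volume.real S := by
  unfold Shat
  have hfin : volume S < ⊤ := lt_of_le_of_lt (measure_mono hS1) (by simp)
  have h1 := norm_setIntegral_le_of_norm_le_const (μ := volume) (s := S) (C := 1)
    (f := fun t : ℝ => cexp (2 * π * I * ((k : ℝ) * t : ℝ))) hfin (fun t _ => by
      have h2 : (2 * π * I * ((k : ℝ) * t : ℝ) : ℂ) = ((2 * π * (k * t) : ℝ) : ℂ) * I := by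
        push_cast; ring
      rw [h2, Complex.norm_exp_ofReal_mul_I])
  simpa using h1

private lemma dQ_le (Q k : ℕ) : (dQ Q k : ℝ) ≤ Q := by
  have h1 : dQ Q k ≤ (Finset.Icc 1 Q).card := Finset.card_filter_le _ _
  rw [Nat.card_Icc, Nat.add_sub_cancel] at h1
  exact_mod_cast h1

private lemma triv_form (Q : ℕ) (ρ : ℝ) (S S' : Set ℝ) (hS1 : S ⊆ Set.Icc 0 1)
    (hS1' : S' ⊆ Set.Icc 0 1) :
    ∫ t in S, ∫ s in S', (arcs 1 Q ρ).indicator (fun _ => (1 : ℝ)) (t - s) ≤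
      volume.real S * volume.real S' := by
  have hfin : volume S < ⊤ := lt_of_le_of_lt (measure_mono hS1) (by simp)
  have hfin' : volume S' < ⊤ := lt_of_le_of_lt (measure_mono hS1') (by simp)
  have h1 : ∀ t : ℝ, ‖∫ s in S', (arcs 1 Q ρ).indicator (fun _ => (1 : ℝ)) (t - s)‖ ≤
      volume.real S' := by
    intro t
    have h2 := norm_setIntegral_le_of_norm_le_const (μ := volume) (s := S') (C := 1)
      (f := fun s : ℝ => (arcs 1 Q ρ).indicator (fun _ => (1 : ℝ)) (t - s)) hfin' (fun s _ => by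
        by_cases hx : t - s ∈ arcs 1 Q ρ
        · rw [Set.indicator_of_mem hx]; simp
        · rw [Set.indicator_of_notMem hx]; simp)
    simpa using h2
  have h3 := norm_setIntegral_le_of_norm_le_const (μ := volume) (s := S)
    (C := volume.real S')
    (f := fun t : ℝ => ∫ s in S', (arcs 1 Q ρ).indicator (fun _ => (1 : ℝ)) (t - s)) hfin
    (fun t _ => h1 t)
  rw [Real.norm_eq_abs] at h3
  calc _ ≤ _ := le_abs_self _
    _ ≤ _ := h3
    _ = _ := mul_comm _ _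

private lemma cs_form {S S' : Set ℝ} (hS : MeasurableSet S) (hS' : MeasurableSet S')
    (hS1 : S ⊆ Set.Icc 0 1) (hS1' : S' ⊆ Set.Icc 0 1) (F : Finset ℤ) :
    ∑ k ∈ F, ‖Shat S k‖ * ‖Shat S' k‖ ≤ (volume.real S * volume.real S') ^ (1 / 2 : ℝ) := by
  rw [← Real.sqrt_eq_rpow]
  apply Real.le_sqrt_of_sq_le
  refine (Finset.sum_mul_sq_le_sq_mul_sq F (fun k => ‖Shat S k‖) (fun k => ‖Shat S' k‖)).trans ?_
  exact mul_le_mul (bessel2 hS hS1 F) (bessel2 hS' hS1' F)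
    (Finset.sum_nonneg fun k _ => by positivity) measureReal_nonneg

private lemma sum_pm (f : ℕ → ℝ) (hf : ∀ k, 0 ≤ f k) (X : ℕ) :
    ∑ k ∈ (Finset.Icc (-(X : ℤ)) X).erase 0, f k.natAbs ≤ 2 * ∑ k ∈ Finset.Icc 1 X, f k := by
  have h1 : (Finset.Icc (-(X : ℤ)) X).erase 0 ⊆
      (Finset.Icc 1 X).image (fun k : ℕ => (k : ℤ)) ∪
        (Finset.Icc 1 X).image (fun k : ℕ => -(k : ℤ)) := by
    intro k hk
    simp only [Finset.mem_erase, Finset.mem_Icc] at hk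
    simp only [Finset.mem_union, Finset.mem_image, Finset.mem_Icc]
    rcases lt_or_gt_of_ne hk.1 with h | h
    · right
      exact ⟨(-k).toNat, ⟨by omega, by omega⟩, by omega⟩
    · left
      exact ⟨k.toNat, ⟨by omega, by omega⟩, by omega⟩
  refine (Finset.sum_le_sum_of_subset_of_nonneg h1 fun k _ _ => hf _).trans ?_
  have h2 := Finset.sum_union_inter (s₁ := (Finset.Icc 1 X).image (fun k : ℕ => (k : ℤ)))
    (s₂ := (Finset.Icc 1 X).image (fun k : ℕ => -(k : ℤ))) (f := fun k : ℤ => f k.natAbs)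
  have h3 : 0 ≤ ∑ k ∈ (Finset.Icc 1 X).image (fun k : ℕ => (k : ℤ)) ∩
      (Finset.Icc 1 X).image (fun k : ℕ => -(k : ℤ)), f k.natAbs :=
    Finset.sum_nonneg fun k _ => hf _
  rw [Finset.sum_image (by intro a _ b _ h; simpa using h),
    Finset.sum_image (by intro a _ b _ h; simpa using h)] at h2
  simp only [Int.natAbs_natCast, Int.natAbs_neg] at h2
  linarith

theorem form_split (B : ℕ) (σ : ℝ) (hσ : 0 < σ) : ∃ C : ℝ, 1 ≤ C ∧
    ∀ (Q : ℕ) (ρ D : ℝ), 1 ≤ Q → 0 < ρ → ρ ≤ 1 / 2 → 1 ≤ D →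
    ∀ S S' : Set ℝ, MeasurableSet S → MeasurableSet S' → S ⊆ Set.Icc 0 1 → S' ⊆ Set.Icc 0 1 →
    ∫ t in S, ∫ s in S', (arcs 1 Q ρ).indicator (fun _ => (1 : ℝ)) (t - s) ≤
      C * (ρ * Q) * (volume.real S * volume.real S') +
      min (volume.real S * volume.real S')
        (C * (ρ * D) * (volume.real S * volume.real S') ^ (1 / 2 : ℝ)) +
      min (C * (D ^ (-(B : ℝ)) * (Q : ℝ) ^ (1 + σ)) * (volume.real S * volume.real S'))
        (C * (ρ * Q) * (volume.real S * volume.real S') ^ (1 / 2 : ℝ)) := by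
  obtain ⟨C, hC1, hC⟩ := div_moment (B + 1) σ hσ
  refine ⟨24 * C, by linarith, ?_⟩
  intro Q ρ D hQ hρ hρ1 hD S S' hS hS' hS1 hS1'
  set X : ℕ := ⌈(Q : ℝ) / (2 * ρ)⌉₊ with hXdef
  have hQ' : (1 : ℝ) ≤ Q := by exact_mod_cast hQ
  have hX : (Q : ℝ) / (2 * ρ) ≤ X := Nat.le_ceil _
  have hX2 : (X : ℝ) < (Q : ℝ) / (2 * ρ) + 1 := Nat.ceil_lt_add_one (by positivity)
  have hρX : 12 * ρ * X ≤ 12 * Q := by
    have h1 : ρ * X ≤ ρ * ((Q : ℝ) / (2 * ρ) + 1) := mul_le_mul_of_nonneg_left hX2.le hρ.le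
    have h2 : ρ * ((Q : ℝ) / (2 * ρ) + 1) = Q / 2 + ρ := by field_simp
    linarith
  have hA := triv_form Q ρ S S' hS1 hS1'
  have hB := arc_form Q hQ ρ hρ hρ1 X hX S S' hS hS' hS1 hS1'
  set J := ∫ t in S, ∫ s in S', (arcs 1 Q ρ).indicator (fun _ => (1 : ℝ)) (t - s) with hJ
  set V := volume.real S * volume.real S' with hV
  set R := V ^ (1 / 2 : ℝ) with hR
  have hV0 : 0 ≤ V := mul_nonneg measureReal_nonneg measureReal_nonneg
  have hR0 : 0 ≤ R := Real.rpow_nonneg hV0 _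
  have hC0 : 0 < C := by linarith
  have hD0 : 0 < D := by linarith
  -- split off the term of index zero
  have h0mem : (0 : ℤ) ∈ Finset.Icc (-(X : ℤ)) X := by
    rw [Finset.mem_Icc]; omega
  rw [← Finset.add_sum_erase _ _ h0mem] at hB
  set F : Finset ℤ := (Finset.Icc (-(X : ℤ)) X).erase 0 with hF
  have hz : (dQ Q (0 : ℤ).natAbs : ℝ) * (‖Shat S 0‖ * ‖Shat S' 0‖) ≤ Q * V := by
    refine mul_le_mul (dQ_le _ _) ?_ (by positivity) (by positivity)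
    exact mul_le_mul (shat_le2 hS1 0) (shat_le2 hS1' 0) (norm_nonneg _) measureReal_nonneg
  rw [← Finset.sum_filter_add_sum_filter_not F (fun k => (dQ Q k.natAbs : ℝ) ≤ D)] at hB
  set T1 := ∑ k ∈ F.filter (fun k => (dQ Q k.natAbs : ℝ) ≤ D),
    (dQ Q k.natAbs : ℝ) * (‖Shat S k‖ * ‖Shat S' k‖) with hT1
  set T2 := ∑ k ∈ F.filter (fun k => ¬ (dQ Q k.natAbs : ℝ) ≤ D),
    (dQ Q k.natAbs : ℝ) * (‖Shat S k‖ * ‖Shat S' k‖) with hT2
  have hT1le : T1 ≤ D * R := by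
    calc T1 ≤ ∑ k ∈ F.filter (fun k => (dQ Q k.natAbs : ℝ) ≤ D),
          D * (‖Shat S k‖ * ‖Shat S' k‖) := by
            refine Finset.sum_le_sum fun k hk => ?_
            exact mul_le_mul_of_nonneg_right (Finset.mem_filter.1 hk).2 (by positivity)
      _ = D * ∑ k ∈ F.filter (fun k => (dQ Q k.natAbs : ℝ) ≤ D),
          (‖Shat S k‖ * ‖Shat S' k‖) := by rw [Finset.mul_sum]
      _ ≤ D * R := mul_le_mul_of_nonneg_left (cs_form hS hS' hS1 hS1' _) hD0.le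
  have hT2a : T2 ≤ Q * R := by
    calc T2 ≤ ∑ k ∈ F.filter (fun k => ¬ (dQ Q k.natAbs : ℝ) ≤ D),
          (Q : ℝ) * (‖Shat S k‖ * ‖Shat S' k‖) := by
            refine Finset.sum_le_sum fun k hk => ?_
            exact mul_le_mul_of_nonneg_right (dQ_le _ _) (by positivity)
      _ = Q * ∑ k ∈ F.filter (fun k => ¬ (dQ Q k.natAbs : ℝ) ≤ D),
          (‖Shat S k‖ * ‖Shat S' k‖) := by rw [Finset.mul_sum]
      _ ≤ Q * R := mul_le_mul_of_nonneg_left (cs_form hS hS' hS1 hS1' _) (by linarith)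
  have hDB : D ^ (-(B : ℝ)) = (D ^ B)⁻¹ := by
    rw [Real.rpow_neg hD0.le, Real.rpow_natCast]
  have hDB0 : 0 < (D ^ B)⁻¹ := by positivity
  have hT2b : T2 ≤ (D ^ B)⁻¹ * V * (2 * (C * (Q : ℝ) ^ σ * X)) := by
    have hstep : ∀ k ∈ F.filter (fun k => ¬ (dQ Q k.natAbs : ℝ) ≤ D),
        (dQ Q k.natAbs : ℝ) * (‖Shat S k‖ * ‖Shat S' k‖) ≤
          (D ^ B)⁻¹ * V * (dQ Q k.natAbs : ℝ) ^ (B + 1) := by
      intro k hk
      have hk2 := not_le.1 (Finset.mem_filter.1 hk).2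
      have h1 : ‖Shat S k‖ * ‖Shat S' k‖ ≤ V :=
        mul_le_mul (shat_le2 hS1 k) (shat_le2 hS1' k) (norm_nonneg _) measureReal_nonneg
      have h2 : D ^ B ≤ (dQ Q k.natAbs : ℝ) ^ B := pow_le_pow_left₀ hD0.le hk2.le B
      have h3 : 1 ≤ (D ^ B)⁻¹ * (dQ Q k.natAbs : ℝ) ^ B := by
        rw [inv_mul_eq_div, le_div_iff₀ (by positivity), one_mul]
        exact h2
      have h4 : (0 : ℝ) ≤ dQ Q k.natAbs := Nat.cast_nonneg _
      calc (dQ Q k.natAbs : ℝ) * (‖Shat S k‖ * ‖Shat S' k‖)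
          ≤ (dQ Q k.natAbs : ℝ) * V := mul_le_mul_of_nonneg_left h1 h4
        _ = 1 * ((dQ Q k.natAbs : ℝ) * V) := (one_mul _).symm
        _ ≤ ((D ^ B)⁻¹ * (dQ Q k.natAbs : ℝ) ^ B) * ((dQ Q k.natAbs : ℝ) * V) :=
            mul_le_mul_of_nonneg_right h3 (mul_nonneg h4 hV0)
        _ = (D ^ B)⁻¹ * V * (dQ Q k.natAbs : ℝ) ^ (B + 1) := by ring
    have hcoef : 0 ≤ (D ^ B)⁻¹ * V := mul_nonneg hDB0.le hV0
    calc T2 ≤ ∑ k ∈ F.filter (fun k => ¬ (dQ Q k.natAbs : ℝ) ≤ D),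
          (D ^ B)⁻¹ * V * (dQ Q k.natAbs : ℝ) ^ (B + 1) := Finset.sum_le_sum hstep
      _ ≤ ∑ k ∈ F, (D ^ B)⁻¹ * V * (dQ Q k.natAbs : ℝ) ^ (B + 1) :=
          Finset.sum_le_sum_of_subset_of_nonneg (Finset.filter_subset _ _)
            fun k _ _ => mul_nonneg hcoef (by positivity)
      _ = (D ^ B)⁻¹ * V * ∑ k ∈ F, (dQ Q k.natAbs : ℝ) ^ (B + 1) := by rw [Finset.mul_sum]
      _ ≤ (D ^ B)⁻¹ * V * (2 * ∑ k ∈ Finset.Icc 1 X, (dQ Q k : ℝ) ^ (B + 1)) :=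
          mul_le_mul_of_nonneg_left
            (sum_pm (fun k => (dQ Q k : ℝ) ^ (B + 1)) (fun k => by positivity) X) hcoef
      _ ≤ (D ^ B)⁻¹ * V * (2 * (C * (Q : ℝ) ^ σ * X)) :=
          mul_le_mul_of_nonneg_left (mul_le_mul_of_nonneg_left (hC Q X hQ) (by norm_num)) hcoef
  -- conclusions
  have hQσ : 0 < (Q : ℝ) ^ σ := Real.rpow_pos_of_pos (by linarith) _
  have hQ1σ : (Q : ℝ) ^ (1 + σ) = Q * (Q : ℝ) ^ σ := by
    rw [Real.rpow_add (by linarith), Real.rpow_one]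
  have e0 : 12 * ρ * (Q * V) ≤ 24 * C * (ρ * Q) * V := by
    have h1 : 0 ≤ ρ * Q * V := by positivity
    nlinarith
  have e1 : 12 * ρ * T1 ≤ 24 * C * (ρ * D) * R := by
    have h1 : 0 ≤ ρ * D * R := by positivity
    have h2 : 12 * ρ * T1 ≤ 12 * ρ * (D * R) := mul_le_mul_of_nonneg_left hT1le (by positivity)
    nlinarith
  have e2 : 12 * ρ * T2 ≤ 24 * C * (ρ * Q) * R := by
    have h1 : 0 ≤ ρ * Q * R := by positivity
    have h2 : 12 * ρ * T2 ≤ 12 * ρ * (Q * R) := mul_le_mul_of_nonneg_left hT2a (by positivity)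
    nlinarith
  have e3 : 12 * ρ * T2 ≤ 24 * C * (D ^ (-(B : ℝ)) * (Q : ℝ) ^ (1 + σ)) * V := by
    rw [hDB, hQ1σ]
    have h2 : 12 * ρ * T2 ≤ 12 * ρ * ((D ^ B)⁻¹ * V * (2 * (C * (Q : ℝ) ^ σ * X))) :=
      mul_le_mul_of_nonneg_left hT2b (by positivity)
    have h3 : 12 * ρ * ((D ^ B)⁻¹ * V * (2 * (C * (Q : ℝ) ^ σ * X))) =
        (12 * ρ * X) * ((D ^ B)⁻¹ * V * (2 * (C * (Q : ℝ) ^ σ))) := by ring
    have h4 : (12 * ρ * X) * ((D ^ B)⁻¹ * V * (2 * (C * (Q : ℝ) ^ σ))) ≤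
        (12 * Q) * ((D ^ B)⁻¹ * V * (2 * (C * (Q : ℝ) ^ σ))) :=
      mul_le_mul_of_nonneg_right hρX (by positivity)
    calc 12 * ρ * T2 ≤ _ := h2
      _ = _ := h3
      _ ≤ _ := h4
      _ = 24 * C * ((D ^ B)⁻¹ * (Q * (Q : ℝ) ^ σ)) * V := by ring
  have hmin2 : 12 * ρ * T2 ≤ min (24 * C * (D ^ (-(B : ℝ)) * (Q : ℝ) ^ (1 + σ)) * V)
      (24 * C * (ρ * Q) * R) := le_min e3 e2
  have hB' : J ≤ 12 * ρ * (Q * V) + 12 * ρ * T1 + 12 * ρ * T2 := by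
    calc J ≤ _ := hB
      _ ≤ 12 * ρ * (Q * V + (T1 + T2)) :=
          mul_le_mul_of_nonneg_left (by linarith) (by positivity)
      _ = _ := by ring
  have p0 : 0 ≤ 24 * C * (ρ * Q) * V := by positivity
  have p2 : 0 ≤ min (24 * C * (D ^ (-(B : ℝ)) * (Q : ℝ) ^ (1 + σ)) * V)
      (24 * C * (ρ * Q) * R) := by
    refine le_min ?_ (by positivity)
    rw [hDB, hQ1σ]; positivity
  rcases le_total V (24 * C * (ρ * D) * R) with hc | hc
  · rw [min_eq_left hc]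
    linarith
  · rw [min_eq_right hc]
    linarith

end STE
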