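import Pool.Agent.STE.Level

/-!
# STE/TimeKer: the time kernel

PROOF. `q' = q/(q-1)`, `2 - 2/q = 2/q'`. Choose `ε > 0` with `4/q + ε < G` and
`δ = min (1/2) ((2 - 4/q)/4) > 0`. If `N < 2 C1`: the left side is at most
`(∑ 2^{-iG}) (∫F)² ≤ C (∫F^{q'})^{2/q'}` (Hölder/Jensen on `[0,1]`) and `N^{-4/q} ≥ (2 C1)^{-4/q}`. Let
`N ≥ 2 C1`. For `i < I`: `4^i ≤ 4^I ≤ N^{2δ} ≤ N`, so `C1 4^i/N² ≤ 1/2` and `level` applies. Sum over `i`:
`∑_{i<I} 2^{-iG} 16^i ≤ C 16^I ≤ C N^{4δ} ≤ C N^{2-4/q}`, so the first terms give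
`C N^{-4/q} (∫F)² ≤ C N^{-4/q} (∫F^{q'})^{2/q'}`; the second terms give
`N^{-4/q} ∑ 2^{i(4/q+ε-G)} (...) ≤ C N^{-4/q} (...)`.
-/

open MeasureTheory Complex STZ
open scoped Real

namespace STE

/-- the time majorant `∑_{i<I} 2^{-iG} 1_{arcs_i}` -/
noncomputable def maj (C1 G : ℝ) (N I : ℕ) (u : ℝ) : ℝ :=
  ∑ i ∈ Finset.range I, (2 : ℝ) ^ (-((i : ℝ) * G)) *
    (arcs 1 (C1 * 4 ^ i) (C1 * 4 ^ i / (N : ℝ) ^ 2)).indicator (fun _ => (1 : ℝ)) u

private lemma tk_jensen {q : ℝ} (hq : 2 < q) (F : ℝ → ℝ) (hF : Measurable F)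
    (h01 : ∀ t, 0 ≤ F t ∧ F t ≤ 1) :
    (∫ t in Set.Icc (0 : ℝ) 1, F t) ^ 2 ≤
      (∫ t in Set.Icc (0 : ℝ) 1, F t ^ (q / (q - 1))) ^ (2 - 2 / q) := by
  have hq1 : 0 < q - 1 := by linarith
  have hq0 : 0 < q := by linarith
  set p : ℝ := q / (q - 1) with hp
  have hp1 : 1 ≤ p := by
    rw [hp, le_div_iff₀ hq1]; linarith
  have : IsProbabilityMeasure (volume.restrict (Set.Icc (0 : ℝ) 1)) := ⟨by simp⟩
  have hint : Integrable F (volume.restrict (Set.Icc (0 : ℝ) 1)) := by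
    refine Integrable.of_bound (C := 1) hF.aestronglyMeasurable ?_
    exact Filter.Eventually.of_forall fun t => by
      rw [Real.norm_eq_abs, abs_of_nonneg (h01 t).1]; exact (h01 t).2
  have hint2 : Integrable (fun t => F t ^ p) (volume.restrict (Set.Icc (0 : ℝ) 1)) := by
    refine Integrable.of_bound (C := 1) (hF.pow_const p).aestronglyMeasurable ?_
    exact Filter.Eventually.of_forall fun t => by
      rw [Real.norm_eq_abs, abs_of_nonneg (Real.rpow_nonneg (h01 t).1 _)]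
      exact Real.rpow_le_one (h01 t).1 (h01 t).2 (by linarith)
  have hconv : (∫ t in Set.Icc (0 : ℝ) 1, F t) ^ p ≤ ∫ t in Set.Icc (0 : ℝ) 1, F t ^ p := by
    have h := (convexOn_rpow hp1).map_integral_le (μ := volume.restrict (Set.Icc (0 : ℝ) 1))
      (f := F) ?_ isClosed_Ici ?_ hint ?_
    · exact h
    · exact (Real.continuous_rpow_const (by linarith)).continuousOn
    · exact Filter.Eventually.of_forall fun t => (h01 t).1
    · exact hint2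
  have h0 : 0 ≤ ∫ t in Set.Icc (0 : ℝ) 1, F t := integral_nonneg fun t => (h01 t).1
  have h1 : (∫ t in Set.Icc (0 : ℝ) 1, F t) ^ 2 =
      ((∫ t in Set.Icc (0 : ℝ) 1, F t) ^ p) ^ (2 - 2 / q) := by
    rw [← Real.rpow_mul h0, ← Real.rpow_natCast]
    congr 1
    rw [hp]
    field_simp
    push_cast
    ring
  rw [h1]
  exact Real.rpow_le_rpow (Real.rpow_nonneg h0 _) hconv (by
    have : 2 / q ≤ 1 := by rw [div_le_one hq0]; linarith
    linarith)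

private lemma tk_sum (C1 G : ℝ) (N I : ℕ) (F : ℝ → ℝ) (hF : Measurable F)
    (h01 : ∀ t, 0 ≤ F t ∧ F t ≤ 1) :
    ∫ t in Set.Icc (0 : ℝ) 1, ∫ s in Set.Icc (0 : ℝ) 1, F t * F s * maj C1 G N I (t - s) =
      ∑ i ∈ Finset.range I, (2 : ℝ) ^ (-((i : ℝ) * G)) *
        ∫ t in Set.Icc (0 : ℝ) 1, ∫ s in Set.Icc (0 : ℝ) 1, F t * F s *
          (arcs 1 (C1 * 4 ^ i) (C1 * 4 ^ i / (N : ℝ) ^ 2)).indicator (fun _ => (1 : ℝ)) (t - s) := by
  set χ : ℕ → ℝ → ℝ := fun i =>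
    (arcs 1 (C1 * 4 ^ i) (C1 * 4 ^ i / (N : ℝ) ^ 2)).indicator (fun _ => (1 : ℝ)) with hχ
  have hχm : ∀ i, Measurable (χ i) := fun i =>
    measurable_const.indicator (measurableSet_arcs _ _ _)
  have hχ1 : ∀ i u, 0 ≤ χ i u ∧ χ i u ≤ 1 := by
    intro i u
    simp only [hχ, Set.indicator]
    split_ifs <;> norm_num
  have hb : ∀ i t s, 0 ≤ F t * F s * χ i (t - s) ∧ F t * F s * χ i (t - s) ≤ 1 := by
    intro i t s
    have h1 : 0 ≤ F t * F s := mul_nonneg (h01 t).1 (h01 s).1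
    have h2 : F t * F s ≤ 1 := mul_le_one₀ (h01 t).2 (h01 s).1 (h01 s).2
    exact ⟨mul_nonneg h1 (hχ1 i _).1, mul_le_one₀ h2 (hχ1 i _).1 (hχ1 i _).2⟩
  have hmeas2 : ∀ i, Measurable fun z : ℝ × ℝ => F z.1 * F z.2 * χ i (z.1 - z.2) := by
    intro i
    exact ((hF.comp measurable_fst).mul (hF.comp measurable_snd)).mul
      ((hχm i).comp (measurable_fst.sub measurable_snd))
  have hin : ∀ i t, Integrable (fun s => F t * F s * χ i (t - s))
      (volume.restrict (Set.Icc (0 : ℝ) 1)) := by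
    intro i t
    refine Integrable.of_bound (C := 1) ?_ ?_
    · exact ((hmeas2 i).comp (measurable_const.prodMk measurable_id)).aestronglyMeasurable
    · exact Filter.Eventually.of_forall fun s => by
        rw [Real.norm_eq_abs, abs_of_nonneg (hb i t s).1]; exact (hb i t s).2
  have hout : ∀ i, Integrable (fun t => ∫ s in Set.Icc (0 : ℝ) 1, F t * F s * χ i (t - s))
      (volume.restrict (Set.Icc (0 : ℝ) 1)) := by
    intro i
    refine Integrable.of_bound (C := 1) ?_ ?_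
    · exact ((hmeas2 i).stronglyMeasurable.integral_prod_right
        (ν := volume.restrict (Set.Icc (0 : ℝ) 1))).aestronglyMeasurable
    · refine Filter.Eventually.of_forall fun t => ?_
      rw [Real.norm_eq_abs, abs_of_nonneg (integral_nonneg fun s => (hb i t s).1)]
      calc ∫ s in Set.Icc (0 : ℝ) 1, F t * F s * χ i (t - s)
          ≤ ∫ s in Set.Icc (0 : ℝ) 1, (1 : ℝ) :=
            integral_mono (hin i t) (integrable_const _) fun s => (hb i t s).2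
        _ = 1 := by simp
  have e1 : ∀ t s, F t * F s * maj C1 G N I (t - s) =
      ∑ i ∈ Finset.range I, (2 : ℝ) ^ (-((i : ℝ) * G)) * (F t * F s * χ i (t - s)) := by
    intro t s
    rw [maj, Finset.mul_sum]
    refine Finset.sum_congr rfl fun i _ => ?_
    simp only [hχ]
    ring
  simp_rw [e1]
  have e2 : ∀ t, ∫ s in Set.Icc (0 : ℝ) 1, ∑ i ∈ Finset.range I,
      (2 : ℝ) ^ (-((i : ℝ) * G)) * (F t * F s * χ i (t - s)) =
      ∑ i ∈ Finset.range I, (2 : ℝ) ^ (-((i : ℝ) * G)) *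
        ∫ s in Set.Icc (0 : ℝ) 1, F t * F s * χ i (t - s) := by
    intro t
    rw [integral_finsetSum _ fun i _ => (hin i t).const_mul _]
    exact Finset.sum_congr rfl fun i _ => integral_const_mul _ _
  simp_rw [e2]
  rw [integral_finsetSum _ fun i _ => (hout i).const_mul _]
  exact Finset.sum_congr rfl fun i _ => integral_const_mul _ _

private lemma tk_trivial (C1 : ℝ) (N i : ℕ) (F : ℝ → ℝ) (hF : Measurable F)
    (h01 : ∀ t, 0 ≤ F t ∧ F t ≤ 1) :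
    ∫ t in Set.Icc (0 : ℝ) 1, ∫ s in Set.Icc (0 : ℝ) 1, F t * F s *
      (arcs 1 (C1 * 4 ^ i) (C1 * 4 ^ i / (N : ℝ) ^ 2)).indicator (fun _ => (1 : ℝ)) (t - s) ≤
      (∫ t in Set.Icc (0 : ℝ) 1, F t) ^ 2 := by
  set χ : ℝ → ℝ :=
    (arcs 1 (C1 * 4 ^ i) (C1 * 4 ^ i / (N : ℝ) ^ 2)).indicator (fun _ => (1 : ℝ)) with hχ
  have hχm : Measurable χ := measurable_const.indicator (measurableSet_arcs _ _ _)
  have hχ1 : ∀ u, 0 ≤ χ u ∧ χ u ≤ 1 := by
    intro u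
    simp only [hχ, Set.indicator]
    split_ifs <;> norm_num
  have hint : Integrable F (volume.restrict (Set.Icc (0 : ℝ) 1)) := by
    refine Integrable.of_bound (C := 1) hF.aestronglyMeasurable ?_
    exact Filter.Eventually.of_forall fun t => by
      rw [Real.norm_eq_abs, abs_of_nonneg (h01 t).1]; exact (h01 t).2
  have hin : ∀ t, ∫ s in Set.Icc (0 : ℝ) 1, F t * F s * χ (t - s) ≤
      F t * ∫ s in Set.Icc (0 : ℝ) 1, F s := by
    intro t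
    rw [← integral_const_mul]
    refine integral_mono_of_nonneg (Filter.Eventually.of_forall fun s => ?_)
      (hint.const_mul _) (Filter.Eventually.of_forall fun s => ?_)
    · exact mul_nonneg (mul_nonneg (h01 t).1 (h01 s).1) (hχ1 _).1
    · exact mul_le_of_le_one_right (mul_nonneg (h01 t).1 (h01 s).1) (hχ1 _).2
  calc ∫ t in Set.Icc (0 : ℝ) 1, ∫ s in Set.Icc (0 : ℝ) 1, F t * F s * χ (t - s)
      ≤ ∫ t in Set.Icc (0 : ℝ) 1, F t * ∫ s in Set.Icc (0 : ℝ) 1, F s := by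
        refine integral_mono_of_nonneg (Filter.Eventually.of_forall fun t => ?_)
          (hint.mul_const _) (Filter.Eventually.of_forall hin)
        exact integral_nonneg fun s => mul_nonneg (mul_nonneg (h01 t).1 (h01 s).1) (hχ1 _).1
    _ = (∫ t in Set.Icc (0 : ℝ) 1, F t) ^ 2 := by
        rw [integral_mul_const, sq]

private lemma tk_geom {c : ℝ} (hc : 0 < c) (I : ℕ) :
    ∑ i ∈ Finset.range I, (2 : ℝ) ^ (-((i : ℝ) * c)) ≤ (1 - (2 : ℝ) ^ (-c))⁻¹ := by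
  have h2 : (2 : ℝ) ^ (-c) < 1 := Real.rpow_lt_one_of_one_lt_of_neg (by norm_num) (by linarith)
  have h0 : (0 : ℝ) ≤ (2 : ℝ) ^ (-c) := by positivity
  have e : ∀ i ∈ Finset.range I, (2 : ℝ) ^ (-((i : ℝ) * c)) = ((2 : ℝ) ^ (-c)) ^ i := by
    intro i _
    rw [← Real.rpow_natCast, ← Real.rpow_mul (by norm_num)]
    congr 1
    ring
  rw [Finset.sum_congr rfl e]
  exact (summable_geometric_of_lt_one h0 h2).sum_le_tsum _ (fun _ _ => by positivity)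
    |>.trans_eq (tsum_geometric_of_lt_one h0 h2)

theorem timeKer {q G : ℝ} (hq : 2 < q) (hG : 4 / q < G) (C1 : ℝ) (hC1 : 1 ≤ C1) :
    ∃ C δ : ℝ, 0 < C ∧ 0 < δ ∧ ∀ N I : ℕ, 1 ≤ N → (2 : ℝ) ^ I ≤ (N : ℝ) ^ δ →
    ∀ F : ℝ → ℝ, Measurable F → (∀ t, 0 ≤ F t ∧ F t ≤ 1) →
    ∫ t in Set.Icc (0 : ℝ) 1, ∫ s in Set.Icc (0 : ℝ) 1, F t * F s * maj C1 G N I (t - s) ≤
      C * (N : ℝ) ^ (-(4 / q)) * (∫ t in Set.Icc (0 : ℝ) 1, F t ^ (q / (q - 1))) ^ (2 - 2 / q) := by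
  have hq0 : 0 < q := by linarith
  have hG0 : 0 < G := lt_trans (by positivity) hG
  set ε : ℝ := (G - 4 / q) / 2 with hε
  have hε0 : 0 < ε := by rw [hε]; linarith
  obtain ⟨C0, hC0, hlev⟩ := level hq hε0 C1 hC1
  have hqq : 2 / q < 1 := by rw [div_lt_one hq0]; exact hq
  set δ : ℝ := (2 - 4 / q) / 4 with hδ
  have h4q : 4 / q = 2 * (2 / q) := by ring
  have h2q0 : 0 < 2 / q := by positivity
  have hδ0 : 0 < δ := by rw [hδ, h4q]; linarith
  have hδ1 : δ ≤ 1 / 2 := by rw [hδ, h4q]; linarith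
  have hgG : 0 < (1 - (2 : ℝ) ^ (-G))⁻¹ := by
    have : (2 : ℝ) ^ (-G) < 1 := Real.rpow_lt_one_of_one_lt_of_neg (by norm_num) (by linarith)
    exact inv_pos.2 (by linarith)
  have hgε : 0 < (1 - (2 : ℝ) ^ (-ε))⁻¹ := by
    have : (2 : ℝ) ^ (-ε) < 1 := Real.rpow_lt_one_of_one_lt_of_neg (by norm_num) (by linarith)
    exact inv_pos.2 (by linarith)
  refine ⟨(1 - (2 : ℝ) ^ (-G))⁻¹ * (2 * C1) ^ (4 / q) + C0 * (1 + (1 - (2 : ℝ) ^ (-ε))⁻¹), δ,
    by positivity, hδ0, ?_⟩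
  intro N I hN hI F hF h01
  have hN1 : (1 : ℝ) ≤ N := by exact_mod_cast hN
  have hN0 : (0 : ℝ) < N := by linarith
  set J : ℝ := (∫ t in Set.Icc (0 : ℝ) 1, F t ^ (q / (q - 1))) ^ (2 - 2 / q) with hJ
  have hJF : (∫ t in Set.Icc (0 : ℝ) 1, F t) ^ 2 ≤ J := tk_jensen hq F hF h01
  have hJ0 : 0 ≤ J := le_trans (sq_nonneg _) hJF
  rw [tk_sum C1 G N I F hF h01]
  have hNq : 0 < (N : ℝ) ^ (-(4 / q)) := by positivity
  by_cases hcase : (N : ℝ) < 2 * C1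
  · -- few frequencies
    have h1 : ∑ i ∈ Finset.range I, (2 : ℝ) ^ (-((i : ℝ) * G)) *
        ∫ t in Set.Icc (0 : ℝ) 1, ∫ s in Set.Icc (0 : ℝ) 1, F t * F s *
          (arcs 1 (C1 * 4 ^ i) (C1 * 4 ^ i / (N : ℝ) ^ 2)).indicator (fun _ => (1 : ℝ)) (t - s) ≤
        ∑ i ∈ Finset.range I, (2 : ℝ) ^ (-((i : ℝ) * G)) * J := by
      refine Finset.sum_le_sum fun i _ => ?_
      exact mul_le_mul_of_nonneg_left ((tk_trivial C1 N i F hF h01).trans hJF) (by positivity)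
    refine h1.trans ?_
    rw [← Finset.sum_mul]
    have h2 := tk_geom hG0 I
    have h3 : 1 ≤ (2 * C1) ^ (4 / q) * (N : ℝ) ^ (-(4 / q)) := by
      rw [Real.rpow_neg hN0.le, ← div_eq_mul_inv, one_le_div (by positivity)]
      exact Real.rpow_le_rpow hN0.le hcase.le (by positivity)
    calc (∑ i ∈ Finset.range I, (2 : ℝ) ^ (-((i : ℝ) * G))) * J
        ≤ (1 - (2 : ℝ) ^ (-G))⁻¹ * J := mul_le_mul_of_nonneg_right h2 hJ0
      _ ≤ ((1 - (2 : ℝ) ^ (-G))⁻¹ * J) * ((2 * C1) ^ (4 / q) * (N : ℝ) ^ (-(4 / q))) :=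
          le_mul_of_one_le_right (mul_nonneg hgG.le hJ0) h3
      _ = ((1 - (2 : ℝ) ^ (-G))⁻¹ * (2 * C1) ^ (4 / q)) * (N : ℝ) ^ (-(4 / q)) * J := by ring
      _ ≤ _ := by
          refine mul_le_mul_of_nonneg_right (mul_le_mul_of_nonneg_right ?_ hNq.le) hJ0
          have : 0 ≤ C0 * (1 + (1 - (2 : ℝ) ^ (-ε))⁻¹) := by positivity
          linarith
  · have hcase' : 2 * C1 ≤ N := not_lt.1 hcase
    have hN4 : (4 : ℝ) ^ I ≤ N := by
      have e : (4 : ℝ) ^ I = ((2 : ℝ) ^ I) ^ 2 := by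
        rw [← pow_mul, mul_comm, pow_mul]; norm_num
      rw [e]
      calc ((2 : ℝ) ^ I) ^ 2 ≤ ((N : ℝ) ^ δ) ^ 2 := by gcongr
        _ = (N : ℝ) ^ (2 * δ) := by
            rw [← Real.rpow_natCast, ← Real.rpow_mul hN0.le]; congr 1; push_cast; ring
        _ ≤ (N : ℝ) ^ (1 : ℝ) := Real.rpow_le_rpow_of_exponent_le hN1 (by linarith)
        _ = N := Real.rpow_one _
    have hlev' : ∀ i ∈ Finset.range I, (2 : ℝ) ^ (-((i : ℝ) * G)) *
        ∫ t in Set.Icc (0 : ℝ) 1, ∫ s in Set.Icc (0 : ℝ) 1, F t * F s *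
          (arcs 1 (C1 * 4 ^ i) (C1 * 4 ^ i / (N : ℝ) ^ 2)).indicator (fun _ => (1 : ℝ)) (t - s) ≤
        C0 * J * (((N : ℝ) ^ 2)⁻¹ * (16 : ℝ) ^ i) +
          C0 * J * ((N : ℝ) ^ (-(4 / q)) * (2 : ℝ) ^ (-((i : ℝ) * ε))) := by
      intro i hi
      have hi' : i < I := Finset.mem_range.1 hi
      have h4i : (4 : ℝ) ^ i ≤ N := (pow_le_pow_right₀ (by norm_num) hi'.le).trans hN4
      have hhalf : C1 * 4 ^ i / (N : ℝ) ^ 2 ≤ 1 / 2 := by
        rw [div_le_div_iff₀ (by positivity) (by norm_num)]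
        have : C1 * 4 ^ i ≤ C1 * N := mul_le_mul_of_nonneg_left h4i (by linarith)
        nlinarith
      have h := hlev i N hN hhalf F hF h01
      rw [← hJ] at h
      have hw : (2 : ℝ) ^ (-((i : ℝ) * G)) ≤ 1 := by
        refine Real.rpow_le_one_of_one_le_of_nonpos (by norm_num) ?_
        have : 0 ≤ (i : ℝ) * G := by positivity
        linarith
      have hw0 : 0 < (2 : ℝ) ^ (-((i : ℝ) * G)) := by positivity
      calc (2 : ℝ) ^ (-((i : ℝ) * G)) *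
            ∫ t in Set.Icc (0 : ℝ) 1, ∫ s in Set.Icc (0 : ℝ) 1, F t * F s *
            (arcs 1 (C1 * 4 ^ i) (C1 * 4 ^ i / (N : ℝ) ^ 2)).indicator (fun _ => (1 : ℝ)) (t - s)
          ≤ (2 : ℝ) ^ (-((i : ℝ) * G)) * (C0 * ((16 : ℝ) ^ i * ((N : ℝ) ^ 2)⁻¹ *
              (∫ t in Set.Icc (0 : ℝ) 1, F t) ^ 2 +
              (N : ℝ) ^ (-(4 / q)) * (2 : ℝ) ^ ((i : ℝ) * (4 / q + ε)) * J)) :=
            mul_le_mul_of_nonneg_left h hw0.le
        _ = (2 : ℝ) ^ (-((i : ℝ) * G)) * (C0 * ((16 : ℝ) ^ i * ((N : ℝ) ^ 2)⁻¹ *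
              (∫ t in Set.Icc (0 : ℝ) 1, F t) ^ 2)) +
              C0 * J * ((N : ℝ) ^ (-(4 / q)) *
              ((2 : ℝ) ^ (-((i : ℝ) * G)) * (2 : ℝ) ^ ((i : ℝ) * (4 / q + ε)))) := by ring
        _ ≤ 1 * (C0 * ((16 : ℝ) ^ i * ((N : ℝ) ^ 2)⁻¹ * J)) +
              C0 * J * ((N : ℝ) ^ (-(4 / q)) * (2 : ℝ) ^ (-((i : ℝ) * ε))) := by
            have e : (2 : ℝ) ^ (-((i : ℝ) * G)) * (2 : ℝ) ^ ((i : ℝ) * (4 / q + ε)) =
                (2 : ℝ) ^ (-((i : ℝ) * ε)) := by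
              rw [← Real.rpow_add (by norm_num)]
              congr 1
              rw [hε]; ring
            rw [e]
            gcongr
        _ = _ := by ring
    refine (Finset.sum_le_sum hlev').trans ?_
    rw [Finset.sum_add_distrib, ← Finset.mul_sum, ← Finset.mul_sum, ← Finset.mul_sum,
      ← Finset.mul_sum]
    have h16 : ((N : ℝ) ^ 2)⁻¹ * ∑ i ∈ Finset.range I, (16 : ℝ) ^ i ≤ (N : ℝ) ^ (-(4 / q)) := by
      have e1 : ∑ i ∈ Finset.range I, (16 : ℝ) ^ i ≤ (16 : ℝ) ^ I := by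
        rw [geom_sum_eq (by norm_num)]
        have : (1 : ℝ) ≤ 16 ^ I := one_le_pow₀ (by norm_num)
        rw [div_le_iff₀ (by norm_num)]
        linarith
      have e2 : (16 : ℝ) ^ I ≤ (N : ℝ) ^ (4 * δ) := by
        have e : (16 : ℝ) ^ I = ((2 : ℝ) ^ I) ^ 4 := by
          rw [← pow_mul, mul_comm, pow_mul]; norm_num
        rw [e]
        calc ((2 : ℝ) ^ I) ^ 4 ≤ ((N : ℝ) ^ δ) ^ 4 := by gcongr
          _ = (N : ℝ) ^ (4 * δ) := by
            rw [← Real.rpow_natCast, ← Real.rpow_mul hN0.le]; congr 1; push_cast; ring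
      have e3 : ((N : ℝ) ^ 2)⁻¹ = (N : ℝ) ^ (-(2 : ℝ)) := by
        rw [Real.rpow_neg hN0.le]; norm_cast
      calc ((N : ℝ) ^ 2)⁻¹ * ∑ i ∈ Finset.range I, (16 : ℝ) ^ i
          ≤ ((N : ℝ) ^ 2)⁻¹ * (N : ℝ) ^ (4 * δ) :=
            mul_le_mul_of_nonneg_left (e1.trans e2) (by positivity)
        _ = (N : ℝ) ^ (-(4 / q)) := by
            rw [e3, ← Real.rpow_add hN0]
            congr 1
            rw [hδ]; ring
    have hg := tk_geom hε0 I
    calc C0 * J * (((N : ℝ) ^ 2)⁻¹ * ∑ i ∈ Finset.range I, (16 : ℝ) ^ i) +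
          C0 * J * ((N : ℝ) ^ (-(4 / q)) * ∑ i ∈ Finset.range I, (2 : ℝ) ^ (-((i : ℝ) * ε)))
        ≤ C0 * J * (N : ℝ) ^ (-(4 / q)) +
          C0 * J * ((N : ℝ) ^ (-(4 / q)) * (1 - (2 : ℝ) ^ (-ε))⁻¹) := by
          gcongr
      _ = (C0 * (1 + (1 - (2 : ℝ) ^ (-ε))⁻¹)) * (N : ℝ) ^ (-(4 / q)) * J := by ring
      _ ≤ _ := by
          refine mul_le_mul_of_nonneg_right (mul_le_mul_of_nonneg_right ?_ hNq.le) hJ0
          have : 0 ≤ (1 - (2 : ℝ) ^ (-G))⁻¹ * (2 * C1) ^ (4 / q) := by positivity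
          linarith

private lemma tk_scale (a T0 : ℝ) (ha : 0 < a) (haT : a * T0 ≤ 1) (φ : ℝ → ℝ) :
    ∫ t in Set.Icc (0 : ℝ) T0, φ t =
      a⁻¹ * ∫ t in Set.Icc (0 : ℝ) 1, (Set.Icc (0 : ℝ) (a * T0)).indicator (fun u => φ (u / a)) t := by
  rw [← integral_indicator measurableSet_Icc, ← integral_indicator measurableSet_Icc,
    Set.indicator_indicator]
  have e : Set.Icc (0 : ℝ) 1 ∩ Set.Icc (0 : ℝ) (a * T0) = Set.Icc (0 : ℝ) (a * T0) :=
    Set.inter_eq_right.2 (Set.Icc_subset_Icc_right haT)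
  rw [e]
  have h := MeasureTheory.Measure.integral_comp_mul_left
    ((Set.Icc (0 : ℝ) (a * T0)).indicator (fun u => φ (u / a))) a
  rw [abs_of_pos (inv_pos.2 ha), smul_eq_mul] at h
  rw [← h]
  congr 1
  ext t
  simp only [Set.indicator, Set.mem_Icc]
  have h1 : (0 ≤ a * t ∧ a * t ≤ a * T0) ↔ (0 ≤ t ∧ t ≤ T0) := by
    rw [mul_nonneg_iff_of_pos_left ha, mul_le_mul_iff_right₀ ha]
  rw [if_congr h1 rfl rfl, mul_div_cancel_left₀ _ ha.ne']

/-- rescaled form: times in `[0,T0]`, kernel at `a (t - s)`, `0 < a`, `a T0 ≤ 1` -/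
theorem timeKer' {q G : ℝ} (hq : 2 < q) (hG : 4 / q < G) (C1 : ℝ) (hC1 : 1 ≤ C1) (a T0 : ℝ)
    (ha : 0 < a) (hT0 : 0 < T0) (haT : a * T0 ≤ 1) :
    ∃ C δ : ℝ, 0 < C ∧ 0 < δ ∧ ∀ N I : ℕ, 1 ≤ N → (2 : ℝ) ^ I ≤ (N : ℝ) ^ δ →
    ∀ F : ℝ → ℝ, Measurable F → (∀ t, 0 ≤ F t ∧ F t ≤ 1) →
    ∫ t in Set.Icc (0 : ℝ) T0, ∫ s in Set.Icc (0 : ℝ) T0, F t * F s * maj C1 G N I (a * (t - s)) ≤
      C * (N : ℝ) ^ (-(4 / q)) * (∫ t in Set.Icc (0 : ℝ) T0, F t ^ (q / (q - 1))) ^ (2 - 2 / q) := by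
  obtain ⟨C, δ, hC, hδ, h⟩ := timeKer hq hG C1 hC1
  refine ⟨C * (a⁻¹ * a⁻¹ * a ^ (2 - 2 / q)), δ, by positivity, hδ, ?_⟩
  intro N I hN hI F hF h01
  set F' : ℝ → ℝ := (Set.Icc (0 : ℝ) (a * T0)).indicator (fun u => F (u / a)) with hF'
  have hF'm : Measurable F' := (hF.comp (measurable_id.div_const a)).indicator measurableSet_Icc
  have hF'01 : ∀ t, 0 ≤ F' t ∧ F' t ≤ 1 := by
    intro t
    simp only [hF', Set.indicator]
    split_ifs
    · exact h01 _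
    · norm_num
  have hmain := h N I hN hI F' hF'm hF'01
  have e1 : ∫ t in Set.Icc (0 : ℝ) T0, ∫ s in Set.Icc (0 : ℝ) T0,
      F t * F s * maj C1 G N I (a * (t - s)) = a⁻¹ * a⁻¹ *
      ∫ t in Set.Icc (0 : ℝ) 1, ∫ s in Set.Icc (0 : ℝ) 1, F' t * F' s * maj C1 G N I (t - s) := by
    rw [tk_scale a T0 ha haT, mul_assoc]
    congr 1
    rw [← integral_const_mul]
    refine integral_congr_ae (Filter.Eventually.of_forall fun t => ?_)
    simp only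
    by_cases ht : t ∈ Set.Icc (0 : ℝ) (a * T0)
    · rw [Set.indicator_of_mem ht, tk_scale a T0 ha haT]
      congr 1
      refine integral_congr_ae (Filter.Eventually.of_forall fun s => ?_)
      simp only
      by_cases hs : s ∈ Set.Icc (0 : ℝ) (a * T0)
      · rw [Set.indicator_of_mem hs]
        simp only [hF', Set.indicator_of_mem ht, Set.indicator_of_mem hs]
        congr 2
        field_simp
      · rw [Set.indicator_of_notMem hs]
        simp only [hF', Set.indicator_of_notMem hs]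
        ring
    · rw [Set.indicator_of_notMem ht]
      simp only [hF', Set.indicator_of_notMem ht]
      simp
  have hp0 : q / (q - 1) ≠ 0 := by
    have : 0 < q - 1 := by linarith
    have : 0 < q := by linarith
    positivity
  have e2 : ∫ t in Set.Icc (0 : ℝ) 1, F' t ^ (q / (q - 1)) =
      a * ∫ t in Set.Icc (0 : ℝ) T0, F t ^ (q / (q - 1)) := by
    rw [tk_scale a T0 ha haT, ← mul_assoc, mul_inv_cancel₀ ha.ne', one_mul]
    refine integral_congr_ae (Filter.Eventually.of_forall fun t => ?_)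
    simp only
    by_cases ht : t ∈ Set.Icc (0 : ℝ) (a * T0)
    · simp only [hF', Set.indicator_of_mem ht]
    · simp only [hF', Set.indicator_of_notMem ht]
      exact Real.zero_rpow hp0
  have h0 : 0 ≤ ∫ t in Set.Icc (0 : ℝ) T0, F t ^ (q / (q - 1)) :=
    integral_nonneg fun t => Real.rpow_nonneg (h01 t).1 _
  rw [e1]
  rw [e2, Real.mul_rpow ha.le h0] at hmain
  calc a⁻¹ * a⁻¹ * ∫ t in Set.Icc (0 : ℝ) 1, ∫ s in Set.Icc (0 : ℝ) 1,
        F' t * F' s * maj C1 G N I (t - s)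
      ≤ a⁻¹ * a⁻¹ * (C * (N : ℝ) ^ (-(4 / q)) * (a ^ (2 - 2 / q) *
        (∫ t in Set.Icc (0 : ℝ) T0, F t ^ (q / (q - 1))) ^ (2 - 2 / q))) :=
        mul_le_mul_of_nonneg_left hmain (by positivity)
    _ = _ := by ring

end STE
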